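import Pool.Agent.P8H60.EN.Trf

/-! # Project EN: the theorems for the gaps `(γ_(n+1) - γ_n) / (2 π) log (γ_n / (2 π))` -/

set_option autoImplicit false

namespace Pool.Agent.P8H60.EN

open Finset Filter Topology
open SG (ord NZ)
open Pool.Agent.P8H60.BC (pG S_FC S_LG)
open Pool.Agent.P8H60.BW (W Sg Sg_eq hS att_S)
open Pool.Agent.P8H60.LM (S_TW)
open Pool.Agent.R846.UL (cn cn_eq)

/-- the number of the places where the sum of the gaps is near `f` -/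
noncomputable def h7 (δ : ℝ) (L n : ℕ) (f : ℕ → ℝ) : ℕ :=
  {j : ℕ | j ≤ L ∧ |S7 n j - f j| ≤ δ * Real.sqrt (2 * Real.log L) / (2 * Real.pi)}.ncard

lemma fin_le (L : ℕ) (P : ℕ → Prop) : ({j : ℕ | j ≤ L ∧ P j} : Set ℕ).Finite :=
  (Set.finite_Iic L).subset fun _ h => h.1

/-- `pG` is continuous -/
lemma pG_lip (δ t : ℝ) (hδ : 0 ≤ δ) (ht : 0 ≤ t) : pG (δ + t) ≤ pG δ + 2 * t := by
  rw [Pool.Agent.P8H7.BC.pG_eq δ hδ, Pool.Agent.P8H7.BC.pG_eq (δ + t) (by linarith)]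
  exact Pool.Agent.P8H7.BC.G_lip δ t ht

/-- the good indices -/
def Good (L n : ℕ) : Prop := 1 ≤ ord n ∧ ord (n + L) ≤ ord n + 1

/-- few indices are not good -/
lemma few_bad {θ η : ℝ} (hθ : 0 < θ) (hη : 0 < η) : ∃ L₀ : ℕ, ∀ L N : ℕ, L₀ ≤ L →
    (L : ℝ) ^ (1 + θ) ≤ Real.log N →
    (({n : ℕ | 1 ≤ n ∧ n ≤ N ∧ ¬ Good L n} : Set ℕ).ncard : ℝ) ≤ η * N := by
  classical
  obtain ⟨L₁, h1⟩ := few_far_unif hθ (show 0 < η / 2 by positivity)
  obtain ⟨n₁, hn₁⟩ := (SG.ord_tendsto.eventually_ge_atTop 1).exists_forall_of_atTop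
  refine ⟨L₁ + ⌈2 * (n₁ : ℝ) / η⌉₊ + 1, fun L N hL hLN => ?_⟩
  have hL1 : (1 : ℝ) ≤ L := by exact_mod_cast (by omega : 1 ≤ L)
  have hLl : (L : ℝ) ≤ Real.log N := by
    refine le_trans ?_ hLN
    rw [Real.rpow_add (by linarith), Real.rpow_one]
    exact le_mul_of_one_le_right (by linarith) (Real.one_le_rpow hL1 hθ.le)
  have hN0 : (0 : ℝ) < N := by
    rcases Nat.eq_zero_or_pos N with h | h
    · rw [h] at hLl
      simp at hLl
      linarith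
    · exact_mod_cast h
  have hLN' : (L : ℝ) ≤ N := by
    have := Real.log_le_sub_one_of_pos hN0
    linarith
  have h3 : 2 * (n₁ : ℝ) / η ≤ N := by
    have g1 := Nat.le_ceil (2 * (n₁ : ℝ) / η)
    have g2 : (⌈2 * (n₁ : ℝ) / η⌉₊ : ℝ) ≤ L := by exact_mod_cast (by omega : ⌈2 * (n₁ : ℝ) / η⌉₊ ≤ L)
    linarith
  rw [div_le_iff₀ hη] at h3
  have h4 := h1 L N (by omega) hLN
  have h5 : ({n : ℕ | 1 ≤ n ∧ n ≤ N ∧ ¬ Good L n} : Set ℕ) ⊆
      (((Icc 1 N).filter (fun n => 1 < ord (n + L) - ord n) ∪ range n₁ : Finset ℕ) : Set ℕ) := by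
    rintro n ⟨g1, g2, g3⟩
    rw [Finset.coe_union, Set.mem_union]
    by_cases hn : n < n₁
    · right
      exact_mod_cast Finset.mem_range.2 hn
    · left
      have g4 := hn₁ n (by omega)
      rw [Finset.mem_coe, Finset.mem_filter, Finset.mem_Icc]
      refine ⟨⟨g1, g2⟩, ?_⟩
      by_contra hcon
      push Not at hcon
      exact g3 ⟨g4, by linarith⟩
  have h6 := Set.ncard_le_ncard h5 (Finset.finite_toSet _)
  rw [Set.ncard_coe_finset] at h6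
  have h7 := h6.trans (Finset.card_union_le _ _)
  rw [Finset.card_range] at h7
  have h8 : (({n : ℕ | 1 ≤ n ∧ n ≤ N ∧ ¬ Good L n} : Set ℕ).ncard : ℝ) ≤
      (((Icc 1 N).filter (fun n => 1 < ord (n + L) - ord n)).card : ℝ) + n₁ := by exact_mod_cast h7
  linarith

lemma good_close {L n j : ℕ} (hn : 1 ≤ n) (h : Good L n) (hj : j ≤ L) :
    |W (ord (n + j)) - W (ord n) - S7 n j| ≤ 1 := S7_close hn h.1 h.2 hj

/-- the deviation `σ` is large -/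
lemma ev_sig {t : ℝ} (ht : 0 < t) : ∀ᶠ L : ℕ in atTop,
    1 ≤ t * Real.sqrt (2 * Real.log L) / (2 * Real.pi) := by
  have hpi := Real.pi_pos
  have h1 : Tendsto (fun L : ℕ => Real.log (L : ℝ)) atTop atTop :=
    Real.tendsto_log_atTop.comp tendsto_natCast_atTop_atTop
  filter_upwards [h1.eventually_ge_atTop ((2 * Real.pi / t) ^ 2 / 2)] with L hL
  rw [le_div_iff₀ (by positivity), one_mul]
  have h2 : 2 * Real.pi / t ≤ Real.sqrt (2 * Real.log L) := by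
    apply Real.le_sqrt_of_sq_le
    linarith
  rw [div_le_iff₀ ht] at h2
  linarith

/-- **no set of `exp (L ^ c)` curves** -/
theorem fin7 (hF : S_FIN) {δ ε η θ : ℝ} (hδ : 0 < δ) (hε : 0 < ε) (hη : 0 < η) (hθ : 0 < θ) :
    ∃ c : ℝ, 0 < c ∧ ∃ L₀ : ℕ, ∀ L N : ℕ, L₀ ≤ L → (L : ℝ) ^ (1 + θ) ≤ Real.log N →
    ∀ 𝒲 : Finset (ℕ → ℝ), (𝒲.card : ℝ) ≤ Real.exp ((L : ℝ) ^ c) →
    ({n : ℕ | 1 ≤ n ∧ n ≤ N ∧ ∃ f ∈ 𝒲, ∃ b : ℝ,
      (pG δ + ε) * L < (h7 δ L n (fun j => f j + b) : ℝ)}.ncard : ℝ) ≤ η * N := by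
  obtain ⟨c, hc, L₁, h1⟩ := hF (δ + ε / 4) (ε / 2) (η / 2) θ (by linarith) (by linarith) (by linarith) hθ
  obtain ⟨L₂, h2⟩ := few_bad hθ (show 0 < η / 2 by positivity)
  obtain ⟨L₃, h3⟩ := eventually_atTop.1 (ev_sig (show 0 < ε / 4 by positivity))
  refine ⟨c, hc, L₁ + L₂ + L₃ + 1, fun L N hL hLN 𝒲 h𝒲 => ?_⟩
  have g1 := h1 L N (by omega) hLN 𝒲 h𝒲
  have g2 := h2 L N (by omega) hLN
  have g3 := h3 L (by omega)
  have hL0 : (0 : ℝ) ≤ L := Nat.cast_nonneg L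
  have hsub : ({n : ℕ | 1 ≤ n ∧ n ≤ N ∧ ∃ f ∈ 𝒲, ∃ b : ℝ,
      (pG δ + ε) * L < (h7 δ L n (fun j => f j + b) : ℝ)} : Set ℕ) ⊆
      {n : ℕ | 1 ≤ n ∧ n ≤ N ∧ ∃ f ∈ 𝒲, ∃ b : ℝ,
        (pG (δ + ε / 4) + ε / 2) * L < (hitL (δ + ε / 4) L n (fun j => f j + b) : ℝ)} ∪
      {n : ℕ | 1 ≤ n ∧ n ≤ N ∧ ¬ Good L n} := by
    rintro n ⟨q1, q2, f, hf, b, q3⟩
    by_cases hG : Good L n
    · left
      refine ⟨q1, q2, f, hf, b + W (ord n), lt_of_le_of_lt ?_ (lt_of_lt_of_le q3 ?_)⟩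
      · have := pG_lip δ (ε / 4) hδ.le (by positivity)
        exact mul_le_mul_of_nonneg_right (by linarith) hL0
      · unfold h7 hitL
        have hs : ({j : ℕ | j ≤ L ∧ |S7 n j - (fun j => f j + b) j| ≤
            δ * Real.sqrt (2 * Real.log L) / (2 * Real.pi)} : Set ℕ) ⊆
            {j : ℕ | j ≤ L ∧ |W (ord (n + j)) - (fun j => f j + (b + W (ord n))) j| ≤
              (δ + ε / 4) * Real.sqrt (2 * Real.log L) / (2 * Real.pi)} := by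
          rintro j ⟨hj, hj2⟩
          refine ⟨hj, ?_⟩
          have q4 := good_close q1 hG hj
          have e1 : (δ + ε / 4) * Real.sqrt (2 * Real.log L) / (2 * Real.pi) =
              δ * Real.sqrt (2 * Real.log L) / (2 * Real.pi) +
              ε / 4 * Real.sqrt (2 * Real.log L) / (2 * Real.pi) := by ring
          rw [e1]
          simp only at hj2 ⊢
          rw [abs_le] at hj2 q4 ⊢
          constructor <;> linarith
        exact_mod_cast Set.ncard_le_ncard hs (fin_le _ _)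
    · right
      exact ⟨q1, q2, hG⟩
  have hfin : ∀ P : ℕ → Prop, ({n : ℕ | 1 ≤ n ∧ n ≤ N ∧ P n} : Set ℕ).Finite := fun P =>
    (Set.finite_Iic N).subset fun _ h => h.2.1
  have h5 := Set.ncard_le_ncard hsub ((hfin _).union (hfin _))
  have h6 := h5.trans (Set.ncard_union_le _ _)
  have h7' : (({n : ℕ | 1 ≤ n ∧ n ≤ N ∧ ∃ f ∈ 𝒲, ∃ b : ℝ,
      (pG δ + ε) * L < (h7 δ L n (fun j => f j + b) : ℝ)} : Set ℕ).ncard : ℝ) ≤
      (({n : ℕ | 1 ≤ n ∧ n ≤ N ∧ ∃ f ∈ 𝒲, ∃ b : ℝ,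
        (pG (δ + ε / 4) + ε / 2) * L < (hitL (δ + ε / 4) L n (fun j => f j + b) : ℝ)} : Set ℕ).ncard : ℝ) +
      (({n : ℕ | 1 ≤ n ∧ n ≤ N ∧ ¬ Good L n} : Set ℕ).ncard : ℝ) := by exact_mod_cast h6
  linarith

/-- **the bound is attained** -/
theorem att7 (hTW : S_TW) (hFC : S_FC) (hLG : S_LG) {δ ε η θ : ℝ} (hδ : 0 < δ) (hε : 0 < ε) (hη : 0 < η)
    (hθ : 0 < θ) : ∃ L₀ : ℕ, ∀ L N : ℕ, L₀ ≤ L → (L : ℝ) ^ (1 + θ) ≤ Real.log N →
    ({n : ℕ | 1 ≤ n ∧ n ≤ N ∧ ∀ b : ℝ,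
      (h7 δ L n (fun j => j + b) : ℝ) < (pG δ - ε) * L}.ncard : ℝ) ≤ η * N := by
  classical
  obtain ⟨t, ht⟩ : ∃ t : ℝ, t = min (ε / 4) (δ / 2) := ⟨_, rfl⟩
  have ht0 : 0 < t := by rw [ht]; exact lt_min (by positivity) (by positivity)
  have ht1 : t ≤ ε / 4 := by rw [ht]; exact min_le_left _ _
  have ht2 : t ≤ δ / 2 := by rw [ht]; exact min_le_right _ _
  obtain ⟨L₁, h1⟩ := att_S hTW hFC hLG (show 0 < δ - t by linarith) (show 0 < ε / 2 by positivity)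
    (show 0 < η / 2 by positivity)
  obtain ⟨L₂, h2⟩ := few_bad hθ (show 0 < η / 2 by positivity)
  obtain ⟨L₃, h3⟩ := eventually_atTop.1 (ev_sig ht0)
  obtain ⟨L₄, h4⟩ := eventually_atTop.1 (ev_log 8 0 hθ)
  refine ⟨L₁ + L₂ + L₃ + L₄ + 1, fun L N hL hLN => ?_⟩
  have hL1 : (1 : ℝ) ≤ L := by exact_mod_cast (by omega : 1 ≤ L)
  have hL0 : (0 : ℝ) ≤ L := Nat.cast_nonneg L
  have g8 : 8 * ((L : ℝ) * Real.log L) ≤ Real.log N := by
    refine le_trans ?_ hLN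
    rw [Real.rpow_add (by linarith), Real.rpow_one]
    have q1 := h4 L (by omega)
    have q2 : Real.log L ≤ Real.log ((2 * L : ℕ) : ℝ) := by
      apply Real.log_le_log (by linarith)
      push_cast
      linarith
    have q3 : 8 * Real.log L ≤ (L : ℝ) ^ θ := by linarith
    have q4 : (L : ℝ) * (8 * Real.log L) ≤ L * (L : ℝ) ^ θ := mul_le_mul_of_nonneg_left q3 hL0
    linarith
  have g1 := h1 L N (by omega) g8
  rw [cn_eq] at g1
  have g2 := h2 L N (by omega) hLN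
  have g3 := h3 L (by omega)
  have hsub : ({n : ℕ | 1 ≤ n ∧ n ≤ N ∧ ∀ b : ℝ,
      (h7 δ L n (fun j => j + b) : ℝ) < (pG δ - ε) * L} : Set ℕ) ⊆
      ((((Icc 1 N).filter fun n => ∀ c : ℝ, (hS (δ - t) L L n (fun j => c + j) : ℝ) <
        (pG (δ - t) - ε / 2) * L) : Finset ℕ) : Set ℕ) ∪ {n : ℕ | 1 ≤ n ∧ n ≤ N ∧ ¬ Good L n} := by
    rintro n ⟨q1, q2, q3⟩
    by_cases hG : Good L n
    · left
      rw [Finset.mem_coe, Finset.mem_filter, Finset.mem_Icc]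
      refine ⟨⟨q1, q2⟩, fun b => lt_of_le_of_lt ?_ (lt_of_lt_of_le (q3 b) ?_)⟩
      · unfold h7 hS
        have hs : ({j : ℕ | j ≤ L ∧ |Sg n j - (fun j : ℕ => b + (j : ℝ)) j| ≤
            (δ - t) * Real.sqrt (2 * Real.log L) / (2 * Real.pi)} : Set ℕ) ⊆
            {j : ℕ | j ≤ L ∧ |S7 n j - (fun j : ℕ => (j : ℝ) + b) j| ≤
              δ * Real.sqrt (2 * Real.log L) / (2 * Real.pi)} := by
          rintro j ⟨hj, hj2⟩
          refine ⟨hj, ?_⟩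
          have q4 := good_close q1 hG hj
          have e1 : (δ - t) * Real.sqrt (2 * Real.log L) / (2 * Real.pi) =
              δ * Real.sqrt (2 * Real.log L) / (2 * Real.pi) -
              t * Real.sqrt (2 * Real.log L) / (2 * Real.pi) := by ring
          rw [e1, Sg_eq] at hj2
          simp only at hj2 ⊢
          rw [abs_le] at hj2 q4 ⊢
          constructor <;> linarith
        exact_mod_cast Set.ncard_le_ncard hs (fin_le _ _)
      · have := pG_lip (δ - t) t (by linarith) ht0.le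
        have e1 : δ - t + t = δ := by ring
        rw [e1] at this
        exact mul_le_mul_of_nonneg_right (by linarith) hL0
    · right
      exact ⟨q1, q2, hG⟩
  have hfin : ({n : ℕ | 1 ≤ n ∧ n ≤ N ∧ ¬ Good L n} : Set ℕ).Finite :=
    (Set.finite_Iic N).subset fun _ h => h.2.1
  have h5 := Set.ncard_le_ncard hsub ((Finset.finite_toSet _).union hfin)
  have h6 := h5.trans (Set.ncard_union_le _ _)
  rw [Set.ncard_coe_finset] at h6
  have g1' : ((((Icc 1 N).filter fun n => ∀ c : ℝ, (hS (δ - t) L L n (fun j => c + j) : ℝ) <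
        (pG (δ - t) - ε / 2) * L).card : ℕ) : ℝ) ≤ η / 2 * N := g1
  have h7' : (({n : ℕ | 1 ≤ n ∧ n ≤ N ∧ ∀ b : ℝ,
      (h7 δ L n (fun j => j + b) : ℝ) < (pG δ - ε) * L} : Set ℕ).ncard : ℝ) ≤
      ((((Icc 1 N).filter fun n => ∀ c : ℝ, (hS (δ - t) L L n (fun j => c + j) : ℝ) <
        (pG (δ - t) - ε / 2) * L).card : ℕ) : ℝ) +
      (({n : ℕ | 1 ≤ n ∧ n ≤ N ∧ ¬ Good L n} : Set ℕ).ncard : ℝ) := by exact_mod_cast h6
  linarith

end Pool.Agent.P8H60.EN
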