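import Mathlib

/-!
# Project EN, package ATB (combinatorics, Mathlib only): attainment by curves with `m` pieces

Here `g n = W (γ_n)`, so `g (n + j) - g n` is the sum of `j` consecutive gaps.
-/

set_option autoImplicit false

namespace Pool.Agent.P8H60.EN

/-- package ATB.  Let `E` be the set of the `n` in the hypothesis and, for `n ≤ N`, `bad n` the number of the
`i < m` with `n + i B ∈ E` (`n + i B ≤ 2 N`).  `∑_(n ≤ N) bad n ≤ m η' N`, so `bad n > e m` for at most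
`η' / e N` of the `n ≤ N`.  If `bad n ≤ e m`, choose for the other `i < m` a number `c' i` with at least `q B`
places `j' ≤ B`, `|g (n + i B + j') - g (n + i B) - (c' i + j')| ≤ D`, put
`c i = g (n + i B) - g n + c' i - i B` (`c i = 0` for the bad `i`) and `f j = c (min (j / B) (m - 1)) + j`.
`f (j + 1) ≠ f j + 1` only if `j + 1 = i B`, `1 ≤ i < m` (at most `m - 1 < m` places); and for every good `i`
there are at least `q B - 1` places `j = i B + j'`, `j' < B`, with `|g (n + j) - g n - f j| ≤ D ≤ D'`; these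
sets are disjoint for different `i`, so the number of the places is at least `(1 - e) m (q B - 1)`. -/
def S_ATB : Prop := ∀ (g : ℕ → ℝ) (B m L N : ℕ) (D D' q e η' : ℝ), 1 ≤ m → 1 ≤ B → m * B ≤ L → L ≤ N →
  D ≤ D' → 0 < e → e ≤ 1 → 1 ≤ q * B → 0 ≤ η' →
  ({n : ℕ | 1 ≤ n ∧ n ≤ 2 * N ∧ ∀ c : ℝ,
    ({j : ℕ | j ≤ B ∧ |g (n + j) - g n - (c + j)| ≤ D}.ncard : ℝ) < q * B}.ncard : ℝ) ≤ η' * N →
  ({n : ℕ | 1 ≤ n ∧ n ≤ N ∧ ∀ f : ℕ → ℝ, {j : ℕ | j < L ∧ f (j + 1) ≠ f j + 1}.ncard < m →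
    ({j : ℕ | j ≤ L ∧ |g (n + j) - g n - f j| ≤ D'}.ncard : ℝ) < (1 - e) * m * (q * B - 1)}.ncard : ℝ) ≤
      η' / e * N

end Pool.Agent.P8H60.EN
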