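import Pool.Agent.P8H60.EN.FinS
import Pool.Agent.P8H60.EN.Fin7
import Pool.Agent.P8H60.EN.Stm4

/-! # Project EN: with `L ^ a` pieces the proportion `p (r / √(1 - a))` is attained -/

set_option autoImplicit false

namespace Pool.Agent.P8H60.EN

open Finset Filter Topology
open SG (ord NZ)
open Pool.Agent.P8H60.BC (pG S_FC S_LG)
open Pool.Agent.P8H60.BW (W Sg Sg_eq hS hS_eq hwW att_S)
open Pool.Agent.P8H60.LM (S_TW)
open Pool.Agent.R846.UL (cn cn_eq cn_mono)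

lemma pG_nn (δ : ℝ) : 0 ≤ pG δ := MeasureTheory.measureReal_nonneg

lemma pG_le1 (δ : ℝ) : pG δ ≤ 1 := by
  unfold pG
  exact MeasureTheory.measureReal_le_one

/-- numbers: the pieces -/
lemma ev_pieces {a e : ℝ} (ha : 0 ≤ a) (ha1 : a < 1) (he : 0 < e) : ∀ᶠ L : ℕ in atTop,
    1 ≤ ⌊(L : ℝ) ^ a⌋₊ ∧ (⌊(L : ℝ) ^ a⌋₊ : ℝ) ≤ e * L ∧ (L : ℝ) ^ a ≤ 2 * ⌊(L : ℝ) ^ a⌋₊ := by
  have ht := (tendsto_rpow_atTop (show 0 < 1 - a by linarith)).comp
    (tendsto_natCast_atTop_atTop (R := ℝ))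
  filter_upwards [ht.eventually_ge_atTop (1 / e), eventually_ge_atTop 1] with L h1 h2
  have hL1 : (1 : ℝ) ≤ L := by exact_mod_cast h2
  have hL0 : (0 : ℝ) < L := by linarith
  have h3 : 1 ≤ (L : ℝ) ^ a := Real.one_le_rpow hL1 ha
  have h4 : (⌊(L : ℝ) ^ a⌋₊ : ℝ) ≤ (L : ℝ) ^ a := Nat.floor_le (by linarith)
  have h5 : (L : ℝ) ^ a < ⌊(L : ℝ) ^ a⌋₊ + 1 := Nat.lt_floor_add_one _
  have h6 : 1 ≤ ⌊(L : ℝ) ^ a⌋₊ := by
    rw [Nat.one_le_floor_iff]
    exact h3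
  have h6r : (1 : ℝ) ≤ ⌊(L : ℝ) ^ a⌋₊ := by exact_mod_cast h6
  refine ⟨h6, ?_, by linarith⟩
  have h7 : (1 / e) * (L : ℝ) ^ a ≤ (L : ℝ) ^ (1 - a) * (L : ℝ) ^ a :=
    mul_le_mul_of_nonneg_right h1 (by linarith)
  have h8 : (L : ℝ) ^ (1 - a) * (L : ℝ) ^ a = L := by
    rw [← Real.rpow_add hL0]
    norm_num
  rw [h8] at h7
  have h9 : (L : ℝ) ^ a ≤ e * L := by
    have := mul_le_mul_of_nonneg_left h7 he.le
    have e1 : e * (1 / e * (L : ℝ) ^ a) = (L : ℝ) ^ a := by field_simp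
    linarith
  linarith

/-- numbers: the distances -/
lemma ev_dist {a δ δ'' : ℝ} (_ha1 : a < 1) (hδ : 0 < δ) (hδ'' : 0 < δ'')
    (h : δ'' ^ 2 * (1 - a) < δ ^ 2) : ∀ᶠ L : ℕ in atTop, ∀ B : ℕ, 1 ≤ B →
    (B : ℝ) ≤ 2 * (L : ℝ) ^ (1 - a) →
    δ'' * Real.sqrt (2 * Real.log B) / (2 * Real.pi) ≤ δ * Real.sqrt (2 * Real.log L) / (2 * Real.pi) := by
  have ht := Real.tendsto_log_atTop.comp (tendsto_natCast_atTop_atTop (R := ℝ))
  obtain ⟨q, hq⟩ : ∃ q : ℝ, q = δ ^ 2 - δ'' ^ 2 * (1 - a) := ⟨_, rfl⟩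
  have hq0 : 0 < q := by rw [hq]; linarith
  filter_upwards [ht.eventually_ge_atTop (δ'' ^ 2 * Real.log 2 / q), eventually_ge_atTop 1] with L h1 h2 B hB hBL
  have hL1 : (1 : ℝ) ≤ L := by exact_mod_cast h2
  have hL0 : (0 : ℝ) < L := by linarith
  have hB1 : (1 : ℝ) ≤ B := by exact_mod_cast hB
  simp only [Function.comp_apply] at h1
  rw [div_le_iff₀ hq0] at h1
  have h3 : Real.log B ≤ Real.log 2 + (1 - a) * Real.log L := by
    have h4 : Real.log B ≤ Real.log (2 * (L : ℝ) ^ (1 - a)) := Real.log_le_log (by linarith) hBL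
    rwa [Real.log_mul (by norm_num) (by positivity), Real.log_rpow hL0] at h4
  have h5 : δ'' * Real.sqrt (2 * Real.log B) ≤ δ * Real.sqrt (2 * Real.log L) := by
    have e1 : δ'' * Real.sqrt (2 * Real.log B) = Real.sqrt (δ'' ^ 2 * (2 * Real.log B)) := by
      rw [Real.sqrt_mul (sq_nonneg δ''), Real.sqrt_sq hδ''.le]
    have e2 : δ * Real.sqrt (2 * Real.log L) = Real.sqrt (δ ^ 2 * (2 * Real.log L)) := by
      rw [Real.sqrt_mul (sq_nonneg δ), Real.sqrt_sq hδ.le]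
    rw [e1, e2]
    apply Real.sqrt_le_sqrt
    have h6 : δ'' ^ 2 * Real.log B ≤ δ'' ^ 2 * (Real.log 2 + (1 - a) * Real.log L) :=
      mul_le_mul_of_nonneg_left h3 (sq_nonneg _)
    rw [hq] at h1
    have e3 : Real.log (L : ℝ) * (δ ^ 2 - δ'' ^ 2 * (1 - a)) =
      δ ^ 2 * Real.log L - δ'' ^ 2 * ((1 - a) * Real.log L) := by ring
    rw [e3] at h1
    have e4 : δ'' ^ 2 * (Real.log 2 + (1 - a) * Real.log L) =
      δ'' ^ 2 * Real.log 2 + δ'' ^ 2 * ((1 - a) * Real.log L) := by ring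
    linarith
  exact div_le_div_of_nonneg_right h5 (by positivity)

/-- **with `L ^ a` pieces the proportion `p (r / √(1 - a))` is attained** -/
theorem att_A (hATB : S_ATB) (hTW : S_TW) (hFC : S_FC) (hLG : S_LG) {δ ε η θ a : ℝ} (hδ : 0 < δ)
    (hε : 0 < ε) (hη : 0 < η) (hθ : 0 < θ) (ha : 0 ≤ a) (ha1 : a < 1) :
    ∃ L₀ : ℕ, ∀ L N : ℕ, L₀ ≤ L → (L : ℝ) ^ (1 + θ) ≤ Real.log N →
    cn N {n | ∀ f : ℕ → ℝ, ({j : ℕ | j < L ∧ f (j + 1) ≠ f j + 1}.ncard : ℝ) ≤ (L : ℝ) ^ a - 1 →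
      (hS δ L L n f : ℝ) < (pG (δ / Real.sqrt (1 - a)) - ε) * L} ≤ η * N := by
  classical
  have h1a : 0 < 1 - a := by linarith
  have hsq : 0 < Real.sqrt (1 - a) := Real.sqrt_pos.2 h1a
  obtain ⟨δ', hδ'⟩ : ∃ δ' : ℝ, δ' = δ / Real.sqrt (1 - a) := ⟨_, rfl⟩
  have hδ'0 : 0 < δ' := by rw [hδ']; positivity
  rw [← hδ']
  obtain ⟨e, he⟩ : ∃ e : ℝ, e = min ε 1 / 8 := ⟨_, rfl⟩
  have he0 : 0 < e := by rw [he]; have := lt_min hε one_pos; positivity
  have heε : 8 * e ≤ ε := by rw [he]; have := min_le_left ε 1; linarith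
  have he1 : e ≤ 1 := by rw [he]; have := min_le_right ε 1; linarith
  by_cases hbig : pG δ' ≤ ε
  · -- trivial case
    refine ⟨1, fun L N hL hLN => ?_⟩
    have h0 : cn N {n | ∀ f : ℕ → ℝ, ({j : ℕ | j < L ∧ f (j + 1) ≠ f j + 1}.ncard : ℝ) ≤ (L : ℝ) ^ a - 1 →
      (hS δ L L n f : ℝ) < (pG δ' - ε) * L} = 0 := by
      unfold cn
      have e1 : ({n : ℕ | 1 ≤ n ∧ n ≤ N ∧ n ∈ {n : ℕ | ∀ f : ℕ → ℝ,
          ({j : ℕ | j < L ∧ f (j + 1) ≠ f j + 1}.ncard : ℝ) ≤ (L : ℝ) ^ a - 1 →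
          (hS δ L L n f : ℝ) < (pG δ' - ε) * L}} : Set ℕ) = ∅ := by
        rw [Set.eq_empty_iff_forall_notMem]
        rintro n ⟨-, -, hn⟩
        have h2 := hn (fun j => (j : ℝ)) (by
          have e2 : ({j : ℕ | j < L ∧ ((j + 1 : ℕ) : ℝ) ≠ (j : ℝ) + 1} : Set ℕ) = ∅ := by
            rw [Set.eq_empty_iff_forall_notMem]
            rintro j ⟨-, hj⟩
            exact hj (by push_cast; ring)
          rw [e2, Set.ncard_empty]
          have h3 : 1 ≤ (L : ℝ) ^ a := Real.one_le_rpow (by exact_mod_cast hL) ha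
          simp only [Nat.cast_zero]
          linarith)
        have h4 : (0 : ℝ) ≤ hS δ L L n (fun j => (j : ℝ)) := Nat.cast_nonneg _
        have h5 : (pG δ' - ε) * (L : ℝ) ≤ 0 := mul_nonpos_of_nonpos_of_nonneg (by linarith) (Nat.cast_nonneg _)
        linarith
      rw [e1, Set.ncard_empty]
      simp
    rw [h0]
    positivity
  push Not at hbig
  -- a slightly smaller distance
  obtain ⟨t, ht⟩ : ∃ t : ℝ, t = min (δ' / 2) (e / 2) := ⟨_, rfl⟩
  have ht0 : 0 < t := by rw [ht]; exact lt_min (by positivity) (by positivity)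
  have ht1 : t ≤ δ' / 2 := by rw [ht]; exact min_le_left _ _
  have ht2 : t ≤ e / 2 := by rw [ht]; exact min_le_right _ _
  obtain ⟨δ'', hδ''⟩ : ∃ δ'' : ℝ, δ'' = δ' - t := ⟨_, rfl⟩
  have hδ''0 : 0 < δ'' := by rw [hδ'']; linarith
  have hpp : pG δ' ≤ pG δ'' + e := by
    have := pG_lip δ'' t hδ''0.le ht0.le
    have e1 : δ'' + t = δ' := by rw [hδ'']; ring
    rw [e1] at this
    linarith
  have hdd : δ'' ^ 2 * (1 - a) < δ ^ 2 := by
    have e1 : δ ^ 2 = δ' ^ 2 * (1 - a) := by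
      rw [hδ', div_pow, Real.sq_sqrt h1a.le]
      field_simp
    rw [e1]
    apply mul_lt_mul_of_pos_right _ h1a
    exact pow_lt_pow_left₀ (by rw [hδ'']; linarith) hδ''0.le (by norm_num)
  obtain ⟨q, hq⟩ : ∃ q : ℝ, q = pG δ'' - e := ⟨_, rfl⟩
  have hq0 : 6 * e ≤ q := by rw [hq]; linarith
  have hq1 : q ≤ 1 := by rw [hq]; have := pG_le1 δ''; linarith
  obtain ⟨L₁, h1⟩ := att_N hTW hFC hLG hδ''0 he0 (show 0 < η * e / 2 by positivity) hθ
  obtain ⟨L₂, h2⟩ := eventually_atTop.1 (ev_pieces ha ha1 (show 0 < e / 2 by positivity))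
  obtain ⟨L₃, h3⟩ := eventually_atTop.1 (ev_dist ha1 hδ hδ''0 hdd)
  -- the length of the pieces is large
  have hBt := (tendsto_rpow_atTop h1a).comp (tendsto_natCast_atTop_atTop (R := ℝ))
  obtain ⟨L₄, h4⟩ := (hBt.eventually_ge_atTop ((L₁ : ℝ) + 1 / q + 2)).exists_forall_of_atTop
  refine ⟨L₂ + L₃ + L₄ + 1, fun L N hL hLN => ?_⟩
  obtain ⟨m1, m2, m3⟩ := h2 L (by omega)
  have hL1 : (1 : ℝ) ≤ L := by exact_mod_cast (by omega : 1 ≤ L)
  have hL0 : (0 : ℝ) < L := by linarith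
  obtain ⟨m, hm⟩ : ∃ m : ℕ, m = ⌊(L : ℝ) ^ a⌋₊ := ⟨_, rfl⟩
  rw [← hm] at m1 m2 m3
  have hmr : (1 : ℝ) ≤ m := by exact_mod_cast m1
  have hma : (m : ℝ) ≤ (L : ℝ) ^ a := by rw [hm]; exact Nat.floor_le (by positivity)
  obtain ⟨B, hB⟩ : ∃ B : ℕ, B = L / m := ⟨_, rfl⟩
  have hBm : m * B ≤ L := by rw [hB]; exact Nat.mul_div_le L m
  have hBm2 : L < m * B + m := by
    rw [hB]
    have := Nat.lt_mul_div_succ L (by omega : 0 < m)
    rw [Nat.mul_add, Nat.mul_one] at this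
    exact this
  have hBmr : (m : ℝ) * B ≤ L := by exact_mod_cast hBm
  have hBm2r : (L : ℝ) < m * B + m := by exact_mod_cast hBm2
  have hLa : (L : ℝ) ^ (1 - a) * (L : ℝ) ^ a = L := by
    rw [← Real.rpow_add hL0]
    norm_num
  have hLa0 : 0 < (L : ℝ) ^ a := by positivity
  -- lower bound for `B`
  have hBlow : (L : ℝ) ^ (1 - a) < B + 1 := by
    by_contra hcon
    push Not at hcon
    have g1 : ((B : ℝ) + 1) * m ≤ (L : ℝ) ^ (1 - a) * (L : ℝ) ^ a :=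
      mul_le_mul hcon hma (by positivity) (by positivity)
    rw [hLa] at g1
    have g2 : ((B : ℝ) + 1) * m = m * B + m := by ring
    linarith
  have hBup : (B : ℝ) ≤ 2 * (L : ℝ) ^ (1 - a) := by
    have g1 : (B : ℝ) * (L : ℝ) ^ a ≤ 2 * (m * B) := by
      have := mul_le_mul_of_nonneg_left m3 (Nat.cast_nonneg (α := ℝ) B)
      linarith
    have g2 : (B : ℝ) * (L : ℝ) ^ a ≤ 2 * (L : ℝ) ^ (1 - a) * (L : ℝ) ^ a := by
      rw [mul_assoc, hLa]
      linarith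
    exact le_of_mul_le_mul_right g2 hLa0
  have g4 : (L₁ : ℝ) + 1 / q + 2 ≤ (L : ℝ) ^ (1 - a) := h4 L (by omega)
  have hq00 : 0 < q := by linarith
  have hB4 : (L₁ : ℝ) + 1 / q + 1 ≤ B := by linarith
  have h1q : 0 < 1 / q := by positivity
  have hB1 : 1 ≤ B := by
    have : (1 : ℝ) ≤ B := by linarith [Nat.cast_nonneg (α := ℝ) L₁]
    exact_mod_cast this
  have hBL₁ : L₁ ≤ B := by
    have : (L₁ : ℝ) ≤ B := by linarith
    exact_mod_cast this
  have hqB : 1 ≤ q * B := by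
    have g5 : 1 / q ≤ B := by linarith [Nat.cast_nonneg (α := ℝ) L₁]
    rw [div_le_iff₀ hq00] at g5
    linarith
  -- `N`
  have hLl : (L : ℝ) ≤ Real.log N := by
    refine le_trans ?_ hLN
    rw [Real.rpow_add hL0, Real.rpow_one]
    exact le_mul_of_one_le_right hL0.le (Real.one_le_rpow hL1 hθ.le)
  have hN0 : (0 : ℝ) < N := by
    rcases Nat.eq_zero_or_pos N with h | h
    · rw [h] at hLl
      simp at hLl
      linarith
    · exact_mod_cast h
  have hLN' : L ≤ N := by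
    have := Real.log_le_sub_one_of_pos hN0
    have g6 : (L : ℝ) ≤ N := by linarith
    exact_mod_cast g6
  have hBL : (B : ℝ) ≤ L := by
    have : (B : ℝ) ≤ m * B := le_mul_of_one_le_left (Nat.cast_nonneg _) hmr
    linarith
  have hlog : (B : ℝ) ^ (1 + θ) ≤ Real.log ((2 * N : ℕ) : ℝ) := by
    have g1 : (B : ℝ) ^ (1 + θ) ≤ (L : ℝ) ^ (1 + θ) :=
      Real.rpow_le_rpow (Nat.cast_nonneg _) hBL (by linarith)
    have g2 : Real.log N ≤ Real.log ((2 * N : ℕ) : ℝ) := by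
      apply Real.log_le_log hN0
      push_cast
      linarith
    linarith
  have key := hATB (fun n => W (ord n)) B m L N (δ'' * Real.sqrt (2 * Real.log B) / (2 * Real.pi))
    (δ * Real.sqrt (2 * Real.log L) / (2 * Real.pi)) q e (η * e) m1 hB1 hBm hLN'
    (h3 L (by omega) B hB1 hBup) he0 he1 hqB (by positivity) (by
      have g1 := h1 B (2 * N) hBL₁ hlog
      unfold cn at g1
      have g2 : η * e / 2 * ((2 * N : ℕ) : ℝ) = η * e * N := by
        push_cast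
        ring
      rw [g2] at g1
      refine le_trans (le_of_eq ?_) g1
      congr 2
      ext n
      simp only [Set.mem_ofPred_eq]
      refine and_congr_right fun _ => and_congr_right fun _ => forall_congr' fun c => ?_
      have e1 : ({j : ℕ | j ≤ B ∧ |W (ord (n + j)) - W (ord n) - (c + j)| ≤
          δ'' * Real.sqrt (2 * Real.log B) / (2 * Real.pi)} : Set ℕ).ncard =
          hS δ'' B B n (fun j => c + j) := by
        unfold hS
        congr 1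
        ext j
        simp only [Set.mem_ofPred_eq, Sg_eq]
      rw [e1, hq])
  refine le_trans ?_ (key.trans (le_of_eq ?_))
  · unfold cn
    have hsub : ({n : ℕ | 1 ≤ n ∧ n ≤ N ∧ n ∈ {n : ℕ | ∀ f : ℕ → ℝ,
        ({j : ℕ | j < L ∧ f (j + 1) ≠ f j + 1}.ncard : ℝ) ≤ (L : ℝ) ^ a - 1 →
        (hS δ L L n f : ℝ) < (pG δ' - ε) * L}} : Set ℕ) ⊆
        {n : ℕ | 1 ≤ n ∧ n ≤ N ∧ ∀ f : ℕ → ℝ, {j : ℕ | j < L ∧ f (j + 1) ≠ f j + 1}.ncard < m →
          ({j : ℕ | j ≤ L ∧ |(fun n => W (ord n)) (n + j) - (fun n => W (ord n)) n - f j| ≤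
            δ * Real.sqrt (2 * Real.log L) / (2 * Real.pi)}.ncard : ℝ) < (1 - e) * m * (q * B - 1)} := by
      rintro n ⟨r1, r2, r3⟩
      refine ⟨r1, r2, fun f hf => ?_⟩
      have r4 := r3 f (by
        have g1 : (({j : ℕ | j < L ∧ f (j + 1) ≠ f j + 1}.ncard : ℕ) : ℝ) + 1 ≤ m := by exact_mod_cast hf
        linarith)
      have e1 : ({j : ℕ | j ≤ L ∧ |(fun n => W (ord n)) (n + j) - (fun n => W (ord n)) n - f j| ≤
          δ * Real.sqrt (2 * Real.log L) / (2 * Real.pi)} : Set ℕ).ncard = hS δ L L n f := by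
        unfold hS
        congr 1
        ext j
        simp only [Set.mem_ofPred_eq, Sg_eq]
      rw [e1]
      refine lt_of_lt_of_le r4 ?_
      have g1 : q * L - 2 * m ≤ m * (q * B - 1) := by
        have g2 : (m : ℝ) * (q * B - 1) = q * (m * B) - m := by ring
        have g3 : q * (L - m) ≤ q * (m * B) := mul_le_mul_of_nonneg_left (by linarith) hq00.le
        have g4 : q * m ≤ 1 * m := mul_le_mul_of_nonneg_right hq1 (by linarith)
        have g5 : q * (L - m) = q * L - q * (m : ℝ) := by ring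
        linarith
      have g2 : (q - e) * L ≤ m * (q * B - 1) := by
        have g3 : (q - e) * (L : ℝ) = q * L - e * L := by ring
        linarith
      have g3 : (1 - e) * ((q - e) * L) ≤ (1 - e) * (m * (q * B - 1)) :=
        mul_le_mul_of_nonneg_left g2 (by linarith)
      have g4 : (pG δ' - ε) * L ≤ (1 - e) * ((q - e) * L) := by
        have g5 : pG δ' - ε ≤ (1 - e) * (q - e) := by
          have g6 : (1 - e) * (q - e) = q - e - e * (q - e) := by ring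
          have g7 : e * (q - e) ≤ e * 1 := mul_le_mul_of_nonneg_left (by linarith) he0.le
          rw [g6]
          rw [hq] at *
          linarith
        have g8 := mul_le_mul_of_nonneg_right g5 hL0.le
        linarith
      linarith
    exact_mod_cast Set.ncard_le_ncard hsub ((Set.finite_Iic N).subset fun n hn => hn.2.1)
  · field_simp

end Pool.Agent.P8H60.EN
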