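import Pool.Agent.P8H60.EN.Stm2

/-! # Numerical facts and Markov's inequality for project EN -/

set_option autoImplicit false

namespace Pool.Agent.P8H60.EN

open Filter Topology MeasureTheory

lemma ev_pow {α β : ℝ} (C : ℝ) (h : α < β) : ∀ᶠ L : ℕ in atTop, C * (L : ℝ) ^ α ≤ (L : ℝ) ^ β := by
  have h1 : Tendsto (fun L : ℕ => (L : ℝ) ^ (β - α)) atTop atTop :=
    (tendsto_rpow_atTop (by linarith)).comp tendsto_natCast_atTop_atTop
  filter_upwards [h1.eventually_ge_atTop C, eventually_gt_atTop 0] with L h2 h3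
  have hL : (0 : ℝ) < L := by exact_mod_cast h3
  have h4 : (L : ℝ) ^ β = (L : ℝ) ^ (β - α) * (L : ℝ) ^ α := by
    rw [← Real.rpow_add hL]
    congr 1
    ring
  rw [h4]
  exact mul_le_mul_of_nonneg_right h2 (by positivity)

lemma ev_log {α : ℝ} (C D : ℝ) (h : 0 < α) :
    ∀ᶠ L : ℕ in atTop, C * Real.log ((2 * L : ℕ) : ℝ) + D ≤ (L : ℝ) ^ α := by
  have h1 : Tendsto (fun L : ℕ => (L : ℝ) ^ α) atTop atTop :=
    (tendsto_rpow_atTop h).comp tendsto_natCast_atTop_atTop
  have h2 := (isLittleO_log_rpow_atTop h).comp_tendsto (tendsto_natCast_atTop_atTop (R := ℝ))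
  have h3 := h2.bound (c := 1 / (2 * (|C| + 1))) (by positivity)
  filter_upwards [h1.eventually_ge_atTop (2 * (|C| * Real.log 2 + |D|)), h3, eventually_gt_atTop 1] with L h4 h5 h6
  have hL : (1 : ℝ) < L := by exact_mod_cast h6
  have hlog : 0 < Real.log L := Real.log_pos hL
  have hp : 0 < (L : ℝ) ^ α := by positivity
  simp only [Function.comp_apply] at h5
  rw [Real.norm_of_nonneg hlog.le, Real.norm_of_nonneg hp.le, div_mul_eq_mul_div, one_mul,
    le_div_iff₀ (by positivity)] at h5
  have e1 : Real.log ((2 * L : ℕ) : ℝ) = Real.log 2 + Real.log L := by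
    push_cast
    exact Real.log_mul (by norm_num) (by linarith)
  rw [e1]
  have h7 : C * (Real.log 2 + Real.log L) ≤ |C| * (Real.log 2 + Real.log L) := by
    apply mul_le_mul_of_nonneg_right (le_abs_self C)
    have := Real.log_pos (show (1 : ℝ) < 2 by norm_num)
    linarith
  have h8 := le_abs_self D
  nlinarith

/-- Markov's inequality for the number of the sets which contain a point -/
lemma cnt_mk {K : ℕ} (hK : 1 ≤ K) (B : Fin K → Set ℝ) (I : Set ℝ) {q κ : ℝ} (hκ : 0 < κ)
    (h : ∀ i, volume (I ∩ B i) ≤ ENNReal.ofReal q) :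
    volume {t ∈ I | κ * K < (({i | t ∈ B i} : Set (Fin K)).ncard : ℝ)} ≤ ENNReal.ofReal (q / κ) := by
  classical
  have hK0 : (0 : ℝ) < K := by exact_mod_cast hK
  set B' : Fin K → Set ℝ := fun i => toMeasurable volume (I ∩ B i) with hB'
  have hm : ∀ i, MeasurableSet (B' i) := fun i => measurableSet_toMeasurable _ _
  have hv : ∀ i, volume (B' i) ≤ ENNReal.ofReal q := fun i => by
    rw [hB', measure_toMeasurable]; exact h i
  set f : ℝ → ENNReal := fun t => ∑ i, (B' i).indicator (fun _ => (1 : ENNReal)) t with hf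
  have hfm : Measurable f := by
    refine Finset.measurable_fun_sum _ fun i _ => ?_
    exact (measurable_const.indicator (hm i))
  have h1 : ∫⁻ t, f t ≤ K * ENNReal.ofReal q := by
    rw [hf, lintegral_finsetSum _ (fun i _ => measurable_const.indicator (hm i))]
    calc ∑ i : Fin K, ∫⁻ t, (B' i).indicator (fun _ => (1 : ENNReal)) t = ∑ i : Fin K, volume (B' i) := by
          refine Finset.sum_congr rfl fun i _ => ?_
          rw [lintegral_indicator_const (hm i), one_mul]
      _ ≤ ∑ _i : Fin K, ENNReal.ofReal q := Finset.sum_le_sum fun i _ => hv i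
      _ = K * ENNReal.ofReal q := by
          rw [Finset.sum_const, Finset.card_univ, Fintype.card_fin, nsmul_eq_mul]
  have hκK : 0 < κ * K := by positivity
  have h2 : volume {t ∈ I | κ * K < (({i | t ∈ B i} : Set (Fin K)).ncard : ℝ)} ≤
      volume {t | ENNReal.ofReal (κ * K) ≤ f t} := by
    refine measure_mono ?_
    rintro t ⟨ht, hcnt⟩
    show ENNReal.ofReal (κ * K) ≤ f t
    have e1 : f t = ((({i | t ∈ B' i} : Set (Fin K)).ncard : ℝ) : ℝ).toNNReal := by
      have e2 : ({i | t ∈ B' i} : Set (Fin K)) = ((Finset.univ.filter fun i => t ∈ B' i : Finset (Fin K)) : Set (Fin K)) := by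
        ext i; simp
      rw [e2, Set.ncard_coe_finset, hf]
      simp only [Set.indicator_apply]
      rw [Finset.sum_boole]
      simp
    have h3 : (({i | t ∈ B i} : Set (Fin K)).ncard : ℝ) ≤ (({i | t ∈ B' i} : Set (Fin K)).ncard : ℝ) := by
      have h4 : ({i | t ∈ B i} : Set (Fin K)) ⊆ ({i | t ∈ B' i} : Set (Fin K)) := fun i hi =>
        subset_toMeasurable volume (I ∩ B i) (show t ∈ I ∩ B i from ⟨ht, hi⟩)
      exact_mod_cast Set.ncard_le_ncard h4 (Set.toFinite _)
    rw [e1]
    exact ENNReal.ofReal_le_ofReal (hcnt.le.trans h3)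
  refine h2.trans ((meas_ge_le_lintegral_div hfm.aemeasurable (by simpa using hκK)
    ENNReal.ofReal_ne_top).trans ?_)
  refine (ENNReal.div_le_div_right h1 _).trans ?_
  rw [ENNReal.ofReal_mul hκ.le, ENNReal.ofReal_natCast, mul_comm (ENNReal.ofReal κ) (K : ENNReal),
    ENNReal.mul_div_mul_left _ _ (by exact_mod_cast (by omega : K ≠ 0)) (ENNReal.natCast_ne_top K),
    ENNReal.ofReal_div_of_pos hκ]

end Pool.Agent.P8H60.EN
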