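import Pool.Agent.P8H60.EN.Stm3
import Pool.Agent.P8H60.EN.Num
import Pool.Agent.P8H60.BW.Gap

/-! # Project EN: curves of low complexity, sums of normalised gaps -/

set_option autoImplicit false

namespace Pool.Agent.P8H60.EN

open Finset Filter Topology
open SG (ord NZ)
open Pool.Agent.P8H60.BC (pG S_FC S_LG Fd Fd_const pat)
open Pool.Agent.P8H60.BW (W Sg Sg_eq hS hS_eq hwW att_S)
open Pool.Agent.P8H60.LM (S_TW)
open Pool.Agent.R846.UL (cn cn_eq cn_mono)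

/-- **curves of low complexity do not follow the sums of gaps** -/
theorem all_S (hMAXV : S_MAXV) (hRCV : S_RCV) (hPOL : S_POL) {δ ε η θ : ℝ} (hδ : 0 < δ) (hε : 0 < ε)
    (hη : 0 < η) (hθ : 0 < θ) : ∃ c : ℝ, 0 < c ∧ ∃ L₀ : ℕ, ∀ L N : ℕ, L₀ ≤ L →
    (L : ℝ) ^ (1 + θ) ≤ Real.log N →
    (∀ d : ℕ, (d : ℝ) ≤ (L : ℝ) ^ c →
      cn N {n | ∃ L' : ℕ, L ≤ L' ∧ L' ≤ N ∧ ∃ f ∈ Fd d, (pG δ + ε) * L' < (hS δ L L' n f : ℝ)} ≤
        η * N) ∧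
    (∀ (D : ℕ) (P : ℕ → MvPolynomial (Fin D) ℝ), (D : ℝ) ≤ (L : ℝ) ^ c →
      (∀ j ≤ L, ((P j).totalDegree : ℝ) ≤ Real.exp ((L : ℝ) ^ c)) →
      cn N {n | ∃ x : Fin D → ℝ,
        (pG δ + ε) * L < (hS δ L L n (fun j => MvPolynomial.eval x (P j)) : ℝ)} ≤ η * N) ∧
    (∀ F : Set (ℕ → ℝ), (∀ f ∈ F, ∀ b : ℝ, (fun j => f j + b) ∈ F) →
      (∀ f ∈ F, (fun j => f (j + 1)) ∈ F) →
      (∀ s k : ℕ, 1 ≤ s → s ≤ L → (L : ℝ) ^ c ≤ k → k ≤ L → ∀ y : Fin k → ℝ,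
        ((pat F s k y).ncard : ℝ) ≤ Real.exp (c * k)) →
      cn N {n | ∃ L' : ℕ, L ≤ L' ∧ L' ≤ N ∧ ∃ f ∈ F, (pG δ + ε) * L' < (hS δ L L' n f : ℝ)} ≤
        η * N) := by
  obtain ⟨c₁, hc₁, L₁, h1⟩ := hRCV δ ε η θ hδ hε hη hθ
  obtain ⟨c₂, hc₂, L₂, h2⟩ := hPOL δ ε η θ hδ hε hη hθ
  obtain ⟨c₃, κ, hc₃, hκ, L₃, h3⟩ := hMAXV δ ε η θ hδ hε hη hθ
  obtain ⟨c, hc⟩ : ∃ c : ℝ, c = min (min (c₁ / 2) c₂) (min c₃ κ) := ⟨_, rfl⟩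
  have hc0 : 0 < c := by
    rw [hc]
    exact lt_min (lt_min (by positivity) hc₂) (lt_min hc₃ hκ)
  have g1 : c ≤ c₁ / 2 := by rw [hc]; exact (min_le_left _ _).trans (min_le_left _ _)
  have g2 : c ≤ c₂ := by rw [hc]; exact (min_le_left _ _).trans (min_le_right _ _)
  have g3 : c ≤ c₃ := by rw [hc]; exact (min_le_right _ _).trans (min_le_left _ _)
  have g4 : c ≤ κ := by rw [hc]; exact (min_le_right _ _).trans (min_le_right _ _)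
  obtain ⟨L₄, h4⟩ := (((tendsto_rpow_atTop (show 0 < c₁ / 2 by positivity)).comp
    (tendsto_natCast_atTop_atTop (R := ℝ))).eventually_ge_atTop 2).exists_forall_of_atTop
  refine ⟨c, hc0, L₁ + L₂ + L₃ + L₄ + 1, fun L N hL hLN => ⟨fun d hd => ?_, fun D P hD hP => ?_,
    fun F hF1 hF2 hF3 => ?_⟩⟩
  · have hL1 : (1 : ℝ) ≤ L := by exact_mod_cast (by omega : 1 ≤ L)
    have hd1 : ((d + 1 : ℕ) : ℝ) ≤ (L : ℝ) ^ c₁ := by
      have q1 : (2 : ℝ) ≤ (L : ℝ) ^ (c₁ / 2) := h4 L (by omega)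
      have q2 : (L : ℝ) ^ c ≤ (L : ℝ) ^ (c₁ / 2) := Real.rpow_le_rpow_of_exponent_le hL1 g1
      have q3 : (L : ℝ) ^ c₁ = (L : ℝ) ^ (c₁ / 2) * (L : ℝ) ^ (c₁ / 2) := by
        rw [← Real.rpow_add (by linarith)]
        congr 1
        ring
      rw [q3]
      push_cast
      nlinarith
    refine le_trans (cn_mono fun n _ _ hn => ?_) (h1 L N (by omega) hLN (d + 1) hd1)
    obtain ⟨L', q1, q2, f, hf, q3⟩ := hn
    rw [hS_eq] at q3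
    exact ⟨L', q1, q2, _, Fd_const hf _, q3⟩
  · have hL1 : (1 : ℝ) ≤ L := by exact_mod_cast (by omega : 1 ≤ L)
    have q2 : (L : ℝ) ^ c ≤ (L : ℝ) ^ c₂ := Real.rpow_le_rpow_of_exponent_le hL1 g2
    refine le_trans (cn_mono fun n _ _ hn => ?_) (h2 L N (by omega) hLN D P (hD.trans q2)
      (fun j hj => (hP j hj).trans (Real.exp_le_exp.2 q2)))
    obtain ⟨x, hx⟩ := hn
    rw [hS_eq] at hx
    exact ⟨x, W (ord n), hx.le⟩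
  · have hL1 : (1 : ℝ) ≤ L := by exact_mod_cast (by omega : 1 ≤ L)
    have q2 : (L : ℝ) ^ c ≤ (L : ℝ) ^ c₃ := Real.rpow_le_rpow_of_exponent_le hL1 g3
    refine le_trans (cn_mono fun n _ _ hn => ?_) (h3 L N (by omega) hLN F hF1 hF2
      (fun s k y hs1 hs2 hk1 hk2 => (hF3 s k hs1 hs2 (q2.trans hk1) hk2 y).trans
        (Real.exp_le_exp.2 (mul_le_mul_of_nonneg_right g4 (Nat.cast_nonneg _)))))
    obtain ⟨L', q1, q2, f, hf, q3⟩ := hn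
    rw [hS_eq] at q3
    exact ⟨L', q1, q2, _, hF1 f hf _, q3⟩

/-- the bound is attained -/
theorem att_N (hTW : S_TW) (hFC : S_FC) (hLG : S_LG) {δ ε η θ : ℝ} (hδ : 0 < δ) (hε : 0 < ε) (hη : 0 < η)
    (hθ : 0 < θ) : ∃ L₀ : ℕ, ∀ L N : ℕ, L₀ ≤ L → (L : ℝ) ^ (1 + θ) ≤ Real.log N →
    cn N {n | ∀ c : ℝ, (hS δ L L n (fun j => c + j) : ℝ) < (pG δ - ε) * L} ≤ η * N := by
  obtain ⟨L₁, h1⟩ := att_S hTW hFC hLG hδ hε hη
  obtain ⟨L₄, h4⟩ := eventually_atTop.1 (ev_log 8 0 hθ)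
  refine ⟨L₁ + L₄ + 1, fun L N hL hLN => h1 L N (by omega) ?_⟩
  have hL1 : (1 : ℝ) ≤ L := by exact_mod_cast (by omega : 1 ≤ L)
  have hL0 : (0 : ℝ) ≤ L := Nat.cast_nonneg L
  refine le_trans ?_ hLN
  rw [Real.rpow_add (by linarith), Real.rpow_one]
  have q1 := h4 L (by omega)
  have q2 : Real.log L ≤ Real.log ((2 * L : ℕ) : ℝ) := by
    apply Real.log_le_log (by linarith)
    push_cast
    linarith
  have q3 : 8 * Real.log L ≤ (L : ℝ) ^ θ := by linarith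
  have q4 : (L : ℝ) * (8 * Real.log L) ≤ L * (L : ℝ) ^ θ := mul_le_mul_of_nonneg_left q3 hL0
  linarith

end Pool.Agent.P8H60.EN
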