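import Pool.Agent.P8H60.EN.Stm3

/-! # Project EN: a family with few sign patterns is covered by few boxes -/

set_option autoImplicit false

namespace Pool.Agent.P8H60.EN

open Finset
open Pool.Agent.P8H60.BC (pv lab_card)

lemma card_lt_real {n : ℕ} {a : ℝ} (h0 : 0 ≤ a) (h1 : a ≤ n) :
    |(((univ.filter fun m : Fin n => ((m : ℕ) : ℝ) < a).card : ℕ) : ℝ) - a| ≤ 1 := by
  have e1 : (univ.filter fun m : Fin n => ((m : ℕ) : ℝ) < a) = univ.filter fun m : Fin n => (m : ℕ) < ⌈a⌉₊ := by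
    ext m
    simp only [mem_filter, mem_univ, true_and]
    exact Nat.lt_ceil.symm
  have h2 : ⌈a⌉₊ ≤ n := by
    rw [Nat.ceil_le]
    exact h1
  rw [e1, Fin.card_filter_val_lt, min_eq_right h2]
  have h3 := Nat.le_ceil a
  have h4 := Nat.ceil_lt_add_one h0
  rw [abs_le]
  constructor <;> linarith

/-- few sign patterns, few boxes -/
theorem pat_fin {K : ℕ} (M : ℕ) {w h g : ℝ} (hw : 0 < w) (hh : 0 < h) (x : Fin K → ℝ)
    (V : Set (Fin K → ℝ)) (hg : ∀ y : Fin K → ℝ, ((pv V y).ncard : ℝ) ≤ g) :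
    ∃ 𝒰 : Finset (Fin K → ℝ), (𝒰.card : ℝ) ≤ g ^ (2 * M + 1) ∧
      ∀ v ∈ V, ∃ u ∈ 𝒰, ∀ i, |w * (v i - x i)| ≤ M * h → |u i - w * (v i - x i)| ≤ h := by
  classical
  set y : Fin (2 * M + 1) → Fin K → ℝ := fun m i => x i + (((m : ℕ) : ℝ) - M) * h / w with hy
  set 𝒞 : Finset (Fin K → Fin (2 * M + 1) → Bool) :=
    univ.filter fun c => ∃ v ∈ V, ∀ i m, c i m = true ↔ v i ≤ y m i with h𝒞
  have hcard : (𝒞.card : ℝ) ≤ g ^ (2 * M + 1) := by
    refine lab_card V y hg 𝒞 fun c hc => ?_
    rw [h𝒞, mem_filter] at hc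
    exact hc.2
  set Φ : (Fin K → Fin (2 * M + 1) → Bool) → Fin K → ℝ := fun c i =>
    h * ((((univ.filter fun m : Fin (2 * M + 1) => c i m = false).card : ℕ) : ℝ) - M) with hΦ
  refine ⟨𝒞.image Φ, le_trans (by exact_mod_cast card_image_le) hcard, fun v hv => ?_⟩
  set c : Fin K → Fin (2 * M + 1) → Bool := fun i m => decide (v i ≤ y m i) with hc
  refine ⟨Φ c, mem_image_of_mem _ ?_, fun i hi => ?_⟩
  · rw [h𝒞, mem_filter]
    exact ⟨mem_univ _, v, hv, fun i m => by simp [hc]⟩
  · obtain ⟨z, hz⟩ : ∃ z : ℝ, z = w * (v i - x i) / h := ⟨_, rfl⟩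
    have hzh : w * (v i - x i) = z * h := by rw [hz]; field_simp
    rw [hzh, abs_mul, abs_of_pos hh] at hi
    have hzM : |z| ≤ M := le_of_mul_le_mul_right hi hh
    rw [abs_le] at hzM
    have e1 : (univ.filter fun m : Fin (2 * M + 1) => c i m = false) =
        univ.filter fun m : Fin (2 * M + 1) => ((m : ℕ) : ℝ) < z + M := by
      ext m
      simp only [mem_filter, mem_univ, true_and, hc, decide_eq_false_iff_not, not_le, hy]
      rw [← sub_pos, ← sub_pos (a := z + M)]
      have e2 : v i - (x i + (((m : ℕ) : ℝ) - M) * h / w) = (z + M - (m : ℕ)) * (h / w) := by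
        have e3 : v i - x i = z * h / w := by
          rw [← hzh]
          field_simp
        have e4 : v i - (x i + (((m : ℕ) : ℝ) - M) * h / w) = (v i - x i) - (((m : ℕ) : ℝ) - M) * h / w := by
          ring
        rw [e4, e3]
        ring
      rw [e2]
      have h5 : 0 < h / w := div_pos hh hw
      constructor
      · intro h6
        by_contra hcon
        push Not at hcon
        have := mul_nonpos_of_nonpos_of_nonneg hcon h5.le
        linarith
      · intro h6
        exact mul_pos h6 h5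
    have h3 := card_lt_real (n := 2 * M + 1) (a := z + M) (by linarith) (by push_cast; linarith)
    rw [hzh]
    simp only [hΦ]
    rw [e1]
    set N : ℝ := (((univ.filter fun m : Fin (2 * M + 1) => ((m : ℕ) : ℝ) < z + M).card : ℕ) : ℝ) with hN
    have e5 : h * (N - M) - z * h = h * (N - (z + M)) := by ring
    rw [e5, abs_mul, abs_of_pos hh]
    calc h * |N - (z + M)| ≤ h * 1 := mul_le_mul_of_nonneg_left h3 hh.le
      _ = h := mul_one h

end Pool.Agent.P8H60.EN
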