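import Pool.Agent.P8H60.EN.Run

/-! # Project EN: the parameters -/

set_option autoImplicit false

namespace Pool.Agent.P8H60.EN

open Filter Topology MeasureTheory
open Pool.Agent.Y743.CL (XK)
open Pool.Agent.R321.QA (hs)

/-- the facts about the parameters `n = A K ^ 2`, `z0 = ⌈exp (A K ^ 2)⌉` -/
lemma prm {A : ℕ} (hA : 2 ≤ A) {c θ : ℝ} (hc : 0 < c) (hc8 : 8 * c < 1) (hcθ : 4 * c < θ) :
    ∀ᶠ L : ℕ in atTop, ∀ (K : ℕ) (T : ℝ), 1 ≤ T → (L : ℝ) ^ (1 + θ) ≤ Real.log T → 1 ≤ K →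
      (K : ℝ) ≤ (L : ℝ) ^ (2 * c) →
      2 ≤ A * K ^ 2 ∧ 32 * ((A * K ^ 2 : ℕ) : ℝ) ≤ Real.log T ∧ 3 ≤ ⌈Real.exp (A * K ^ 2)⌉₊ ∧
      ⌈Real.exp (A * K ^ 2)⌉₊ ≤ XK (1 / (4 * (A * K ^ 2 : ℕ))) T ∧
      ((⌈Real.exp (A * K ^ 2)⌉₊ : ℕ) : ℝ) ^ 2 ≤ Real.sqrt T ∧
      hs (2 * L) T * Real.log ⌈Real.exp (A * K ^ 2)⌉₊ ≤ 1 ∧
      1 + Real.log (4 * ((A * K ^ 2 : ℕ) : ℝ)) ≤ (1 + Real.log (4 * A)) + 4 * c * Real.log ((2 * L : ℕ) : ℝ) := by
  have hpi3 := Real.pi_gt_three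
  have hpi4 := Real.pi_lt_d2
  have hA' : (2 : ℝ) ≤ A := by exact_mod_cast hA
  filter_upwards [ev_pow (12 * (A : ℝ) ^ 2) (show 8 * c < 1 from hc8),
    ev_pow (32 * (A : ℝ)) (show 4 * c < 1 by linarith), ev_pow (26 * (A : ℝ)) hcθ,
    eventually_ge_atTop 1] with L h1 h2 h3 h4 K T hT hLT hK hKL
  have hL0 : (1 : ℝ) ≤ L := by exact_mod_cast h4
  have hK1 : (1 : ℝ) ≤ K := by exact_mod_cast hK
  rw [Real.rpow_one] at h1 h2
  have hLθ : (L : ℝ) ^ (1 + θ) = L * (L : ℝ) ^ θ := by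
    rw [Real.rpow_add (by linarith), Real.rpow_one]
  have hθ0 : 0 < θ := by linarith
  have hLθ1 : 1 ≤ (L : ℝ) ^ θ := Real.one_le_rpow hL0 hθ0.le
  obtain ⟨P, hP⟩ : ∃ P : ℝ, P = A * (L : ℝ) ^ (4 * c) := ⟨_, rfl⟩
  have hP1 : 1 ≤ (L : ℝ) ^ (4 * c) := Real.one_le_rpow hL0 (by linarith)
  have hP2 : 2 ≤ P := by rw [hP]; nlinarith
  have hK2 : (K : ℝ) ^ 2 ≤ (L : ℝ) ^ (4 * c) := by
    have h1 : (K : ℝ) ^ 2 ≤ ((L : ℝ) ^ (2 * c)) ^ 2 := pow_le_pow_left₀ (by linarith) hKL 2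
    refine h1.trans (le_of_eq ?_)
    rw [← Real.rpow_natCast, ← Real.rpow_mul (by linarith)]
    congr 1
    push_cast
    ring
  have hK21 : 1 ≤ (K : ℝ) ^ 2 := one_le_pow₀ hK1
  have hn2 : (A : ℝ) * K ^ 2 ≤ P := by
    rw [hP]
    exact mul_le_mul_of_nonneg_left hK2 (by linarith)
  have hn1 : 2 ≤ (A : ℝ) * K ^ 2 := by nlinarith
  have hnc : ((A * K ^ 2 : ℕ) : ℝ) = A * K ^ 2 := by push_cast; ring
  have hLT' : (L : ℝ) ≤ Real.log T := by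
    rw [hLθ] at hLT
    nlinarith
  have e8 : ((L : ℝ) ^ (4 * c)) ^ 2 = (L : ℝ) ^ (8 * c) := by
    rw [← Real.rpow_natCast, ← Real.rpow_mul (by linarith)]
    congr 1
    push_cast
    ring
  have h1' : 12 * P ^ 2 ≤ L := by
    rw [hP, mul_pow, e8]
    linarith
  have h2' : 32 * P ≤ L := by rw [hP]; linarith
  have h3' : 26 * P ≤ (L : ℝ) ^ θ := by rw [hP]; linarith
  have hz1 : (⌈Real.exp (A * K ^ 2)⌉₊ : ℝ) ≤ Real.exp (P + 1) := by
    have h5 := (Nat.ceil_lt_add_one (Real.exp_pos ((A : ℝ) * K ^ 2)).le).le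
    refine h5.trans ?_
    have h6 : Real.exp ((A : ℝ) * K ^ 2) ≤ Real.exp P := Real.exp_le_exp.2 hn2
    rw [Real.exp_add]
    have h7 : 1 ≤ Real.exp P := Real.one_le_exp (by linarith)
    have h8 := Real.add_one_le_exp (1 : ℝ)
    nlinarith
  have hz0 : (0 : ℝ) < ⌈Real.exp (A * K ^ 2)⌉₊ := by
    exact_mod_cast Nat.ceil_pos.2 (Real.exp_pos _)
  have hlz : Real.log ⌈Real.exp (A * K ^ 2)⌉₊ ≤ P + 1 := by
    have h6 := Real.log_le_log hz0 hz1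
    rwa [Real.log_exp] at h6
  have hT0 : 0 < T := by linarith
  have hlT0 : 0 < Real.log T := by linarith
  refine ⟨?_, ?_, ?_, ?_, ?_, ?_, ?_⟩
  · have : (2 : ℝ) ≤ ((A * K ^ 2 : ℕ) : ℝ) := by rw [hnc]; exact hn1
    exact_mod_cast this
  · rw [hnc]; linarith
  · have h5 : (2 : ℝ) + 1 ≤ Real.exp ((A : ℝ) * K ^ 2) :=
      (Real.add_one_le_exp (2 : ℝ)).trans (Real.exp_le_exp.2 hn1)
    have h6 := h5.trans (Nat.le_ceil _)
    have h7 : (3 : ℝ) ≤ (⌈Real.exp (A * K ^ 2)⌉₊ : ℝ) := by linarith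
    exact_mod_cast h7
  · unfold XK
    apply Nat.le_floor
    refine hz1.trans ?_
    rw [Real.rpow_def_of_pos hT0, Real.exp_le_exp, hnc, mul_one_div, le_div_iff₀ (by linarith)]
    nlinarith
  · have h5 : ((⌈Real.exp (A * K ^ 2)⌉₊ : ℕ) : ℝ) ^ 2 ≤ Real.exp (P + 1) ^ 2 :=
      pow_le_pow_left₀ hz0.le hz1 2
    refine h5.trans ?_
    rw [← Real.exp_nat_mul, Real.sqrt_eq_rpow, Real.rpow_def_of_pos hT0, Real.exp_le_exp]
    push_cast
    linarith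
  · have h5 : hs (2 * L) T * Real.log ⌈Real.exp (A * K ^ 2)⌉₊ ≤ hs (2 * L) T * (P + 1) := by
      apply mul_le_mul_of_nonneg_left hlz
      unfold hs
      positivity
    refine h5.trans ?_
    unfold hs
    rw [div_mul_eq_mul_div, div_le_one hlT0]
    have h6 : L * (26 * P) ≤ L * (L : ℝ) ^ θ := mul_le_mul_of_nonneg_left h3' (by linarith)
    rw [hLθ] at hLT
    have h7 : 2 * Real.pi * (2 * L) * (P + 1) ≤ 13 * L * (2 * P) := by
      have h8 : 2 * Real.pi * (2 * L) ≤ 13 * L := by nlinarith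
      have h9 : P + 1 ≤ 2 * P := by linarith
      exact mul_le_mul h8 h9 (by linarith) (by linarith)
    nlinarith
  · rw [hnc]
    have h5 : Real.log (4 * ((A : ℝ) * K ^ 2)) ≤ Real.log ((4 * A) * (L : ℝ) ^ (4 * c)) := by
      apply Real.log_le_log (by linarith)
      rw [hP] at hn2
      linarith
    have h5' : Real.log ((4 * A) * (L : ℝ) ^ (4 * c)) = Real.log (4 * A) + 4 * c * Real.log L := by
      rw [Real.log_mul (by positivity) (by positivity), Real.log_rpow (by linarith)]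
    rw [h5'] at h5
    have h6 : Real.log L ≤ Real.log ((2 * L : ℕ) : ℝ) := by
      apply Real.log_le_log (by linarith)
      push_cast
      linarith
    have h7 : 4 * c * Real.log L ≤ 4 * c * Real.log ((2 * L : ℕ) : ℝ) :=
      mul_le_mul_of_nonneg_left h6 (by linarith)
    linarith

/-- the union bound -/
lemma ev_union {c₁ c η : ℝ} (hc₁ : 0 < c₁) (hc : 0 < c) (hη : 0 < η) (m : ℝ) (hm : 0 < m) :
    ∀ᶠ L : ℕ in atTop, ∀ K : ℕ, (L : ℝ) ^ c ≤ K →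
      Real.exp ((L : ℝ) ^ (c / 2)) * K * m * (2 * Real.exp (-(c₁ * K))) ≤ η := by
  have h1 : Tendsto (fun L : ℕ => (L : ℝ) ^ c) atTop atTop :=
    (tendsto_rpow_atTop hc).comp tendsto_natCast_atTop_atTop
  filter_upwards [ev_pow (4 / c₁) (show c / 2 < c by linarith),
    h1.eventually_ge_atTop (-(4 / c₁ * Real.log (η * c₁ / (4 * m))))] with L h2 h3 K hK
  have hK0 : (0 : ℝ) ≤ K := Nat.cast_nonneg K
  have h4 : (K : ℝ) * Real.exp (-(c₁ * K)) ≤ 2 / c₁ * Real.exp (-(c₁ / 2 * K)) := by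
    have h5 : c₁ / 2 * K ≤ Real.exp (c₁ / 2 * K) := by
      have := Real.add_one_le_exp (c₁ / 2 * K)
      linarith
    have h6 : (K : ℝ) ≤ 2 / c₁ * Real.exp (c₁ / 2 * K) := by
      rw [div_mul_eq_mul_div, le_div_iff₀ hc₁]
      linarith
    calc (K : ℝ) * Real.exp (-(c₁ * K)) ≤ (2 / c₁ * Real.exp (c₁ / 2 * K)) * Real.exp (-(c₁ * K)) :=
          mul_le_mul_of_nonneg_right h6 (Real.exp_pos _).le
      _ = 2 / c₁ * Real.exp (-(c₁ / 2 * K)) := by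
          rw [mul_assoc, ← Real.exp_add]
          congr 2
          ring
  have h7 : (L : ℝ) ^ (c / 2) ≤ c₁ / 4 * (L : ℝ) ^ c := by
    rw [div_mul_eq_mul_div, div_le_iff₀ hc₁] at h2
    linarith
  have h8 : Real.exp ((L : ℝ) ^ (c / 2)) * Real.exp (-(c₁ / 2 * K)) ≤ Real.exp (-(c₁ / 4 * (L : ℝ) ^ c)) := by
    rw [← Real.exp_add, Real.exp_le_exp]
    have : c₁ / 2 * (L : ℝ) ^ c ≤ c₁ / 2 * K := mul_le_mul_of_nonneg_left hK (by linarith)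
    linarith
  have h9 : Real.exp (-(c₁ / 4 * (L : ℝ) ^ c)) ≤ η * c₁ / (4 * m) := by
    rw [← Real.le_log_iff_exp_le (by positivity)]
    have h10 : c₁ / 4 * (-(4 / c₁ * Real.log (η * c₁ / (4 * m)))) ≤ c₁ / 4 * (L : ℝ) ^ c :=
      mul_le_mul_of_nonneg_left h3 (by linarith)
    have h11 : c₁ / 4 * (-(4 / c₁ * Real.log (η * c₁ / (4 * m)))) = -Real.log (η * c₁ / (4 * m)) := by
      field_simp
    linarith
  calc Real.exp ((L : ℝ) ^ (c / 2)) * K * m * (2 * Real.exp (-(c₁ * K)))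
      = 2 * m * Real.exp ((L : ℝ) ^ (c / 2)) * (K * Real.exp (-(c₁ * K))) := by ring
    _ ≤ 2 * m * Real.exp ((L : ℝ) ^ (c / 2)) * (2 / c₁ * Real.exp (-(c₁ / 2 * K))) :=
        mul_le_mul_of_nonneg_left h4 (by positivity)
    _ = 4 * m / c₁ * (Real.exp ((L : ℝ) ^ (c / 2)) * Real.exp (-(c₁ / 2 * K))) := by ring
    _ ≤ 4 * m / c₁ * (η * c₁ / (4 * m)) :=
        mul_le_mul_of_nonneg_left (h8.trans h9) (by positivity)
    _ = η := by field_simp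

end Pool.Agent.P8H60.EN
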