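import Pool.Agent.P8H60.EN.Stm3
import Pool.Agent.P8H60.BC.Rec

/-! # Project EN, package RCV: linear recurrences of order at most `L ^ c` -/

set_option autoImplicit false

namespace Pool.Agent.P8H60.EN

open Finset Filter Topology
open Pool.Agent.P8H60.BC (pG pat Fd)
open Pool.Agent.P8H60.BW (hwW)
open Pool.Agent.R846.UL (cn cn_mono)

lemma ev_rcv {c κ : ℝ} (hc : 0 < c) (hκ : 0 < κ) : ∀ᶠ L : ℕ in atTop, ∀ k d : ℕ,
    (d : ℝ) ≤ (L : ℝ) ^ (c / 2) → (L : ℝ) ^ c ≤ k → k ≤ L →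
    (4 * k * (((L ^ 2 + 1 : ℕ) : ℝ) + 1) + 2 : ℝ) ^ (2 * d + 1) ≤ Real.exp (κ * k) := by
  have hc2 : 0 < c / 2 := by positivity
  have hlo := (isLittleO_log_rpow_atTop hc2).comp_tendsto (tendsto_natCast_atTop_atTop (R := ℝ))
  have h1 := hlo.bound (show 0 < κ / 12 by positivity)
  filter_upwards [h1, eventually_ge_atTop 6] with L hL hL6 k d hd hk hkL
  have hLr : (6 : ℝ) ≤ L := by exact_mod_cast hL6
  have hL0 : (0 : ℝ) < L := by linarith
  have hkr : (k : ℝ) ≤ L := by exact_mod_cast hkL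
  have hk0 : (0 : ℝ) ≤ k := Nat.cast_nonneg k
  simp only [Function.comp_apply, Real.norm_eq_abs] at hL
  rw [abs_of_nonneg (Real.log_nonneg (by linarith)), abs_of_nonneg (Real.rpow_nonneg hL0.le _)] at hL
  set u := (L : ℝ) ^ (c / 2) with hu
  have hu1 : 1 ≤ u := Real.one_le_rpow (by linarith) hc2.le
  have huu : (L : ℝ) ^ c = u * u := by
    rw [hu, ← Real.rpow_add hL0]
    congr 1
    ring
  have hlog0 : 0 ≤ Real.log L := Real.log_nonneg (by linarith)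
  have hbase : (4 * k * (((L ^ 2 + 1 : ℕ) : ℝ) + 1) + 2 : ℝ) ≤ (L : ℝ) ^ 4 := by
    push_cast
    have g1 : (4 * (k : ℝ) * (((L : ℝ) ^ 2 + 1) + 1) + 2 : ℝ) ≤ 4 * L * ((L : ℝ) ^ 2 + 1 + 1) + 2 := by
      have : (k : ℝ) * ((L : ℝ) ^ 2 + 1 + 1) ≤ L * ((L : ℝ) ^ 2 + 1 + 1) :=
        mul_le_mul_of_nonneg_right hkr (by positivity)
      linarith
    have g2 : 4 * (L : ℝ) * ((L : ℝ) ^ 2 + 1 + 1) + 2 = 4 * L ^ 3 + 8 * L + 2 := by ring
    have g3 : (36 : ℝ) ≤ (L : ℝ) ^ 2 := by nlinarith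
    have g4 : (L : ℝ) ^ 4 = L * L ^ 3 := by ring
    have g5 : (0 : ℝ) < (L : ℝ) ^ 3 := by positivity
    have g6 : 6 * (L : ℝ) ^ 3 ≤ L * L ^ 3 := mul_le_mul_of_nonneg_right hLr g5.le
    have g7 : (L : ℝ) ^ 3 = L * L ^ 2 := by ring
    have g8 : L * 36 ≤ (L : ℝ) * L ^ 2 := mul_le_mul_of_nonneg_left g3 hL0.le
    linarith
  have hb0 : (0 : ℝ) ≤ 4 * k * (((L ^ 2 + 1 : ℕ) : ℝ) + 1) + 2 := by positivity
  calc (4 * k * (((L ^ 2 + 1 : ℕ) : ℝ) + 1) + 2 : ℝ) ^ (2 * d + 1)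
      ≤ ((L : ℝ) ^ 4) ^ (2 * d + 1) := pow_le_pow_left₀ hb0 hbase _
    _ = Real.exp ((2 * d + 1) * (4 * Real.log L)) := by
        have e1 : (L : ℝ) ^ 4 = Real.exp (4 * Real.log L) := by
          rw [show (4 : ℝ) * Real.log L = ((4 : ℕ) : ℝ) * Real.log L by norm_num, Real.exp_nat_mul,
            Real.exp_log hL0]
        rw [e1, ← Real.exp_nat_mul]
        push_cast
        rfl
    _ ≤ Real.exp (κ * k) := by
        apply Real.exp_le_exp.2
        have g1 : (2 * (d : ℝ) + 1) ≤ 3 * u := by linarith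
        have g2 : (2 * (d : ℝ) + 1) * (4 * Real.log L) ≤ 3 * u * (4 * Real.log L) :=
          mul_le_mul_of_nonneg_right g1 (by positivity)
        have g3 : 3 * u * (4 * Real.log L) ≤ 3 * u * (4 * (κ / 12 * u)) :=
          mul_le_mul_of_nonneg_left (by linarith) (by positivity)
        have g4 : 3 * u * (4 * (κ / 12 * u)) = κ * (L : ℝ) ^ c := by rw [huu]; ring
        have g5 : κ * (L : ℝ) ^ c ≤ κ * k := mul_le_mul_of_nonneg_left hk hκ.le
        linarith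

/-- package RCV -/
theorem t_RCV : S_RCVA := by
  classical
  intro hMAX hWAR hREC δ ε η θ hδ hε hη hθ
  obtain ⟨c, κ, hc, hκ, L₁, h⟩ := hMAX δ ε η θ hδ hε hη hθ
  obtain ⟨L₂, h2⟩ := eventually_atTop.1 (ev_rcv hc hκ)
  refine ⟨c / 2, by positivity, L₁ + L₂, fun L N hL hLN d hd => ?_⟩
  obtain ⟨P, hP1, hP2⟩ := hREC d
  refine le_trans (cn_mono fun n _ _ hn => ?_) (h L N (by omega) hLN
    {f | ∃ g ∈ Fd d, ∃ a : ℝ, f = fun j => g j + a} ?_ ?_ ?_)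
  · obtain ⟨L', q1, q2, f, hf, q3⟩ := hn
    exact ⟨L', q1, q2, f, ⟨f, hf, 0, by simp⟩, q3⟩
  · rintro f ⟨g, hg, a, rfl⟩ b
    exact ⟨g, hg, a + b, by funext j; ring⟩
  · rintro f ⟨g, ⟨b, hb, hg⟩, a, rfl⟩
    refine ⟨fun j => g (j + 1), ⟨b, hb, fun j => ?_⟩, a, rfl⟩
    have h1 := hg (j + 1)
    refine Eq.trans (sum_congr rfl fun l _ => ?_) h1
    have : j + (l : ℕ) + 1 = j + 1 + l := by omega
    show b l * g (j + l + 1) = b l * g (j + 1 + l)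
    rw [this]
  · intro s k y hs1 hsL hk hkL
    have hdeg : ∀ i : Fin k, (P (i * s)).totalDegree ≤ L ^ 2 + 1 := by
      intro i
      refine (hP1 _).trans ?_
      have g1 : (i : ℕ) * s ≤ L * L := Nat.mul_le_mul (by have := i.2; omega) hsL
      have g2 : L ^ 2 = L * L := by ring
      omega
    have g := hWAR k (2 * d) (L ^ 2 + 1) (fun i => P (i * s)) y hdeg
    refine le_trans ?_ (g.trans (h2 L (by omega) k d hd hk hkL))
    have hsub : pat {f | ∃ g ∈ Fd d, ∃ a : ℝ, f = fun j => g j + a} s k y ⊆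
        {A : Set (Fin k) | ∃ (x : Fin (2 * d) → ℝ) (b : ℝ),
          A = {i : Fin k | MvPolynomial.eval x (P (i * s)) + b ≤ y i}} := by
      rintro A ⟨f, ⟨g, hg, a, rfl⟩, rfl⟩
      obtain ⟨x, hx⟩ := hP2 g hg
      refine ⟨x, a, ?_⟩
      ext i
      show g (i * s) + a ≤ y i ↔ MvPolynomial.eval x (P (i * s)) + a ≤ y i
      rw [hx]
    exact_mod_cast Set.ncard_le_ncard hsub (Set.toFinite _)

end Pool.Agent.P8H60.EN
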