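import Pool.Agent.P8H60.EN.Num

/-! # Project EN: the theorem for the run following a height -/

set_option autoImplicit false

namespace Pool.Agent.P8H60.EN

open Filter Topology MeasureTheory
open Pool.Agent.R846.VS (Dd)
open Pool.Agent.P8H60.LM (GC VC nearQ near_all2)
open Pool.Agent.P8H60.BC (pG)
open Pool.Agent.P8H60.BW (W W_lin)
open Pool.Agent.Y743.CL (XK)
open Pool.Agent.R321.QA (hs)
open SG (NZ ord)

/-- the polynomial at one place -/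
noncomputable def YY {K : ℕ} (L A : ℕ) (lam T : ℝ) (x : Fin K → ℝ) (t : ℝ) (i : Fin K) : ℝ :=
  (GC (zE (wL L) (Real.log T / lam) (hs (x i) T) ⌈Real.exp (A * K ^ 2)⌉₊)
    (XK (1 / (4 * (A * K ^ 2 : ℕ))) T) t).re

lemma YY_cont {K : ℕ} (L A : ℕ) (lam T : ℝ) (x : Fin K → ℝ) : Continuous (YY L A lam T x) := by
  refine continuous_pi fun i => ?_
  unfold YY
  exact Complex.continuous_re.comp (Pool.Agent.P8H60.LM.GC_meas _ _)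

/-- **few heights for a given vector** -/
theorem one_vec (hQF : S_QF) {lam θ σ c₁ B Ξ c A₀ : ℝ} {A : ℕ} (δ' q : ℝ)
    (hdec : ∀ (K : ℕ) (T err : ℝ) (Y : ℝ → Fin K → ℝ) (S : Matrix (Fin K) (Fin K) ℝ),
      0 < T → 0 ≤ err → Continuous Y → (S - σ ^ 2 • (1 : Matrix (Fin K) (Fin K) ℝ)).PosSemidef →
      (∀ u : Fin K → ℝ, (∀ i, |u i| ≤ Ξ) → ‖((1 / T : ℝ) : ℂ) * (∫ t in T..(2 * T),
          Complex.exp (Complex.I * ((∑ i, u i * Y t i : ℝ) : ℂ))) -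
          Complex.exp ((-(∑ i, ∑ k, u i * S i k * u k) / 2 : ℝ) : ℂ)‖ ≤ err) →
      ∀ v : Fin K → ℝ, volume {t ∈ Set.Icc T (2 * T) | q * K ≤
        (({i | |Y t i - v i| ≤ δ'} : Set (Fin K)).ncard : ℝ)} ≤
        ENNReal.ofReal ((Real.exp (-(c₁ * K)) + Real.exp (B * K) * err) * T))
    (hlow : ∃ L₀ : ℕ, ∀ (L K n z0 : ℕ) (T : ℝ) (x : Fin K → ℝ), L₀ ≤ L →
      1 ≤ T → (L : ℝ) ^ (1 + θ) ≤ Real.log T → (K : ℝ) ≤ (L : ℝ) ^ (2 * c) → (A : ℝ) ≤ n →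
      (n : ℝ) ≤ A * (L : ℝ) ^ (4 * c) → Real.log z0 ≤ 2 * A * (L : ℝ) ^ (4 * c) →
      (∀ i, (L : ℝ) ≤ 4 * x i ∧ x i ≤ 2 * L) → (∀ i k, i ≠ k → (L : ℝ) ^ (1 - 3 * c) ≤ |x i - x k|) →
      ∀ u : Fin K → ℝ, σ ^ 2 * ∑ i, u i ^ 2 ≤
        VC (zU (wL L) (Real.log T / lam) (fun i => hs (x i) T) u z0) (XK (1 / (4 * n)) T) / 2)
    (hcf : ∃ L₀ : ℕ,
      ∀ (L K : ℕ) (T : ℝ) (x : Fin K → ℝ), L₀ ≤ L → 1 ≤ T → (L : ℝ) ^ (1 + θ) ≤ Real.log T → 1 ≤ K →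
      (K : ℝ) ≤ (L : ℝ) ^ (2 * c) → (∀ i, (L : ℝ) ≤ 4 * x i ∧ x i ≤ 2 * L) →
      ∀ u : Fin K → ℝ, (∀ i, |u i| ≤ Ξ) →
      ‖((1 / T : ℝ) : ℂ) * (∫ t in T..(2 * T), Complex.exp (Complex.I * (((GC (zU (wL L) (Real.log T / lam)
          (fun i => hs (x i) T) u ⌈Real.exp (A * K ^ 2)⌉₊) (XK (1 / (4 * (A * K ^ 2 : ℕ))) T) t).re : ℝ) : ℂ))) -
        Complex.exp ((-(VC (zU (wL L) (Real.log T / lam) (fun i => hs (x i) T) u ⌈Real.exp (A * K ^ 2)⌉₊)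
          (XK (1 / (4 * (A * K ^ 2 : ℕ))) T)) / 4 : ℝ) : ℂ)‖ ≤ Real.exp (-((B + c₁) * K)))
    (hc : 0 < c) (hA2 : 2 ≤ A) :
    ∃ L₀ : ℕ, ∀ (L K : ℕ) (T : ℝ) (x : Fin K → ℝ), L₀ ≤ L → 1 ≤ T → (L : ℝ) ^ (1 + θ) ≤ Real.log T →
      1 ≤ K → (K : ℝ) ≤ (L : ℝ) ^ (2 * c) → (∀ i, (L : ℝ) ≤ 4 * x i ∧ x i ≤ 2 * L) →
      (∀ i k, i ≠ k → (L : ℝ) ^ (1 - 3 * c) ≤ |x i - x k|) → ∀ v : Fin K → ℝ,
      volume {t ∈ Set.Icc T (2 * T) | q * K ≤ (({i | |YY L A lam T x t i - v i| ≤ δ'} : Set (Fin K)).ncard : ℝ)} ≤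
        ENNReal.ofReal (2 * Real.exp (-(c₁ * K)) * T) := by
  obtain ⟨L₁, hlow⟩ := hlow
  obtain ⟨L₂, hcf⟩ := hcf
  refine ⟨L₁ + L₂ + 1, fun L K T x hL hT hLT hK hKL hx1 hx2 v => ?_⟩
  have hK1 : (1 : ℝ) ≤ K := by exact_mod_cast hK
  have hA2' : (2 : ℝ) ≤ A := by exact_mod_cast hA2
  have hL0 : (1 : ℝ) ≤ L := by exact_mod_cast (by omega : 1 ≤ L)
  have hK2 : (K : ℝ) ^ 2 ≤ (L : ℝ) ^ (4 * c) := by
    have h1 : (K : ℝ) ^ 2 ≤ ((L : ℝ) ^ (2 * c)) ^ 2 := pow_le_pow_left₀ (by linarith) hKL 2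
    refine h1.trans (le_of_eq ?_)
    rw [← Real.rpow_natCast, ← Real.rpow_mul (by linarith)]
    congr 1
    push_cast
    ring
  have hK21 : 1 ≤ (K : ℝ) ^ 2 := one_le_pow₀ hK1
  have hn1 : (A : ℝ) ≤ ((A * K ^ 2 : ℕ) : ℝ) := by
    push_cast
    nlinarith
  have hn2 : ((A * K ^ 2 : ℕ) : ℝ) ≤ A * (L : ℝ) ^ (4 * c) := by
    push_cast
    exact mul_le_mul_of_nonneg_left hK2 (by linarith)
  have hz : Real.log ⌈Real.exp (A * K ^ 2)⌉₊ ≤ 2 * A * (L : ℝ) ^ (4 * c) := by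
    have h1 : (⌈Real.exp (A * K ^ 2)⌉₊ : ℝ) ≤ Real.exp (A * K ^ 2 + 1) := by
      have h2 := (Nat.ceil_lt_add_one (Real.exp_pos ((A : ℝ) * K ^ 2)).le).le
      refine h2.trans ?_
      rw [Real.exp_add]
      have h3 : 1 ≤ Real.exp ((A : ℝ) * K ^ 2) := Real.one_le_exp (by positivity)
      have h4 := Real.add_one_le_exp (1 : ℝ)
      nlinarith
    have h5 : (0 : ℝ) < ⌈Real.exp (A * K ^ 2)⌉₊ := by
      exact_mod_cast Nat.ceil_pos.2 (Real.exp_pos _)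
    have h6 := Real.log_le_log h5 h1
    rw [Real.log_exp] at h6
    refine h6.trans ?_
    have h7 : (A : ℝ) * K ^ 2 ≤ A * (L : ℝ) ^ (4 * c) := mul_le_mul_of_nonneg_left hK2 (by linarith)
    have h8 : 1 ≤ (A : ℝ) * (L : ℝ) ^ (4 * c) := by
      have : 1 ≤ (A : ℝ) * K ^ 2 := by nlinarith
      linarith
    linarith
  have hT0 : 0 < T := by linarith
  have g1 := hlow L K (A * K ^ 2) ⌈Real.exp (A * K ^ 2)⌉₊ T x (by omega) hT hLT hKL hn1 hn2 hz hx1 hx2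
  obtain ⟨q1, q2, q3⟩ := hQF K (wL L) (Real.log T / lam) (fun i => hs (x i) T) ⌈Real.exp (A * K ^ 2)⌉₊
    (XK (1 / (4 * (A * K ^ 2 : ℕ))) T)
  have g2 := hcf L K T x (by omega) hT hLT hK hKL hx1
  have g3 := hdec K T (Real.exp (-((B + c₁) * K))) (YY L A lam T x) _ hT0 (Real.exp_pos _).le
    (YY_cont _ _ _ _ _) (q3 σ g1) (fun u hu => by
      refine le_trans (le_of_eq ?_) (g2 u hu)
      congr 1
      congr 1
      · congr 1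
        refine intervalIntegral.integral_congr fun t _ => ?_
        simp only [YY]
        rw [q2 u t]
      · congr 2
        rw [q1 u]
        ring) v
  refine g3.trans (ENNReal.ofReal_le_ofReal (le_of_eq ?_))
  rw [← Real.exp_add]
  congr 1
  have e1 : B * K + -((B + c₁) * K) = -(c₁ * K) := by ring
  rw [e1]
  ring

end Pool.Agent.P8H60.EN
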