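import Pool.Agent.P8H60.EN.Prm

/-! # Project EN: the theorem for the run following a height, conclusion -/

set_option autoImplicit false

namespace Pool.Agent.P8H60.EN

open Filter Topology MeasureTheory
open Pool.Agent.R846.VS (Dd)
open Pool.Agent.P8H60.LM (GC VC nearQ near_all2)
open Pool.Agent.P8H60.BC (pG)
open Pool.Agent.P8H60.BW (W W_lin)
open Pool.Agent.Y743.CL (XK)
open Pool.Agent.R321.QA (hs)
open SG (NZ ord)

/-- **the deterministic step**: at a good height the vector of the polynomials is near one of the vectors of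
a finite list at many places -/
lemma det_step {K : ℕ} {δ δ' κ q w r ℓ T t Q e e₁ h b : ℝ} {x : Fin K → ℕ} {L : ℕ} {v : Fin K → ℝ}
    {Y : Fin K → ℝ} {M : ℕ} (hw : w = Real.sqrt 2 * (Real.pi / r)) (hr1 : 1 ≤ r)
    (hr : r = Real.sqrt (Real.log ((2 * L : ℕ) : ℝ))) (hL : 1 ≤ L)
    (hℓ : ℓ = Real.log T / (2 * Real.pi)) (hℓ0 : 0 < ℓ) (hT11 : 11 ≤ T) (ht : t ∈ Set.Icc T (2 * T))
    (hδ : 0 < δ) (he : 0 < e) (hh : 0 < h) (hQ : 0 < Q) (he₁1 : e₁ ≤ 1)
    (hsum : δ + 10 * e + w + e₁ + h ≤ δ')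
    (hM : (5 * Q + 2 * δ' + 2) / h + 1 ≤ M)
    (hord : (2 * L : ℝ) + 1 + (2 * e + Q) * r ≤ ℓ) (hx : ∀ i, x i ≤ 2 * L) (hq : 0 < q * K)
    (hcnt : (q + 2 * κ) * K ≤ (({i | |W (ord (NZ t + 1 + x i)) - (v i + b)| ≤
      δ * Real.sqrt (2 * Real.log L) / (2 * Real.pi)} : Set (Fin K)).ncard : ℝ))
    (hb1 : (({i | ¬ nearQ {x i} T (e * r) (Q * r) t} : Set (Fin K)).ncard : ℝ) ≤ κ * K)
    (hb2 : (({i | e₁ < |w * Dd T t (x i) + Y i|} : Set (Fin K)).ncard : ℝ) ≤ κ * K) :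
    ∃ (i₀ : Fin K) (m : ℤ), m ∈ Finset.Icc (-(M : ℤ)) M ∧ q * K ≤
      (({i | |Y i - (w * (v i - x i) - w * (v i₀ - x i₀) + m * h)| ≤ δ'} : Set (Fin K)).ncard : ℝ) := by
  classical
  have hpi := Real.pi_pos
  have hpi3 := Real.pi_gt_three
  have hpi4 := Real.pi_lt_d2
  have h2s : 0 < Real.sqrt 2 := Real.sqrt_pos.2 (by norm_num)
  have h2s2 : Real.sqrt 2 ≤ 3 / 2 := by
    rw [Real.sqrt_le_left (by norm_num)]
    norm_num
  have hw0 : 0 < w := by rw [hw]; positivity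
  have hL1r : (1 : ℝ) ≤ L := by exact_mod_cast hL
  have hwr : w * r = Real.sqrt 2 * Real.pi := by
    rw [hw]
    field_simp
  have hwr5 : w * r ≤ 5 := by
    rw [hwr]
    have h1 : Real.sqrt 2 * Real.pi ≤ 3 / 2 * 3.15 := mul_le_mul h2s2 hpi4.le hpi.le (by norm_num)
    exact h1.trans (by norm_num)
  -- the good places
  set H : Set (Fin K) := {i | |W (ord (NZ t + 1 + x i)) - (v i + b)| ≤
      δ * Real.sqrt (2 * Real.log L) / (2 * Real.pi)} with hH
  set B1 : Set (Fin K) := {i | ¬ nearQ {x i} T (e * r) (Q * r) t} with hB1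
  set B2 : Set (Fin K) := {i | e₁ < |w * Dd T t (x i) + Y i|} with hB2
  set Gd : Set (Fin K) := (H \ B1) \ B2 with hGd
  have hGc : q * K ≤ (Gd.ncard : ℝ) := by
    have h1 : H.ncard ≤ (H \ B1).ncard + B1.ncard := Set.ncard_le_ncard_sdiff_add_ncard H B1 (Set.toFinite _)
    have h2 : (H \ B1).ncard ≤ Gd.ncard + B2.ncard :=
      Set.ncard_le_ncard_sdiff_add_ncard (H \ B1) B2 (Set.toFinite _)
    have h3 : (H.ncard : ℝ) ≤ Gd.ncard + B2.ncard + B1.ncard := by exact_mod_cast (by omega : H.ncard ≤ Gd.ncard + B2.ncard + B1.ncard)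
    linarith
  -- the vector
  set nv : Fin K → ℝ := fun i => w * (v i + b - W t - x i - 1) with hnv
  have key : ∀ i ∈ Gd, |Y i - nv i| ≤ δ + 10 * e + w + e₁ ∧ |nv i| ≤ 5 * Q + 2 * δ' + 2 := by
    rintro i ⟨⟨hi, hn1⟩, hn2⟩
    have hn1' : nearQ {x i} T (e * r) (Q * r) t := not_not.1 hn1
    have hn2' : |w * Dd T t (x i) + Y i| ≤ e₁ := not_lt.1 hn2
    obtain ⟨h1, h3⟩ := hn1' (x i) (Finset.mem_singleton_self _)
    rw [← hℓ] at h1
    have hord' : |ord (NZ t + 1 + x i) - t| ≤ 1 := by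
      have h4 : (x i : ℝ) ≤ 2 * L := by exact_mod_cast hx i
      have h5 : (0 : ℝ) ≤ x i := Nat.cast_nonneg _
      have h6 : |ord (NZ t + 1 + x i) - t| * ℓ ≤ ℓ := by
        rw [← abs_of_pos hℓ0, ← abs_mul, abs_of_pos hℓ0]
        have h7 : (2 * e + Q) * r = 2 * (e * r) + Q * r := by ring
        rw [h7] at hord
        rw [abs_le] at h1 h3 ⊢
        constructor
        · linarith only [h1.1, h3.2, hord, h5, h4, h1.2, h3.1]
        · linarith only [h1.1, h3.2, hord, h5, h4, h1.2, h3.1]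
      by_contra hcon
      push Not at hcon
      have : 1 * ℓ < |ord (NZ t + 1 + x i) - t| * ℓ := mul_lt_mul_of_pos_right hcon hℓ0
      linarith
    have h8 := W_lin hT11 ht hord' hℓ
    have hi' : |W (ord (NZ t + 1 + x i)) - (v i + b)| ≤
      δ * Real.sqrt (2 * Real.log L) / (2 * Real.pi) := hi
    have g3 : |w * (W (ord (NZ t + 1 + x i)) - (v i + b))| ≤ δ := by
      rw [abs_mul, abs_of_pos hw0]
      refine (mul_le_mul_of_nonneg_left hi' hw0.le).trans ?_
      have h5 : Real.sqrt (2 * Real.log L) = Real.sqrt 2 * Real.sqrt (Real.log L) :=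
        Real.sqrt_mul (by norm_num) _
      have h6 : Real.sqrt (Real.log L) ≤ r := by
        rw [hr]
        apply Real.sqrt_le_sqrt
        apply Real.log_le_log (by linarith)
        push_cast
        linarith
      have h7 : Real.sqrt 2 * Real.sqrt 2 = 2 := Real.mul_self_sqrt (by norm_num)
      rw [h5]
      have h8 : w * (δ * (Real.sqrt 2 * Real.sqrt (Real.log L)) / (2 * Real.pi)) =
          (Real.sqrt 2 * Real.sqrt 2) / 2 * (δ * (Real.sqrt (Real.log L) / r)) := by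
        rw [hw]
        field_simp
      rw [h8, h7]
      have h9 : Real.sqrt (Real.log L) / r ≤ 1 := by
        rw [div_le_one (by linarith)]
        exact h6
      have h10 : δ * (Real.sqrt (Real.log L) / r) ≤ δ * 1 :=
        mul_le_mul_of_nonneg_left h9 hδ.le
      linarith
    have g4 : |w * ((ord (NZ t + 1 + x i) - t) * ℓ - (x i + 1) + Dd T t (x i))| ≤ 10 * e := by
      rw [abs_mul, abs_of_pos hw0]
      refine (mul_le_mul_of_nonneg_left h1 hw0.le).trans ?_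
      have h9 : w * (2 * (e * r)) = 2 * e * (w * r) := by ring
      rw [h9]
      have h10 : 2 * e * (w * r) ≤ 2 * e * 5 := mul_le_mul_of_nonneg_left hwr5 (by positivity)
      exact h10.trans (le_of_eq (by ring))
    have g5 : |w * (W (ord (NZ t + 1 + x i)) - W t - ℓ * (ord (NZ t + 1 + x i) - t))| ≤ w := by
      rw [abs_mul, abs_of_pos hw0]
      calc _ ≤ w * 1 := mul_le_mul_of_nonneg_left h8 hw0.le
        _ = w := mul_one w
    have e1 : Y i - nv i = (w * Dd T t (x i) + Y i) -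
        w * ((ord (NZ t + 1 + x i) - t) * ℓ - (x i + 1) + Dd T t (x i)) -
        w * (W (ord (NZ t + 1 + x i)) - W t - ℓ * (ord (NZ t + 1 + x i) - t)) +
        w * (W (ord (NZ t + 1 + x i)) - (v i + b)) := by
      simp only [hnv]
      ring
    have g6 : |Y i - nv i| ≤ δ + 10 * e + w + e₁ := by
      rw [e1]
      rw [abs_le] at g3 g4 g5 hn2' ⊢
      constructor <;> linarith
    refine ⟨g6, ?_⟩
    have g7 : |w * Dd T t (x i)| ≤ 5 * Q := by
      rw [abs_mul, abs_of_pos hw0]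
      refine (mul_le_mul_of_nonneg_left h3 hw0.le).trans ?_
      have h9 : w * (Q * r) = Q * (w * r) := by ring
      rw [h9]
      have h10 : Q * (w * r) ≤ Q * 5 := mul_le_mul_of_nonneg_left hwr5 hQ.le
      exact h10.trans (le_of_eq (by ring))
    rw [abs_le] at g6 g7 hn2' ⊢
    constructor <;> linarith
  -- a good place
  have hne : Gd.Nonempty := by
    by_contra hcon
    rw [Set.not_nonempty_iff_eq_empty] at hcon
    rw [hcon, Set.ncard_empty] at hGc
    simp only [Nat.cast_zero] at hGc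
    linarith
  obtain ⟨i₀, hi₀⟩ := hne
  obtain ⟨-, hR⟩ := key i₀ hi₀
  refine ⟨i₀, ⌊nv i₀ / h⌋, ?_, hGc.trans ?_⟩
  · rw [Finset.mem_Icc]
    have h1 : |nv i₀ / h| ≤ (5 * Q + 2 * δ' + 2) / h := by
      rw [abs_div, abs_of_pos hh]
      exact div_le_div_of_nonneg_right hR hh.le
    rw [abs_le] at h1
    have h2 := Int.floor_le (nv i₀ / h)
    have h3 := Int.lt_floor_add_one (nv i₀ / h)
    constructor
    · have h4 : ((-(M : ℤ) : ℤ) : ℝ) ≤ ((⌊nv i₀ / h⌋ : ℤ) : ℝ) := by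
        push_cast
        linarith [h1.1]
      exact_mod_cast h4
    · have h4 : ((⌊nv i₀ / h⌋ : ℤ) : ℝ) ≤ (((M : ℤ) : ℤ) : ℝ) := by
        push_cast
        linarith [h1.2]
      exact_mod_cast h4
  · have hsub : Gd ⊆ ({i | |Y i - (w * (v i - x i) - w * (v i₀ - x i₀) + (⌊nv i₀ / h⌋ : ℤ) * h)| ≤ δ'} :
        Set (Fin K)) := by
      intro i hi
      obtain ⟨h1, -⟩ := key i hi
      show |Y i - (w * (v i - x i) - w * (v i₀ - x i₀) + (⌊nv i₀ / h⌋ : ℤ) * h)| ≤ δ'
      have h2 := Int.floor_le (nv i₀ / h)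
      have h3 := Int.lt_floor_add_one (nv i₀ / h)
      rw [le_div_iff₀ hh] at h2
      rw [div_lt_iff₀ hh] at h3
      have e1 : Y i - (w * (v i - x i) - w * (v i₀ - x i₀) + (⌊nv i₀ / h⌋ : ℤ) * h) =
          (Y i - nv i) + (nv i₀ - (⌊nv i₀ / h⌋ : ℤ) * h) := by
        simp only [hnv]
        ring
      rw [e1]
      have h4 : (((⌊nv i₀ / h⌋ : ℤ) : ℝ) + 1) * h = ((⌊nv i₀ / h⌋ : ℤ) : ℝ) * h + h := by ring
      rw [h4] at h3
      rw [abs_le] at h1 ⊢
      constructor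
      · linarith only [h1.1, h2, h3, hsum]
      · linarith only [h1.2, h2, h3, hsum]
    exact_mod_cast Set.ncard_le_ncard hsub (Set.toFinite _)

end Pool.Agent.P8H60.EN
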