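import Pool.Agent.P8H60.EN.RunB

/-! # Project EN: the theorem for the run following a height, measure -/

set_option autoImplicit false

namespace Pool.Agent.P8H60.EN

open Filter Topology MeasureTheory
open Pool.Agent.R846.VS (Dd)
open Pool.Agent.P8H60.LM (GC VC nearQ near_all2)
open Pool.Agent.P8H60.BC (pG)
open Pool.Agent.P8H60.BW (W W_lin)
open Pool.Agent.Y743.CL (XK)
open Pool.Agent.R321.QA (hs)
open SG (NZ ord)

lemma tend_log2 : Tendsto (fun L : ℕ => Real.log ((2 * L : ℕ) : ℝ)) atTop atTop := by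
  refine Real.tendsto_log_atTop.comp (tendsto_natCast_atTop_atTop.comp ?_)
  exact tendsto_id.const_mul_atTop' (by norm_num)

lemma n_r {x r : ℝ} (hx : 1 ≤ x) (hr : r = Real.sqrt x) : 1 ≤ r ∧ r ^ 2 = x ∧ r ≤ x := by
  have h1 : 1 ≤ r := by rw [hr]; exact Real.one_le_sqrt.2 hx
  have h2 : r ^ 2 = x := by rw [hr]; exact Real.sq_sqrt (by linarith)
  exact ⟨h1, h2, by nlinarith⟩

lemma n_w {w r D x : ℝ} (hD : 0 < D) (hw : w = Real.sqrt 2 * (Real.pi / r)) (hr : r = Real.sqrt x)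
    (hr1 : 1 ≤ r) (h : (40 / D) ^ 2 ≤ x) : 0 < w ∧ w ≤ D / 8 := by
  have hpi := Real.pi_pos
  have hpi4 := Real.pi_lt_d2
  have hw0 : 0 < w := by rw [hw]; positivity
  refine ⟨hw0, ?_⟩
  have h7 : 40 / D ≤ r := by
    rw [hr]
    exact Real.le_sqrt_of_sq_le h
  rw [div_le_iff₀ hD] at h7
  have h8 : w * r = Real.sqrt 2 * Real.pi := by rw [hw]; field_simp
  have h2s2 : Real.sqrt 2 ≤ 3 / 2 := by
    rw [Real.sqrt_le_left (by norm_num)]
    norm_num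
  have h9 : Real.sqrt 2 * Real.pi ≤ 5 := by
    have h1 : Real.sqrt 2 * Real.pi ≤ 3 / 2 * 3.15 := mul_le_mul h2s2 hpi4.le hpi.le (by norm_num)
    exact h1.trans (by norm_num)
  have h10 : w * 40 ≤ w * (r * D) := mul_le_mul_of_nonneg_left h7 hw0.le
  have h11 : w * (r * D) = w * r * D := by ring
  rw [h11, h8] at h10
  have h12 : Real.sqrt 2 * Real.pi * D ≤ 5 * D := mul_le_mul_of_nonneg_right h9 hD.le
  linarith

lemma n_ord {L e Q r y Z T ℓ : ℝ} (hL : 1 ≤ L) (he : 0 < e) (hQ : 0 < Q) (hy : 0 ≤ y) (hr : r ≤ y)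
    (h4 : 7 * (2 * e + Q) * y + 21 ≤ Z) (hZ : L * Z ≤ Real.log T)
    (hℓ : ℓ = Real.log T / (2 * Real.pi)) : (2 * L : ℝ) + 1 + (2 * e + Q) * r ≤ ℓ := by
  have hpi := Real.pi_pos
  have hpi4 := Real.pi_lt_d2
  rw [hℓ, le_div_iff₀ (by positivity)]
  have h7 : L * (7 * (2 * e + Q) * y + 21) ≤ L * Z := mul_le_mul_of_nonneg_left h4 (by linarith)
  have h8 : (2 * e + Q) * r ≤ (2 * e + Q) * y := mul_le_mul_of_nonneg_left hr (by positivity)
  have h9 : 0 ≤ (2 * e + Q) * y := by positivity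
  have h10 : (2 * L : ℝ) + 1 + (2 * e + Q) * r ≤ L * ((2 * e + Q) * y + 3) := by
    have h12 : (2 * e + Q) * y ≤ L * ((2 * e + Q) * y) := le_mul_of_one_le_left h9 hL
    linarith
  have h11 : ((2 * L : ℝ) + 1 + (2 * e + Q) * r) * (2 * Real.pi) ≤
      (L * ((2 * e + Q) * y + 3)) * 7 := by
    apply mul_le_mul h10 (by linarith) (by positivity) (by positivity)
  linarith

lemma n_err {η e₁ κ C' c D₀ X y D : ℝ} (hη : 0 < η) (he : 0 < e₁) (hκ : 0 < κ) (hC : 0 < C')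
    (hc : c ≤ η * e₁ ^ 2 * κ / (32 * C')) (hy : 0 ≤ y)
    (h5 : D₀ * C' / (e₁ ^ 2 * κ) * (8 / η) + (40 / D) ^ 2 + 1 ≤ y) (hX : X ≤ D₀ + 4 * c * y) :
    C' * X ≤ η * κ / 4 * (e₁ ^ 2 * y) := by
  have g1 : 4 * c * C' ≤ η * e₁ ^ 2 * κ / 8 := by
    rw [le_div_iff₀ (by positivity)] at hc
    linarith
  have g2 : D₀ * C' / (e₁ ^ 2 * κ) * (8 / η) ≤ y := by
    have := sq_nonneg (40 / D)
    linarith
  have g3 : D₀ * C' ≤ η * e₁ ^ 2 * κ / 8 * y := by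
    have e3 : D₀ * C' / (e₁ ^ 2 * κ) * (8 / η) = (D₀ * C' * 8) / (η * e₁ ^ 2 * κ) := by
      field_simp
    rw [e3, div_le_iff₀ (by positivity)] at g2
    linarith
  have g4 : C' * X ≤ C' * (D₀ + 4 * c * y) := mul_le_mul_of_nonneg_left hX hC.le
  have g5 : 4 * c * C' * y ≤ η * e₁ ^ 2 * κ / 8 * y := mul_le_mul_of_nonneg_right g1 hy
  have e4 : C' * (D₀ + 4 * c * y) = D₀ * C' + 4 * c * C' * y := by ring
  have e5 : η * κ / 4 * (e₁ ^ 2 * y) = η * e₁ ^ 2 * κ / 8 * y + η * e₁ ^ 2 * κ / 8 * y := by ring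
  linarith

lemma n_fin {W E K M c₁ T η : ℝ} (hT : 0 < T) (hK : 0 ≤ K) (hM : 0 ≤ M) (hW : W ≤ E)
    (h : E * K * (2 * M + 1) * (2 * Real.exp (-(c₁ * K))) ≤ η / 4) :
    W * K * (2 * M + 1) * (2 * Real.exp (-(c₁ * K)) * T) ≤ η / 4 * T := by
  have h0 : 0 ≤ K * (2 * M + 1) * (2 * Real.exp (-(c₁ * K))) := by positivity
  have h1 := mul_le_mul_of_nonneg_right hW h0
  have h2 : W * K * (2 * M + 1) * (2 * Real.exp (-(c₁ * K))) ≤ η / 4 := by linarith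
  calc _ = (W * K * (2 * M + 1) * (2 * Real.exp (-(c₁ * K)))) * T := by ring
    _ ≤ η / 4 * T := mul_le_mul_of_nonneg_right h2 hT.le

/-- union bound for a finite list of vectors -/
lemma union_bd {K M : ℕ} (𝒲 : Finset (Fin K → ℝ)) (E : (Fin K → ℝ) → Fin K → ℤ → Set ℝ) {u : ℝ}
    (hE : ∀ v i m, volume (E v i m) ≤ ENNReal.ofReal u) (hu : 0 ≤ u) (S : Set ℝ)
    (hS : S ⊆ ⋃ v ∈ 𝒲, ⋃ i : Fin K, ⋃ m ∈ Finset.Icc (-(M : ℤ)) M, E v i m) :
    volume S ≤ ENNReal.ofReal ((𝒲.card : ℝ) * K * (2 * M + 1) * u) := by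
  refine (measure_mono hS).trans ?_
  have h1 : ∀ v i, volume (⋃ m ∈ Finset.Icc (-(M : ℤ)) M, E v i m) ≤ ((2 * M + 1 : ℕ) : ENNReal) * ENNReal.ofReal u := by
    intro v i
    refine (measure_biUnion_finset_le _ _).trans ?_
    refine (Finset.sum_le_sum fun m _ => hE v i m).trans ?_
    rw [Finset.sum_const, Int.card_Icc, nsmul_eq_mul]
    apply mul_le_mul_left
    have : (((M : ℤ) + 1 - -(M : ℤ)).toNat : ℕ) = 2 * M + 1 := by omega
    rw [this]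
  have h2 : ∀ v, volume (⋃ i : Fin K, ⋃ m ∈ Finset.Icc (-(M : ℤ)) M, E v i m) ≤
      (K : ENNReal) * (((2 * M + 1 : ℕ) : ENNReal) * ENNReal.ofReal u) := by
    intro v
    refine (measure_iUnion_fintype_le _ _).trans ?_
    refine (Finset.sum_le_sum fun i _ => h1 v i).trans ?_
    rw [Finset.sum_const, Finset.card_univ, Fintype.card_fin, nsmul_eq_mul]
  refine (measure_biUnion_finset_le _ _).trans ?_
  refine (Finset.sum_le_sum fun v _ => h2 v).trans ?_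
  rw [Finset.sum_const, nsmul_eq_mul]
  have e1 : (𝒲.card : ℝ) * K * (2 * M + 1) * u = ((𝒲.card : ℕ) : ℝ) * ((K : ℕ) * (((2 * M + 1 : ℕ) : ℝ) * u)) := by
    push_cast
    ring
  rw [e1, ENNReal.ofReal_mul (by positivity), ENNReal.ofReal_mul (by positivity),
    ENNReal.ofReal_mul (by positivity), ENNReal.ofReal_natCast, ENNReal.ofReal_natCast,
    ENNReal.ofReal_natCast]

/-- **package RUN** -/
theorem t_RUN (hDEC : S_DEC) (hLOW : S_LOW) (hCF : S_CF) (hERR : S_ERR) (hQF : S_QF) : S_RUN := by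
  classical
  intro δ ε θ η hδ hε hθ hη
  have hpi := Real.pi_pos
  have hpi4 := Real.pi_lt_d2
  obtain ⟨δ', σ, c₁, B, Ξ, hδ', hσ, hσ1, hc₁, hB, hΞ, hdec⟩ := hDEC δ (ε / 2) hδ (by linarith)
  obtain ⟨lam, C, T0, hCB⟩ := CB_ex
  obtain ⟨c₂, A₀, hc₂, hlow⟩ := hLOW lam σ θ hCB.1 hσ hσ1 hθ
  obtain ⟨A, c₃, hA2, hA0, hc₃, hcf⟩ := hCF lam C T0 hCB Ξ (B + c₁) θ A₀ hΞ (by linarith) hθ
  obtain ⟨C', L₁, hC', herr⟩ := hERR lam C T0 hCB
  obtain ⟨D, hD⟩ : ∃ D : ℝ, D = δ' - δ := ⟨_, rfl⟩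
  have hD0 : 0 < D := by rw [hD]; linarith
  obtain ⟨e, he⟩ : ∃ e : ℝ, e = D / 80 := ⟨_, rfl⟩
  obtain ⟨e₁, he₁⟩ : ∃ e₁ : ℝ, e₁ = min (D / 8) 1 := ⟨_, rfl⟩
  obtain ⟨h, hh⟩ : ∃ h : ℝ, h = D / 8 := ⟨_, rfl⟩
  have he0 : 0 < e := by rw [he]; positivity
  have he₁0 : 0 < e₁ := by rw [he₁]; exact lt_min (by positivity) one_pos
  have he₁1 : e₁ ≤ 1 := by rw [he₁]; exact min_le_right _ _
  have he₁D : e₁ ≤ D / 8 := by rw [he₁]; exact min_le_left _ _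
  have hh0 : 0 < h := by rw [hh]; positivity
  obtain ⟨κ, hκ⟩ : ∃ κ : ℝ, κ = ε / 4 := ⟨_, rfl⟩
  have hκ0 : 0 < κ := by rw [hκ]; positivity
  obtain ⟨A₁, Q, hA₁, hQ, hnear⟩ := near_all2 (η := η * κ / 4) (by positivity) he0 1 le_rfl
  obtain ⟨M, hM⟩ := exists_nat_ge ((5 * Q + 2 * δ' + 2) / h + 1)
  obtain ⟨c, hcd⟩ : ∃ c : ℝ, c = min (min c₂ c₃) (min (η * e₁ ^ 2 * κ / (32 * C')) (min (1 / 20) (θ / 8))) := ⟨_, rfl⟩
  have hc : 0 < c := by
    rw [hcd]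
    refine lt_min (lt_min hc₂ hc₃) (lt_min (by positivity) (lt_min (by norm_num) (by positivity)))
  have hcc2 : c ≤ c₂ := by rw [hcd]; exact (min_le_left _ _).trans (min_le_left _ _)
  have hcc3 : c ≤ c₃ := by rw [hcd]; exact (min_le_left _ _).trans (min_le_right _ _)
  have hcc4 : c ≤ η * e₁ ^ 2 * κ / (32 * C') := by rw [hcd]; exact (min_le_right _ _).trans (min_le_left _ _)
  have hcc5 : c ≤ 1 / 20 := by
    rw [hcd]; exact (min_le_right _ _).trans ((min_le_right _ _).trans (min_le_left _ _))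
  have hcc6 : c ≤ θ / 8 := by
    rw [hcd]; exact (min_le_right _ _).trans ((min_le_right _ _).trans (min_le_right _ _))
  refine ⟨c, hc, by linarith, ?_⟩
  obtain ⟨L₂, hone⟩ := one_vec (A₀ := 0) (A := A) hQF δ' (pG δ + ε / 2) hdec (hlow c A hc hcc2 hA0)
    (hcf c hc hcc3) hc hA2
  have hp0 : 0 ≤ pG δ := measureReal_nonneg
  have hM0 : (0 : ℝ) ≤ M := Nat.cast_nonneg M
  obtain ⟨D₀, hD₀⟩ : ∃ D₀ : ℝ, D₀ = 1 + Real.log (4 * A) := ⟨_, rfl⟩
  have hev : ∀ᶠ L : ℕ in atTop, ∀ (K : ℕ) (T : ℝ), 1 ≤ T → (L : ℝ) ^ (1 + θ) ≤ Real.log T →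
      (L : ℝ) ^ c ≤ K → (K : ℝ) ≤ (L : ℝ) ^ (2 * c) → ∀ x : Fin K → ℕ, (∀ i, L ≤ 4 * x i ∧ x i ≤ 2 * L) →
      (∀ i j, i ≠ j → (L : ℝ) ^ (1 - 3 * c) ≤ |(x i : ℝ) - x j|) →
      ∀ 𝒲 : Finset (Fin K → ℝ), (𝒲.card : ℝ) ≤ Real.exp ((L : ℝ) ^ (c / 2)) →
      volume {t ∈ Set.Icc T (2 * T) | ∃ v ∈ 𝒲, ∃ b : ℝ, (pG δ + ε) * K ≤
        (({i | |W (ord (NZ t + 1 + x i)) - (v i + b)| ≤ δ * Real.sqrt (2 * Real.log L) / (2 * Real.pi)} :
          Set (Fin K)).ncard : ℝ)} ≤ ENNReal.ofReal (η * T) := by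
    filter_upwards [prm hA2 hc (show 8 * c < 1 by linarith) (show 4 * c < θ by linarith),
      ev_union hc₁ hc (show 0 < η / 4 by positivity) (2 * M + 1) (by positivity), ev_log 2 0 hθ,
      ev_log (7 * (2 * e + Q)) 21 hθ,
      tend_log2.eventually_ge_atTop (D₀ * C' / (e₁ ^ 2 * κ) * (8 / η) + (40 / D) ^ 2 + 1),
      eventually_ge_atTop (⌈A₁⌉₊ + L₁ + L₂ + 11)] with L h1 h2 h3 h4 h5 h6 K T hT hLT hcK hKL x hx1 hx2 𝒲 h𝒲
    obtain ⟨r, hr⟩ : ∃ r : ℝ, r = Real.sqrt (Real.log ((2 * L : ℕ) : ℝ)) := ⟨_, rfl⟩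
    obtain ⟨w, hw⟩ : ∃ w : ℝ, w = Real.sqrt 2 * (Real.pi / r) := ⟨_, rfl⟩
    obtain ⟨ℓ, hℓ⟩ : ∃ ℓ : ℝ, ℓ = Real.log T / (2 * Real.pi) := ⟨_, rfl⟩
    have hwL : wL L = w := by rw [hw, hr]; rfl
    have hL11 : (11 : ℝ) ≤ L := by exact_mod_cast (by omega : 11 ≤ L)
    have hL0 : (0 : ℝ) < L := by linarith
    have hK : 1 ≤ K := by
      have : (0 : ℝ) < K := lt_of_lt_of_le (by positivity) hcK
      exact_mod_cast this
    have hK0 : (0 : ℝ) < K := by exact_mod_cast hK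
    have hD₀0 : 0 ≤ D₀ * C' / (e₁ ^ 2 * κ) * (8 / η) := by
      have : 0 ≤ Real.log (4 * A) := Real.log_nonneg (by
        have : (2 : ℝ) ≤ A := by exact_mod_cast hA2
        linarith)
      rw [hD₀]
      positivity
    have hlog1 : 1 ≤ Real.log ((2 * L : ℕ) : ℝ) := by
      have := sq_nonneg (40 / D)
      linarith
    have hlogD : (40 / D) ^ 2 ≤ Real.log ((2 * L : ℕ) : ℝ) := by linarith
    obtain ⟨hr1, hr2, hrle⟩ := n_r hlog1 hr
    have hLθ : (L : ℝ) ^ (1 + θ) = L * (L : ℝ) ^ θ := by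
      rw [Real.rpow_add hL0, Real.rpow_one]
    have hLθ' : (L : ℝ) * (L : ℝ) ^ θ ≤ Real.log T := by rw [← hLθ]; exact hLT
    have hn1 : ((2 * L : ℕ) : ℝ) * Real.log ((2 * L : ℕ) : ℝ) ≤ Real.log T := by
      refine le_trans ?_ hLθ'
      have h7 : ((2 * L : ℕ) : ℝ) * Real.log ((2 * L : ℕ) : ℝ) =
          L * (2 * Real.log ((2 * L : ℕ) : ℝ) + 0) := by
        push_cast
        ring
      rw [h7]
      exact mul_le_mul_of_nonneg_left h3 hL0.le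
    have hLTl : (L : ℝ) ≤ Real.log T := by
      have h7 : 1 ≤ (L : ℝ) ^ θ := Real.one_le_rpow (by linarith) hθ.le
      exact (le_mul_of_one_le_right hL0.le h7).trans hLθ'
    have hT0 : 0 < T := by linarith
    have hT11 : 11 ≤ T := by
      have := Real.log_le_sub_one_of_pos hT0
      linarith
    have hℓ0 : 0 < ℓ := by rw [hℓ]; exact div_pos (by linarith) (by positivity)
    obtain ⟨hw0, hw8⟩ := n_w hD0 hw hr hr1 hlogD
    have hord : (2 * L : ℝ) + 1 + (2 * e + Q) * r ≤ ℓ :=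
      n_ord (by linarith only [hL11]) he0 hQ (by linarith only [hlog1]) hrle h4 hLθ' hℓ
    have hx1' : ∀ i, (L : ℝ) ≤ 4 * (x i : ℝ) ∧ (x i : ℝ) ≤ 2 * L := fun i =>
      ⟨by exact_mod_cast (hx1 i).1, by exact_mod_cast (hx1 i).2⟩
    obtain ⟨p1, p2, p3, p4, p5, p6, p7⟩ := h1 K T hT hLT hK hKL
    -- the bad sets
    have hA₁L : A₁ ≤ ((2 * L : ℕ) : ℝ) := (Nat.le_ceil A₁).trans (by exact_mod_cast (by omega : ⌈A₁⌉₊ ≤ 2 * L))
    have v1 : volume {t ∈ Set.Icc T (2 * T) | κ * K <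
        (({i | t ∈ {t : ℝ | ¬ nearQ {x i} T (e * r) (Q * r) t}} : Set (Fin K)).ncard : ℝ)} ≤
        ENNReal.ofReal ((η * κ / 4 * T) / κ) := by
      refine cnt_mk hK (fun i => {t : ℝ | ¬ nearQ {x i} T (e * r) (Q * r) t}) _ hκ0 fun i => ?_
      have g := hnear (2 * L) T hA₁L hT hn1 {x i} (by simp) (fun y hy => by
        rw [Finset.mem_singleton] at hy
        rw [hy]
        exact (hx1 i).2)
      rw [← hr] at g
      exact g
    have v2 : volume {t ∈ Set.Icc T (2 * T) | κ * K <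
        (({i | t ∈ {t : ℝ | e₁ < |w * Dd T t (x i) + YY L A lam T (fun i => (x i : ℝ)) t i|}} :
          Set (Fin K)).ncard : ℝ)} ≤ ENNReal.ofReal ((η * κ / 4 * T) / κ) := by
      refine cnt_mk hK (fun i => {t : ℝ | e₁ < |w * Dd T t (x i) + YY L A lam T (fun i => (x i : ℝ)) t i|})
        _ hκ0 fun i => ?_
      have g := herr L (A * K ^ 2) ⌈Real.exp (A * K ^ 2)⌉₊ T (x i) e₁ (by omega) hT hn1 p1 p2 p3 p4 p5 p6
        (hx1' i).1 (hx1' i).2 he₁0 he₁1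
      have e0 : Set.Icc T (2 * T) ∩ {t : ℝ | e₁ < |w * Dd T t (x i) + YY L A lam T (fun i => (x i : ℝ)) t i|} =
          {t ∈ Set.Icc T (2 * T) | e₁ < |wL L * Dd T t (x i) +
            (GC (zE (wL L) (Real.log T / lam) (hs (x i) T) ⌈Real.exp (A * K ^ 2)⌉₊)
              (XK (1 / (4 * (A * K ^ 2 : ℕ))) T) t).re|} := by
        rw [hwL]
        ext t
        simp only [YY, hwL]
        rfl
      show volume (Set.Icc T (2 * T) ∩ {t : ℝ | e₁ < |w * Dd T t (x i) +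
        YY L A lam T (fun i => (x i : ℝ)) t i|}) ≤ _
      rw [e0]
      refine g.trans (ENNReal.ofReal_le_ofReal ?_)
      refine mul_le_mul_of_nonneg_right ?_ hT0.le
      rw [div_le_iff₀ (by positivity)]
      exact n_err hη he₁0 hκ0 hC' hcc4 (by linarith only [hlog1]) h5 (by rw [hD₀]; exact p7)
    -- the union over the vectors
    have v3 : volume (⋃ v ∈ 𝒲, ⋃ i₀ : Fin K, ⋃ m ∈ Finset.Icc (-(M : ℤ)) M,
        {t ∈ Set.Icc T (2 * T) | (pG δ + ε / 2) * K ≤ (({i | |YY L A lam T (fun i => (x i : ℝ)) t i -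
          (w * (v i - x i) - w * (v i₀ - x i₀) + m * h)| ≤ δ'} : Set (Fin K)).ncard : ℝ)}) ≤
        ENNReal.ofReal ((𝒲.card : ℝ) * K * (2 * M + 1) * (2 * Real.exp (-(c₁ * K)) * T)) := by
      refine union_bd 𝒲 (fun v i₀ m => {t ∈ Set.Icc T (2 * T) | (pG δ + ε / 2) * K ≤
          (({i | |YY L A lam T (fun i => (x i : ℝ)) t i -
          (w * (v i - x i) - w * (v i₀ - x i₀) + m * h)| ≤ δ'} : Set (Fin K)).ncard : ℝ)})
        (fun v i₀ m => ?_) (by positivity) _ le_rfl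
      exact hone L K T (fun i => (x i : ℝ)) (by omega) hT hLT hK hKL hx1' hx2
        (fun i => w * (v i - x i) - w * (v i₀ - x i₀) + m * h)
    refine (measure_mono ?_).trans ((measure_union_le _ _).trans
      ((add_le_add ((measure_union_le _ _).trans (add_le_add v1 v2)) v3).trans ?_))
    · rintro t ⟨ht, v, hv, b, hcnt⟩
      by_cases hB1 : κ * K < (({i | t ∈ {t : ℝ | ¬ nearQ {x i} T (e * r) (Q * r) t}} : Set (Fin K)).ncard : ℝ)
      · exact Or.inl (Or.inl ⟨ht, hB1⟩)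
      by_cases hB2 : κ * K < (({i | t ∈ {t : ℝ | e₁ < |w * Dd T t (x i) + YY L A lam T (fun i => (x i : ℝ)) t i|}} :
          Set (Fin K)).ncard : ℝ)
      · exact Or.inl (Or.inr ⟨ht, hB2⟩)
      right
      obtain ⟨i₀, m, hm, hres⟩ := det_step (κ := κ) (q := pG δ + ε / 2) (M := M) hw hr1 hr (by omega) hℓ hℓ0
        hT11 ht hδ he0 hh0 hQ he₁1 (by rw [he, hh]; linarith) hM hord (fun i => (hx1 i).2)
        (by positivity) (by rw [hκ]; refine le_trans (le_of_eq ?_) hcnt; ring) (not_lt.1 hB1) (not_lt.1 hB2)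
      simp only [Set.mem_iUnion]
      exact ⟨v, hv, i₀, m, hm, ht, hres⟩
    · rw [← ENNReal.ofReal_add (by positivity) (by positivity), ← ENNReal.ofReal_add (by positivity) (by positivity)]
      apply ENNReal.ofReal_le_ofReal
      have g2 := n_fin (W := (𝒲.card : ℝ)) (T := T) (M := (M : ℝ)) hT0 hK0.le hM0 h𝒲 (h2 K hcK)
      have g3 : (η * κ / 4 * T) / κ = η / 4 * T := by field_simp
      rw [g3]
      have g4 : 0 ≤ η * T := by positivity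
      linarith only [g2, g4]
  obtain ⟨L₀, hL₀⟩ := eventually_atTop.1 hev
  exact ⟨L₀, fun L K T hL hT hLT hcK hKL x hx1 hx2 𝒲 h𝒲 => hL₀ L hL K T hT hLT hcK hKL x hx1 hx2 𝒲 h𝒲⟩

end Pool.Agent.P8H60.EN
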