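import Pool.Agent.P8H60.EN.RunC
import Pool.Agent.P8H60.EN.Pat

/-! # Project EN: the theorem for the run following a height, families with few sign patterns -/

set_option autoImplicit false

namespace Pool.Agent.P8H60.EN

open Filter Topology MeasureTheory
open Pool.Agent.R846.VS (Dd)
open Pool.Agent.P8H60.LM (GC VC nearQ near_all2)
open Pool.Agent.P8H60.BC (pG pv)
open Pool.Agent.P8H60.BW (W W_lin)
open Pool.Agent.Y743.CL (XK)
open Pool.Agent.R321.QA (hs)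
open SG (NZ ord)

/-- the deterministic step: at a good height the vector of the polynomials is near the vector at many
places -/
lemma det_core {K : ℕ} {δ δ' κ q w r ℓ T t Q e e₁ : ℝ} {x : Fin K → ℕ} {L : ℕ} {v : Fin K → ℝ}
    {Y : Fin K → ℝ} (hw : w = Real.sqrt 2 * (Real.pi / r)) (hr1 : 1 ≤ r)
    (hr : r = Real.sqrt (Real.log ((2 * L : ℕ) : ℝ))) (hL : 1 ≤ L)
    (hℓ : ℓ = Real.log T / (2 * Real.pi)) (hℓ0 : 0 < ℓ) (hT11 : 11 ≤ T) (ht : t ∈ Set.Icc T (2 * T))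
    (hδ : 0 < δ) (he : 0 < e) (hQ : 0 < Q) (_he₁1 : e₁ ≤ 1)
    (hsum : δ + 10 * e + w + e₁ ≤ δ')
    (hord : (2 * L : ℝ) + 1 + (2 * e + Q) * r ≤ ℓ) (hx : ∀ i, x i ≤ 2 * L)
    (hcnt : (q + 2 * κ) * K ≤ (({i | |W (ord (NZ t + 1 + x i)) - v i| ≤
      δ * Real.sqrt (2 * Real.log L) / (2 * Real.pi)} : Set (Fin K)).ncard : ℝ))
    (hb1 : (({i | ¬ nearQ {x i} T (e * r) (Q * r) t} : Set (Fin K)).ncard : ℝ) ≤ κ * K)
    (hb2 : (({i | e₁ < |w * Dd T t (x i) + Y i|} : Set (Fin K)).ncard : ℝ) ≤ κ * K) :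
    q * K ≤ (({i | |Y i - w * ((v i + (-(W t + 1))) - x i)| ≤ δ' ∧
      |w * ((v i + (-(W t + 1))) - x i)| ≤ 5 * Q + 2 * δ' + 2} : Set (Fin K)).ncard : ℝ) := by
  classical
  have hpi := Real.pi_pos
  have hpi3 := Real.pi_gt_three
  have hpi4 := Real.pi_lt_d2
  have h2s : 0 < Real.sqrt 2 := Real.sqrt_pos.2 (by norm_num)
  have h2s2 : Real.sqrt 2 ≤ 3 / 2 := by
    rw [Real.sqrt_le_left (by norm_num)]
    norm_num
  have hw0 : 0 < w := by rw [hw]; positivity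
  have hL1r : (1 : ℝ) ≤ L := by exact_mod_cast hL
  have hwr : w * r = Real.sqrt 2 * Real.pi := by
    rw [hw]
    field_simp
  have hwr5 : w * r ≤ 5 := by
    rw [hwr]
    have h1 : Real.sqrt 2 * Real.pi ≤ 3 / 2 * 3.15 := mul_le_mul h2s2 hpi4.le hpi.le (by norm_num)
    exact h1.trans (by norm_num)
  -- the good places
  set H : Set (Fin K) := {i | |W (ord (NZ t + 1 + x i)) - v i| ≤
      δ * Real.sqrt (2 * Real.log L) / (2 * Real.pi)} with hH
  set B1 : Set (Fin K) := {i | ¬ nearQ {x i} T (e * r) (Q * r) t} with hB1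
  set B2 : Set (Fin K) := {i | e₁ < |w * Dd T t (x i) + Y i|} with hB2
  set Gd : Set (Fin K) := (H \ B1) \ B2 with hGd
  have hGc : q * K ≤ (Gd.ncard : ℝ) := by
    have h1 : H.ncard ≤ (H \ B1).ncard + B1.ncard := Set.ncard_le_ncard_sdiff_add_ncard H B1 (Set.toFinite _)
    have h2 : (H \ B1).ncard ≤ Gd.ncard + B2.ncard :=
      Set.ncard_le_ncard_sdiff_add_ncard (H \ B1) B2 (Set.toFinite _)
    have h3 : (H.ncard : ℝ) ≤ Gd.ncard + B2.ncard + B1.ncard := by exact_mod_cast (by omega : H.ncard ≤ Gd.ncard + B2.ncard + B1.ncard)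
    linarith
  -- the vector
  set nv : Fin K → ℝ := fun i => w * ((v i + (-(W t + 1))) - x i) with hnv
  have key : ∀ i ∈ Gd, |Y i - nv i| ≤ δ + 10 * e + w + e₁ ∧ |nv i| ≤ 5 * Q + 2 * δ' + 2 := by
    rintro i ⟨⟨hi, hn1⟩, hn2⟩
    have hn1' : nearQ {x i} T (e * r) (Q * r) t := not_not.1 hn1
    have hn2' : |w * Dd T t (x i) + Y i| ≤ e₁ := not_lt.1 hn2
    obtain ⟨h1, h3⟩ := hn1' (x i) (Finset.mem_singleton_self _)
    rw [← hℓ] at h1
    have hord' : |ord (NZ t + 1 + x i) - t| ≤ 1 := by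
      have h4 : (x i : ℝ) ≤ 2 * L := by exact_mod_cast hx i
      have h5 : (0 : ℝ) ≤ x i := Nat.cast_nonneg _
      have h6 : |ord (NZ t + 1 + x i) - t| * ℓ ≤ ℓ := by
        rw [← abs_of_pos hℓ0, ← abs_mul, abs_of_pos hℓ0]
        have h7 : (2 * e + Q) * r = 2 * (e * r) + Q * r := by ring
        rw [h7] at hord
        rw [abs_le] at h1 h3 ⊢
        constructor
        · linarith only [h1.1, h3.2, hord, h5, h4, h1.2, h3.1]
        · linarith only [h1.1, h3.2, hord, h5, h4, h1.2, h3.1]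
      by_contra hcon
      push Not at hcon
      have : 1 * ℓ < |ord (NZ t + 1 + x i) - t| * ℓ := mul_lt_mul_of_pos_right hcon hℓ0
      linarith
    have h8 := W_lin hT11 ht hord' hℓ
    have hi' : |W (ord (NZ t + 1 + x i)) - v i| ≤
      δ * Real.sqrt (2 * Real.log L) / (2 * Real.pi) := hi
    have g3 : |w * (W (ord (NZ t + 1 + x i)) - v i)| ≤ δ := by
      rw [abs_mul, abs_of_pos hw0]
      refine (mul_le_mul_of_nonneg_left hi' hw0.le).trans ?_
      have h5 : Real.sqrt (2 * Real.log L) = Real.sqrt 2 * Real.sqrt (Real.log L) :=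
        Real.sqrt_mul (by norm_num) _
      have h6 : Real.sqrt (Real.log L) ≤ r := by
        rw [hr]
        apply Real.sqrt_le_sqrt
        apply Real.log_le_log (by linarith)
        push_cast
        linarith
      have h7 : Real.sqrt 2 * Real.sqrt 2 = 2 := Real.mul_self_sqrt (by norm_num)
      rw [h5]
      have h8 : w * (δ * (Real.sqrt 2 * Real.sqrt (Real.log L)) / (2 * Real.pi)) =
          (Real.sqrt 2 * Real.sqrt 2) / 2 * (δ * (Real.sqrt (Real.log L) / r)) := by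
        rw [hw]
        field_simp
      rw [h8, h7]
      have h9 : Real.sqrt (Real.log L) / r ≤ 1 := by
        rw [div_le_one (by linarith)]
        exact h6
      have h10 : δ * (Real.sqrt (Real.log L) / r) ≤ δ * 1 :=
        mul_le_mul_of_nonneg_left h9 hδ.le
      linarith
    have g4 : |w * ((ord (NZ t + 1 + x i) - t) * ℓ - (x i + 1) + Dd T t (x i))| ≤ 10 * e := by
      rw [abs_mul, abs_of_pos hw0]
      refine (mul_le_mul_of_nonneg_left h1 hw0.le).trans ?_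
      have h9 : w * (2 * (e * r)) = 2 * e * (w * r) := by ring
      rw [h9]
      have h10 : 2 * e * (w * r) ≤ 2 * e * 5 := mul_le_mul_of_nonneg_left hwr5 (by positivity)
      exact h10.trans (le_of_eq (by ring))
    have g5 : |w * (W (ord (NZ t + 1 + x i)) - W t - ℓ * (ord (NZ t + 1 + x i) - t))| ≤ w := by
      rw [abs_mul, abs_of_pos hw0]
      calc _ ≤ w * 1 := mul_le_mul_of_nonneg_left h8 hw0.le
        _ = w := mul_one w
    have e1 : Y i - nv i = (w * Dd T t (x i) + Y i) -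
        w * ((ord (NZ t + 1 + x i) - t) * ℓ - (x i + 1) + Dd T t (x i)) -
        w * (W (ord (NZ t + 1 + x i)) - W t - ℓ * (ord (NZ t + 1 + x i) - t)) +
        w * (W (ord (NZ t + 1 + x i)) - v i) := by
      simp only [hnv]
      ring
    have g6 : |Y i - nv i| ≤ δ + 10 * e + w + e₁ := by
      rw [e1]
      rw [abs_le] at g3 g4 g5 hn2' ⊢
      constructor <;> linarith
    refine ⟨g6, ?_⟩
    have g7 : |w * Dd T t (x i)| ≤ 5 * Q := by
      rw [abs_mul, abs_of_pos hw0]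
      refine (mul_le_mul_of_nonneg_left h3 hw0.le).trans ?_
      have h9 : w * (Q * r) = Q * (w * r) := by ring
      rw [h9]
      have h10 : Q * (w * r) ≤ Q * 5 := mul_le_mul_of_nonneg_left hwr5 hQ.le
      exact h10.trans (le_of_eq (by ring))
    rw [abs_le] at g6 g7 hn2' ⊢
    constructor <;> linarith
  refine hGc.trans ?_
  have hsub : Gd ⊆ ({i | |Y i - w * ((v i + (-(W t + 1))) - x i)| ≤ δ' ∧
      |w * ((v i + (-(W t + 1))) - x i)| ≤ 5 * Q + 2 * δ' + 2} : Set (Fin K)) := by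
    intro i hi
    obtain ⟨h1, h2⟩ := key i hi
    exact ⟨h1.trans hsum, h2⟩
  exact_mod_cast Set.ncard_le_ncard hsub (Set.toFinite _)

lemma ev_exp {c₁ c η : ℝ} (hc₁ : 0 < c₁) (hc : 0 < c) (hη : 0 < η) :
    ∀ᶠ L : ℕ in atTop, ∀ K : ℕ, (L : ℝ) ^ c ≤ K → 2 * Real.exp (-(c₁ / 2 * K)) ≤ η := by
  have t1 := (tendsto_rpow_atTop hc).comp (tendsto_natCast_atTop_atTop (R := ℝ))
  filter_upwards [t1.eventually_ge_atTop (-Real.log (η / 2) / (c₁ / 2))] with L h1 K hK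
  have h2 : -Real.log (η / 2) / (c₁ / 2) ≤ K := le_trans h1 hK
  rw [div_le_iff₀ (by positivity)] at h2
  have h3 : Real.exp (-(c₁ / 2 * K)) ≤ Real.exp (Real.log (η / 2)) :=
    Real.exp_le_exp.2 (by linarith)
  rw [Real.exp_log (by positivity)] at h3
  linarith

/-- **package RUNV** -/
theorem t_RUNV (hDEC : S_DEC) (hLOW : S_LOW) (hCF : S_CF) (hERR : S_ERR) (hQF : S_QF) : S_RUNV := by
  classical
  intro δ ε θ η hδ hε hθ hη
  have hpi := Real.pi_pos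
  have hpi4 := Real.pi_lt_d2
  obtain ⟨δ', σ, c₁, B, Ξ, hδ', hσ, hσ1, hc₁, hB, hΞ, hdec⟩ := hDEC δ (ε / 2) hδ (by linarith)
  obtain ⟨lam, C, T0, hCB⟩ := CB_ex
  obtain ⟨c₂, A₀, hc₂, hlow⟩ := hLOW lam σ θ hCB.1 hσ hσ1 hθ
  obtain ⟨A, c₃, hA2, hA0, hc₃, hcf⟩ := hCF lam C T0 hCB Ξ (B + c₁) θ A₀ hΞ (by linarith) hθ
  obtain ⟨C', L₁, hC', herr⟩ := hERR lam C T0 hCB
  obtain ⟨D, hD⟩ : ∃ D : ℝ, D = δ' - δ := ⟨_, rfl⟩
  have hD0 : 0 < D := by rw [hD]; linarith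
  obtain ⟨e, he⟩ : ∃ e : ℝ, e = D / 80 := ⟨_, rfl⟩
  obtain ⟨e₁, he₁⟩ : ∃ e₁ : ℝ, e₁ = min (D / 8) 1 := ⟨_, rfl⟩
  obtain ⟨h, hh⟩ : ∃ h : ℝ, h = D / 8 := ⟨_, rfl⟩
  have he0 : 0 < e := by rw [he]; positivity
  have he₁0 : 0 < e₁ := by rw [he₁]; exact lt_min (by positivity) one_pos
  have he₁1 : e₁ ≤ 1 := by rw [he₁]; exact min_le_right _ _
  have he₁D : e₁ ≤ D / 8 := by rw [he₁]; exact min_le_left _ _
  have hh0 : 0 < h := by rw [hh]; positivity
  obtain ⟨κ, hκ⟩ : ∃ κ : ℝ, κ = ε / 4 := ⟨_, rfl⟩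
  have hκ0 : 0 < κ := by rw [hκ]; positivity
  obtain ⟨A₁, Q, hA₁, hQ, hnear⟩ := near_all2 (η := η * κ / 4) (by positivity) he0 1 le_rfl
  obtain ⟨M, hM⟩ := exists_nat_ge ((5 * Q + 2 * δ' + 2) / h + 1)
  obtain ⟨c, hcd⟩ : ∃ c : ℝ, c = min (min c₂ c₃) (min (η * e₁ ^ 2 * κ / (32 * C')) (min (1 / 20) (θ / 8))) := ⟨_, rfl⟩
  have hc : 0 < c := by
    rw [hcd]
    refine lt_min (lt_min hc₂ hc₃) (lt_min (by positivity) (lt_min (by norm_num) (by positivity)))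
  have hcc2 : c ≤ c₂ := by rw [hcd]; exact (min_le_left _ _).trans (min_le_left _ _)
  have hcc3 : c ≤ c₃ := by rw [hcd]; exact (min_le_left _ _).trans (min_le_right _ _)
  have hcc4 : c ≤ η * e₁ ^ 2 * κ / (32 * C') := by rw [hcd]; exact (min_le_right _ _).trans (min_le_left _ _)
  have hcc5 : c ≤ 1 / 20 := by
    rw [hcd]; exact (min_le_right _ _).trans ((min_le_right _ _).trans (min_le_left _ _))
  have hcc6 : c ≤ θ / 8 := by
    rw [hcd]; exact (min_le_right _ _).trans ((min_le_right _ _).trans (min_le_right _ _))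
  obtain ⟨ν, hν⟩ : ∃ ν : ℝ, ν = c₁ / (2 * (2 * M + 1)) := ⟨_, rfl⟩
  have hν0 : 0 < ν := by rw [hν]; positivity
  refine ⟨c, ν, hc, by linarith, hν0, ?_⟩
  obtain ⟨L₂, hone⟩ := one_vec (A₀ := 0) (A := A) hQF δ' (pG δ + ε / 2) hdec (hlow c A hc hcc2 hA0)
    (hcf c hc hcc3) hc hA2
  have hp0 : 0 ≤ pG δ := measureReal_nonneg
  have hM0 : (0 : ℝ) ≤ M := Nat.cast_nonneg M
  obtain ⟨D₀, hD₀⟩ : ∃ D₀ : ℝ, D₀ = 1 + Real.log (4 * A) := ⟨_, rfl⟩
  have hev : ∀ᶠ L : ℕ in atTop, ∀ (K : ℕ) (T : ℝ), 1 ≤ T → (L : ℝ) ^ (1 + θ) ≤ Real.log T →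
      (L : ℝ) ^ c ≤ K → (K : ℝ) ≤ (L : ℝ) ^ (2 * c) → ∀ x : Fin K → ℕ, (∀ i, L ≤ 4 * x i ∧ x i ≤ 2 * L) →
      (∀ i j, i ≠ j → (L : ℝ) ^ (1 - 3 * c) ≤ |(x i : ℝ) - x j|) →
      ∀ V : Set (Fin K → ℝ), (∀ v ∈ V, ∀ b : ℝ, (fun i => v i + b) ∈ V) →
      (∀ y : Fin K → ℝ, ((pv V y).ncard : ℝ) ≤ Real.exp (ν * K)) →
      volume {t ∈ Set.Icc T (2 * T) | ∃ v ∈ V, (pG δ + ε) * K ≤
        (({i | |W (ord (NZ t + 1 + x i)) - v i| ≤ δ * Real.sqrt (2 * Real.log L) / (2 * Real.pi)} :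
          Set (Fin K)).ncard : ℝ)} ≤ ENNReal.ofReal (η * T) := by
    filter_upwards [prm hA2 hc (show 8 * c < 1 by linarith) (show 4 * c < θ by linarith),
      ev_exp hc₁ hc (show 0 < η / 4 by positivity), ev_log 2 0 hθ,
      ev_log (7 * (2 * e + Q)) 21 hθ,
      tend_log2.eventually_ge_atTop (D₀ * C' / (e₁ ^ 2 * κ) * (8 / η) + (40 / D) ^ 2 + 1),
      eventually_ge_atTop (⌈A₁⌉₊ + L₁ + L₂ + 11)] with L h1 h2 h3 h4 h5 h6 K T hT hLT hcK hKL x hx1 hx2 V hV1 hV2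
    obtain ⟨r, hr⟩ : ∃ r : ℝ, r = Real.sqrt (Real.log ((2 * L : ℕ) : ℝ)) := ⟨_, rfl⟩
    obtain ⟨w, hw⟩ : ∃ w : ℝ, w = Real.sqrt 2 * (Real.pi / r) := ⟨_, rfl⟩
    obtain ⟨ℓ, hℓ⟩ : ∃ ℓ : ℝ, ℓ = Real.log T / (2 * Real.pi) := ⟨_, rfl⟩
    have hwL : wL L = w := by rw [hw, hr]; rfl
    have hL11 : (11 : ℝ) ≤ L := by exact_mod_cast (by omega : 11 ≤ L)
    have hL0 : (0 : ℝ) < L := by linarith
    have hK : 1 ≤ K := by
      have : (0 : ℝ) < K := lt_of_lt_of_le (by positivity) hcK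
      exact_mod_cast this
    have hK0 : (0 : ℝ) < K := by exact_mod_cast hK
    have hD₀0 : 0 ≤ D₀ * C' / (e₁ ^ 2 * κ) * (8 / η) := by
      have : 0 ≤ Real.log (4 * A) := Real.log_nonneg (by
        have : (2 : ℝ) ≤ A := by exact_mod_cast hA2
        linarith)
      rw [hD₀]
      positivity
    have hlog1 : 1 ≤ Real.log ((2 * L : ℕ) : ℝ) := by
      have := sq_nonneg (40 / D)
      linarith
    have hlogD : (40 / D) ^ 2 ≤ Real.log ((2 * L : ℕ) : ℝ) := by linarith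
    obtain ⟨hr1, hr2, hrle⟩ := n_r hlog1 hr
    have hLθ : (L : ℝ) ^ (1 + θ) = L * (L : ℝ) ^ θ := by
      rw [Real.rpow_add hL0, Real.rpow_one]
    have hLθ' : (L : ℝ) * (L : ℝ) ^ θ ≤ Real.log T := by rw [← hLθ]; exact hLT
    have hn1 : ((2 * L : ℕ) : ℝ) * Real.log ((2 * L : ℕ) : ℝ) ≤ Real.log T := by
      refine le_trans ?_ hLθ'
      have h7 : ((2 * L : ℕ) : ℝ) * Real.log ((2 * L : ℕ) : ℝ) =
          L * (2 * Real.log ((2 * L : ℕ) : ℝ) + 0) := by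
        push_cast
        ring
      rw [h7]
      exact mul_le_mul_of_nonneg_left h3 hL0.le
    have hLTl : (L : ℝ) ≤ Real.log T := by
      have h7 : 1 ≤ (L : ℝ) ^ θ := Real.one_le_rpow (by linarith) hθ.le
      exact (le_mul_of_one_le_right hL0.le h7).trans hLθ'
    have hT0 : 0 < T := by linarith
    have hT11 : 11 ≤ T := by
      have := Real.log_le_sub_one_of_pos hT0
      linarith
    have hℓ0 : 0 < ℓ := by rw [hℓ]; exact div_pos (by linarith) (by positivity)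
    obtain ⟨hw0, hw8⟩ := n_w hD0 hw hr hr1 hlogD
    have hord : (2 * L : ℝ) + 1 + (2 * e + Q) * r ≤ ℓ :=
      n_ord (by linarith only [hL11]) he0 hQ (by linarith only [hlog1]) hrle h4 hLθ' hℓ
    have hx1' : ∀ i, (L : ℝ) ≤ 4 * (x i : ℝ) ∧ (x i : ℝ) ≤ 2 * L := fun i =>
      ⟨by exact_mod_cast (hx1 i).1, by exact_mod_cast (hx1 i).2⟩
    obtain ⟨p1, p2, p3, p4, p5, p6, p7⟩ := h1 K T hT hLT hK hKL
    -- the bad sets
    have hA₁L : A₁ ≤ ((2 * L : ℕ) : ℝ) := (Nat.le_ceil A₁).trans (by exact_mod_cast (by omega : ⌈A₁⌉₊ ≤ 2 * L))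
    have v1 : volume {t ∈ Set.Icc T (2 * T) | κ * K <
        (({i | t ∈ {t : ℝ | ¬ nearQ {x i} T (e * r) (Q * r) t}} : Set (Fin K)).ncard : ℝ)} ≤
        ENNReal.ofReal ((η * κ / 4 * T) / κ) := by
      refine cnt_mk hK (fun i => {t : ℝ | ¬ nearQ {x i} T (e * r) (Q * r) t}) _ hκ0 fun i => ?_
      have g := hnear (2 * L) T hA₁L hT hn1 {x i} (by simp) (fun y hy => by
        rw [Finset.mem_singleton] at hy
        rw [hy]
        exact (hx1 i).2)
      rw [← hr] at g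
      exact g
    have v2 : volume {t ∈ Set.Icc T (2 * T) | κ * K <
        (({i | t ∈ {t : ℝ | e₁ < |w * Dd T t (x i) + YY L A lam T (fun i => (x i : ℝ)) t i|}} :
          Set (Fin K)).ncard : ℝ)} ≤ ENNReal.ofReal ((η * κ / 4 * T) / κ) := by
      refine cnt_mk hK (fun i => {t : ℝ | e₁ < |w * Dd T t (x i) + YY L A lam T (fun i => (x i : ℝ)) t i|})
        _ hκ0 fun i => ?_
      have g := herr L (A * K ^ 2) ⌈Real.exp (A * K ^ 2)⌉₊ T (x i) e₁ (by omega) hT hn1 p1 p2 p3 p4 p5 p6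
        (hx1' i).1 (hx1' i).2 he₁0 he₁1
      have e0 : Set.Icc T (2 * T) ∩ {t : ℝ | e₁ < |w * Dd T t (x i) + YY L A lam T (fun i => (x i : ℝ)) t i|} =
          {t ∈ Set.Icc T (2 * T) | e₁ < |wL L * Dd T t (x i) +
            (GC (zE (wL L) (Real.log T / lam) (hs (x i) T) ⌈Real.exp (A * K ^ 2)⌉₊)
              (XK (1 / (4 * (A * K ^ 2 : ℕ))) T) t).re|} := by
        rw [hwL]
        ext t
        simp only [YY, hwL]
        rfl
      show volume (Set.Icc T (2 * T) ∩ {t : ℝ | e₁ < |w * Dd T t (x i) +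
        YY L A lam T (fun i => (x i : ℝ)) t i|}) ≤ _
      rw [e0]
      refine g.trans (ENNReal.ofReal_le_ofReal ?_)
      refine mul_le_mul_of_nonneg_right ?_ hT0.le
      rw [div_le_iff₀ (by positivity)]
      exact n_err hη he₁0 hκ0 hC' hcc4 (by linarith only [hlog1]) h5 (by rw [hD₀]; exact p7)
    -- the union over the vectors
    obtain ⟨𝒰, hU1, hU2⟩ := pat_fin M hw0 hh0 (fun i => (x i : ℝ)) V hV2
    have v3 : volume (⋃ u ∈ 𝒰, {t ∈ Set.Icc T (2 * T) | (pG δ + ε / 2) * K ≤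
        (({i | |YY L A lam T (fun i => (x i : ℝ)) t i - u i| ≤ δ'} : Set (Fin K)).ncard : ℝ)}) ≤
        ENNReal.ofReal ((𝒰.card : ℝ) * (2 * Real.exp (-(c₁ * K)) * T)) := by
      refine (measure_biUnion_finset_le _ _).trans ?_
      refine (Finset.sum_le_sum fun u _ =>
        hone L K T (fun i => (x i : ℝ)) (by omega) hT hLT hK hKL hx1' hx2 u).trans ?_
      rw [Finset.sum_const, nsmul_eq_mul, ENNReal.ofReal_mul (Nat.cast_nonneg _), ENNReal.ofReal_natCast]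
    have hcardU : (𝒰.card : ℝ) * (2 * Real.exp (-(c₁ * K)) * T) ≤ η / 4 * T := by
      have g1 : (𝒰.card : ℝ) ≤ Real.exp (c₁ / 2 * K) := by
        refine hU1.trans (le_of_eq ?_)
        rw [← Real.exp_nat_mul]
        congr 1
        rw [hν]
        push_cast
        field_simp
      have g2 : Real.exp (c₁ / 2 * K) * Real.exp (-(c₁ * K)) = Real.exp (-(c₁ / 2 * K)) := by
        rw [← Real.exp_add]
        congr 1
        ring
      have g3 : 0 ≤ 2 * Real.exp (-(c₁ * K)) * T := by positivity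
      calc (𝒰.card : ℝ) * (2 * Real.exp (-(c₁ * K)) * T) ≤
          Real.exp (c₁ / 2 * K) * (2 * Real.exp (-(c₁ * K)) * T) := mul_le_mul_of_nonneg_right g1 g3
        _ = (2 * (Real.exp (c₁ / 2 * K) * Real.exp (-(c₁ * K)))) * T := by ring
        _ ≤ η / 4 * T := by
          rw [g2]
          exact mul_le_mul_of_nonneg_right (h2 K hcK) hT0.le
    refine (measure_mono ?_).trans ((measure_union_le _ _).trans
      ((add_le_add ((measure_union_le _ _).trans (add_le_add v1 v2)) v3).trans ?_))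
    · rintro t ⟨ht, v, hv, hcnt⟩
      by_cases hB1 : κ * K < (({i | t ∈ {t : ℝ | ¬ nearQ {x i} T (e * r) (Q * r) t}} : Set (Fin K)).ncard : ℝ)
      · exact Or.inl (Or.inl ⟨ht, hB1⟩)
      by_cases hB2 : κ * K < (({i | t ∈ {t : ℝ | e₁ < |w * Dd T t (x i) + YY L A lam T (fun i => (x i : ℝ)) t i|}} :
          Set (Fin K)).ncard : ℝ)
      · exact Or.inl (Or.inr ⟨ht, hB2⟩)
      right
      have hres := det_core (κ := κ) (q := pG δ + ε / 2) (δ' := δ' - h) hw hr1 hr (by omega) hℓ hℓ0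
        hT11 ht hδ he0 hQ he₁1 (by rw [he, hh]; linarith) hord (fun i => (hx1 i).2)
        (by rw [hκ]; refine le_trans (le_of_eq ?_) hcnt; ring) (not_lt.1 hB1) (not_lt.1 hB2)
      obtain ⟨u, hu, hu2⟩ := hU2 (fun i => v i + (-(W t + 1))) (hV1 v hv _)
      simp only [Set.mem_iUnion]
      refine ⟨u, hu, ht, hres.trans ?_⟩
      have hMh : 5 * Q + 2 * δ' + 2 ≤ M * h := by
        have g1 : (5 * Q + 2 * δ' + 2) / h ≤ M := by linarith
        rwa [div_le_iff₀ hh0] at g1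
      have hsub : ({i | |YY L A lam T (fun i => (x i : ℝ)) t i - w * ((v i + (-(W t + 1))) - x i)| ≤ δ' - h ∧
          |w * ((v i + (-(W t + 1))) - x i)| ≤ 5 * Q + 2 * (δ' - h) + 2} : Set (Fin K)) ⊆
          {i | |YY L A lam T (fun i => (x i : ℝ)) t i - u i| ≤ δ'} := by
        rintro i ⟨g1, g2⟩
        have g3 := hu2 i (by linarith)
        show |YY L A lam T (fun i => (x i : ℝ)) t i - u i| ≤ δ'
        rw [abs_le] at g1 g3 ⊢
        constructor <;> linarith [g1.1, g1.2, g3.1, g3.2]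
      exact_mod_cast Set.ncard_le_ncard hsub (Set.toFinite _)
    · rw [← ENNReal.ofReal_add (by positivity) (by positivity), ← ENNReal.ofReal_add (by positivity) (by positivity)]
      apply ENNReal.ofReal_le_ofReal
      have g3 : (η * κ / 4 * T) / κ = η / 4 * T := by field_simp
      rw [g3]
      have g4 : 0 ≤ η * T := by positivity
      linarith only [hcardU, g4]
  obtain ⟨L₀, hL₀⟩ := eventually_atTop.1 hev
  exact ⟨L₀, fun L K T hL hT hLT hcK hKL x hx1 hx2 V hV1 hV2 => hL₀ L hL K T hT hLT hcK hKL x hx1 hx2 V hV1 hV2⟩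

end Pool.Agent.P8H60.EN
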