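import Pool.Agent.P8H60.LM.Stm
import Pool.Agent.P8H60.BC.Stm
import Pool.Agent.Y743.CL.Cb
import Pool.Agent.R846.VS.E

/-!
# Statements of the packages of project EN (no set of `exp (L ^ c)` curves follows the zeta zeros)

Final theorem: for every given set of at most `exp (L ^ c)` functions `f`, for almost all `n <= N`, every
translate `f + b` agrees with the sum of `j` consecutive normalised gaps up to `δ √(log L / (2 π ^ 2))` for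
at most `(p(δ) + ε) L` of the `j <= L`.

Core: the fluctuations of the number of zeros at `K = L ^ c` places (of distance `>= L ^ (1 - 3 c)`) are
approximated, at most places and for most heights, by prime polynomials whose joint characteristic
function is Gaussian up to an error `exp (-B K)`, and whose covariance matrix is at least `σ ^ 2` times the
identity (`σ < 1` near `1`).
-/

set_option autoImplicit false

namespace Pool.Agent.P8H60.EN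

open Finset MeasureTheory Filter Topology ProbabilityTheory Complex
open Pool.Agent.P8H60.LM (GC VC)
open Pool.Agent.P8H60.BC (pG)
open Pool.Agent.Y743.CL (rc XK er VS SS)
open Pool.Agent.R846.VS (Dd)
open Pool.Agent.R321.QA (hs)

/-! ## Abstract part -/

/-- package TP (trigonometric majorant of an interval, periodic).  `f` is a trigonometric polynomial and
`g` its convolution with the normal law of variance `σ ^ 2`.
Proof: let `h` be the continuous `2R`-periodic function which is `1` on `[-δ', δ']`, `0` on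
`[-R, R] ∖ [-δ'', δ'']` and linear in between, `f₀` a (real) trigonometric polynomial with
`|f₀ - h| ≤ ε / 8` (density of trigonometric polynomials: `span_fourier_closure_eq_top` on `AddCircle (2R)`;
or Fejer), and `f = f₀ + ε / 8`, so that `h ≤ f ≤ h + ε / 4`.  Then `g x = E f (x + σ G)` (characteristic
function of `gaussianReal`), `0 ≤ g`, and `g x ≤ P(|x' + σ G| ≤ δ'') + P(|σ G| ≥ R - δ'') + ε / 4` where
`x' = x` modulo `2R`, `|x'| ≤ R`; the first probability is at most `pG (δ'' / σ)` (the interval around `0`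
has the largest mass; compare `Pool/Agent/P8H7/BC/GL.lean`, `G_lip`, `pG_eq` there), and this is at most
`pG δ + ε / 4` for `δ''` near `δ` and `σ` near `1`. -/
def S_TP : Prop := ∀ δ ε : ℝ, 0 < δ → 0 < ε → ∃ (δ' σ : ℝ) (N : ℕ) (c : Fin N → ℂ) (q : Fin N → ℝ)
  (f g : ℝ → ℝ), δ < δ' ∧ 0 < σ ∧ σ < 1 ∧
  (∀ x, (f x : ℂ) = ∑ m, c m * cexp (I * ((q m * x : ℝ) : ℂ))) ∧
  (∀ x, (g x : ℂ) = ∑ m, c m * ((Real.exp (-(σ ^ 2 * q m ^ 2) / 2) : ℝ) : ℂ) *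
    cexp (I * ((q m * x : ℝ) : ℂ))) ∧
  (∀ x, 0 ≤ f x) ∧ (∀ x, |x| ≤ δ' → 1 ≤ f x) ∧ (∀ x, 0 ≤ g x) ∧ ∀ x, g x ≤ pG δ + ε

/-- package CHB.  `F` is a trigonometric polynomial, `G` its convolution with the normal law of variance
`σ ^ 2`, `|G| ≤ Q`; the characteristic function of the vector `Y` is near the one of the normal law with
covariance matrix `S ≥ σ ^ 2`.
Proof: expand the product (`Finset.prod_univ_sum`, a finite sum over `m : Fin K → Fin N`), integrate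
termwise; up to `(∑ |c m|) ^ K err` the result is `∑_m ∏ c (m i) e^(-i q (m i) v i) exp (-q S q / 2)`; here
`exp (-q S q / 2) = exp (-σ ^ 2 |q| ^ 2 / 2) ∫ e^(i <q, x>) dμ(x)` with `μ` the centred Gaussian measure with
covariance matrix `S - σ ^ 2` (Mathlib: `ProbabilityTheory.multivariateGaussian`,
`charFun_multivariateGaussian`), so the sum is `∫ ∏ G (x i - v i) dμ(x) ≤ Q ^ K`. -/
def S_CHB : Prop := ∀ (K N : ℕ) (c : Fin N → ℂ) (q : Fin N → ℝ) (F G : ℝ → ℝ) (σ Q err T : ℝ)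
  (Y : ℝ → Fin K → ℝ) (S : Matrix (Fin K) (Fin K) ℝ), 0 < T → 0 ≤ err → Continuous Y →
  (∀ x, (F x : ℂ) = ∑ m, c m * cexp (I * ((q m * x : ℝ) : ℂ))) →
  (∀ x, (G x : ℂ) = ∑ m, c m * ((Real.exp (-(σ ^ 2 * q m ^ 2) / 2) : ℝ) : ℂ) *
    cexp (I * ((q m * x : ℝ) : ℂ))) → (∀ x, |G x| ≤ Q) →
  (S - σ ^ 2 • (1 : Matrix (Fin K) (Fin K) ℝ)).PosSemidef →
  (∀ m : Fin K → Fin N, ‖((1 / T : ℝ) : ℂ) * (∫ t in T..(2 * T),
      cexp (I * ((∑ i, q (m i) * Y t i : ℝ) : ℂ))) -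
      cexp ((-(∑ i, ∑ k, q (m i) * S i k * q (m k)) / 2 : ℝ) : ℂ)‖ ≤ err) →
  ∀ v : Fin K → ℝ, 1 / T * (∫ t in T..(2 * T), ∏ i, F (Y t i - v i)) ≤
    Q ^ K + (∑ m, ‖c m‖) ^ K * err

/-- package DEC (assembly of TP and CHB).  Take `f, g` from `S_TP δ (ε / 2)`, `λ > 0` small, `F = 1 + λ f`,
`G = 1 + λ g` (one more frequency, `0`), `Q = 1 + λ (pG δ + ε / 2)`, `B = log (1 + λ ∑ |c m|)`,
`Ξ = max |q m|`; then Markov's inequality `(1 + λ) ^ (number) ≤ ∏ F (Y i - v i)` and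
`Q ≤ (1 + λ) ^ (pG δ + ε) exp (-c₁)` for small `λ`. -/
def S_DEC : Prop := ∀ δ ε : ℝ, 0 < δ → 0 < ε → ∃ δ' σ c₁ B Ξ : ℝ, δ < δ' ∧ 0 < σ ∧ σ < 1 ∧ 0 < c₁ ∧
  0 ≤ B ∧ 0 ≤ Ξ ∧ ∀ (K : ℕ) (T err : ℝ) (Y : ℝ → Fin K → ℝ) (S : Matrix (Fin K) (Fin K) ℝ),
  0 < T → 0 ≤ err → Continuous Y → (S - σ ^ 2 • (1 : Matrix (Fin K) (Fin K) ℝ)).PosSemidef →
  (∀ u : Fin K → ℝ, (∀ i, |u i| ≤ Ξ) → ‖((1 / T : ℝ) : ℂ) * (∫ t in T..(2 * T),
      cexp (I * ((∑ i, u i * Y t i : ℝ) : ℂ))) -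
      cexp ((-(∑ i, ∑ k, u i * S i k * u k) / 2 : ℝ) : ℂ)‖ ≤ err) →
  ∀ v : Fin K → ℝ, volume {t ∈ Set.Icc T (2 * T) | (pG δ + ε) * K ≤
    (({i | |Y t i - v i| ≤ δ'} : Set (Fin K)).ncard : ℝ)} ≤
    ENNReal.ofReal ((Real.exp (-(c₁ * K)) + Real.exp (B * K) * err) * T)

/-- the type of the assembly: `dec : S_TP → S_CHB → S_DEC` -/
def S_DECA : Prop := S_TP → S_CHB → S_DEC

/-! ## Characteristic functions of prime polynomials -/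

/-- package TAY (Taylor's formula). Induction on the number of terms: the derivative of the remainder is
`i` times the previous remainder. -/
def S_TAY : Prop := ∀ (n : ℕ) (u : ℝ),
  ‖cexp (I * (u : ℂ)) - ∑ m ∈ Finset.range n, (I * (u : ℂ)) ^ m / (m.factorial : ℂ)‖ ≤
    |u| ^ n / n.factorial

/-- package SSB: lower bound for the moments of the coefficients. Induction with
`Pool.Agent.Y743.CL.SS_lower`; if `VS c X < k M` the bound for `k + 1` is trivial. -/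
def S_SSB : Prop := ∀ (c : ℕ → ℝ) (X : ℕ) (M : ℝ), (∀ p, c p ^ 2 ≤ M) → ∀ k : ℕ,
  k.factorial * (VS c X ^ k - k * (k - 1) / 2 * M * VS c X ^ (k - 1)) ≤ SS c X k

/-- package CFQ (characteristic function of prime polynomials with a small error, uses TAY and SSB).
Let `V = VC z X`, `G = GC z X t`, `u = Re G = (G + conj G) / 2`.
`|e^(iu) - ∑_(m < 2n) (iu)^m / m!| ≤ |G|^(2n) / (2n)!`.  Moments:
`Pool.Agent.P8H67.LM.mom_bd` (`Pool/Agent/P8H67/LM/TW.lean`), `SS_le`: the mean value of `G^k conj(G)^l` over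
`[T, 2T]` is `[k = l] SS k` up to `e_T √(k! V^k) √(l! V^l)`, `e_T = 8 (1 + log T) / √T`, if `k + l ≤ 2 n`.
Remainder: `(1 + e_T) n! V^n / (2n)! ≤ (1 + e_T) (V / n)^n`.  Main terms:
`∑_(k < n) (-1)^k SS k / (4^k (k!)^2)`, compared with `∑_(k < n) (-V/4)^k / k!` by `S_SSB` and `SS_le` (the
difference is at most `∑_k k (k - 1) M V^(k - 1) / (2 4^k k!) ≤ M V e^(V/4) / 32 ≤ M e^V`), and with
`e^(-V/4)` (error `(V/4)^n / n! ≤ (V / n)^n`).  Errors of the moments: `∑_(m < 2n) ∑_j C(m, j) 2^(-m)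
√(j! (m - j)!) V^(m/2) / m! ≤ ∑_m V^(m/2) / √(m!) ≤ ∑_m (1 + V^m / m!) ≤ 2 n + e^V`. -/
def S_CFQ : Prop := ∀ (z : ℕ → ℂ) (X n : ℕ) (T M : ℝ), 1 ≤ X → 1 ≤ n → 1 ≤ T →
  ((X ^ (2 * n) : ℕ) : ℝ) ≤ Real.sqrt T → (∀ p, ‖z p‖ ^ 2 ≤ M) →
  ‖((1 / T : ℝ) : ℂ) * (∫ t in T..(2 * T), cexp (I * (((GC z X t).re : ℝ) : ℂ))) -
    cexp ((-(VC z X) / 4 : ℝ) : ℂ)‖ ≤
    3 * (VC z X / n) ^ n + M * Real.exp (VC z X) +
      8 * (1 + Real.log T) / Real.sqrt T * (2 * n + Real.exp (VC z X) + (VC z X / n) ^ n)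

/-- the type of the assembly: `cfq : S_TAY → S_SSB → S_CFQ` -/
def S_CFQA : Prop := S_TAY → S_SSB → S_CFQ

/-! ## Sums over primes -/

/-- package COS: Abel summation with `Pool.Agent.Helper256.KM.mertens_log` (`∑ log p / p = log N + O(1)`);
`f(v) = cos (y v) / v`, `∫ |f'| ≤ y log (log X / log z) + 1 / log z`, and
`|∫_(log z)^(log X) cos (y v) / v dv| ≤ 2 / (y log z)` (integration by parts). -/
def S_COS : Prop := ∃ C : ℝ, 0 ≤ C ∧ ∀ (z X : ℕ) (y : ℝ), 3 ≤ z → z ≤ X → 0 < y →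
  |∑ p ∈ (Finset.Ioc z X).filter Nat.Prime, Real.cos (y * Real.log p) / p| ≤
    C * (1 / (y * Real.log z) + y * (Real.log (Real.log X) - Real.log (Real.log z)) + 1 / Real.log z)

/-- package LS: square out; diagonal terms by `Pool.Agent.Helper256.KM.mertens_inv`, the others by
`S_COS` and `(∑ |b i|) ^ 2 ≤ m ∑ b i ^ 2`. -/
def S_LS : Prop := ∃ C : ℝ, 0 ≤ C ∧ ∀ (z X m : ℕ) (b y : Fin m → ℝ) (d D : ℝ), 3 ≤ z → z ≤ X → 0 < d →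
  (∀ i k, i ≠ k → d ≤ |y i - y k|) → (∀ i k, |y i - y k| ≤ D) →
  (Real.log (Real.log X) - Real.log (Real.log z) - C - C * m * (1 / (d * Real.log z) +
    D * (Real.log (Real.log X) - Real.log (Real.log z)) + 1 / Real.log z)) * ∑ i, b i ^ 2 ≤
  ∑ p ∈ (Finset.Ioc z X).filter Nat.Prime,
    (1 / p : ℝ) * ‖∑ i, (b i : ℂ) * cexp (-(I * ((y i * Real.log p : ℝ) : ℂ)))‖ ^ 2

/-- the type of the assembly: `ls : S_COS → S_LS` -/
def S_LSA : Prop := S_COS → S_LS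

/-- the normalisation -/
noncomputable def wL (L : ℕ) : ℝ := Real.sqrt 2 * (Real.pi / Real.sqrt (Real.log ((2 * L : ℕ) : ℝ)))

/-- the coefficients belonging to one place (only primes `> z0`) -/
noncomputable def zE (w l h : ℝ) (z0 p : ℕ) : ℂ :=
  if z0 < p then ((w * rc l h p : ℝ) : ℂ) * (p : ℂ) ^ (-((h / 2 : ℝ) : ℂ) * I) else 0

/-- the coefficients of a linear combination -/
noncomputable def zU {K : ℕ} (w l : ℝ) (h u : Fin K → ℝ) (z0 p : ℕ) : ℂ :=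
  ∑ i, (u i : ℂ) * zE w l (h i) z0 p

/-- the covariance matrix -/
noncomputable def SM {K : ℕ} (w l : ℝ) (h : Fin K → ℝ) (z0 X : ℕ) : Matrix (Fin K) (Fin K) ℝ :=
  fun i k => 1 / 2 * ∑ p ∈ (Finset.Icc 1 X).filter Nat.Prime,
    (zE w l (h i) z0 p * (starRingEnd ℂ) (zE w l (h k) z0 p)).re

/-- package QF (algebra) -/
def S_QF : Prop := ∀ (K : ℕ) (w l : ℝ) (h : Fin K → ℝ) (z0 X : ℕ),
  (∀ u : Fin K → ℝ, ∑ i, ∑ k, u i * SM w l h z0 X i k * u k = VC (zU w l h u z0) X / 2) ∧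
  (∀ (u : Fin K → ℝ) (t : ℝ), ∑ i, u i * (GC (zE w l (h i) z0) X t).re = (GC (zU w l h u z0) X t).re) ∧
  ∀ σ : ℝ, (∀ u : Fin K → ℝ, σ ^ 2 * ∑ i, u i ^ 2 ≤ VC (zU w l h u z0) X / 2) →
    (SM w l h z0 X - σ ^ 2 • (1 : Matrix (Fin K) (Fin K) ℝ)).PosSemidef

/-- package LOW (uses LS).  With `α_p = l ggo(l, p) / (√(2π) π √p)` one has
`rc l h p * p ^ (-i h / 2) = -i α_p (1 - p ^ (-i h))`, so for `p > z0`
`‖zU p‖ ^ 2 = w ^ 2 α_p ^ 2 ‖∑ u_i - ∑ u_i p ^ (-i h_i)‖ ^ 2`, a trigonometric sum with the `K + 1`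
coefficients `∑ u_i, -u_1, …` at the points `0, h_i` (`hs x T = 2 π x / log T`).  Drop the primes `p ≤ z`
where `log z` is about `(1 + L ^ (4 c)) log T / L ^ (1 - 3 c)` (`z ≥ z0`, since `L ^ (1 + θ) ≤ log T`);
for `p > z`, `α_p ^ 2 ≥ (1 - τ) / (π ^ 2 p)` by `ggo_low` (`Pool/Agent/TH850/UV/Gn.lean`), as
`log p ≤ log T / (4 n)` is small compared with `l`: this needs `n` large, which follows from the
hypothesis `A ≤ n` with `A` large in terms of `lam, σ`; then apply `S_LS` with `m = K + 1`,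
`d` about `2 π L ^ (1 - 3 c) / log T`, `D ≤ 14 L / log T`:
`log (log X / log z) ≥ (1 - 12 c) log L - C_A`, and `K (1 / (d log z) + D log L + 1 / log z)` is bounded. -/
def S_LOW : Prop := ∀ lam σ θ : ℝ, 16 ≤ lam → 0 < σ → σ < 1 → 0 < θ → ∃ c₂ A₀ : ℝ, 0 < c₂ ∧
  ∀ c A : ℝ, 0 < c → c ≤ c₂ → A₀ ≤ A → ∃ L₀ : ℕ, ∀ (L K n z0 : ℕ) (T : ℝ) (x : Fin K → ℝ), L₀ ≤ L →
  1 ≤ T → (L : ℝ) ^ (1 + θ) ≤ Real.log T → (K : ℝ) ≤ (L : ℝ) ^ (2 * c) → A ≤ n →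
  (n : ℝ) ≤ A * (L : ℝ) ^ (4 * c) → Real.log z0 ≤ 2 * A * (L : ℝ) ^ (4 * c) →
  (∀ i, (L : ℝ) ≤ 4 * x i ∧ x i ≤ 2 * L) → (∀ i k, i ≠ k → (L : ℝ) ^ (1 - 3 * c) ≤ |x i - x k|) →
  ∀ u : Fin K → ℝ, σ ^ 2 * ∑ i, u i ^ 2 ≤
    VC (zU (wL L) (Real.log T / lam) (fun i => hs (x i) T) u z0) (XK (1 / (4 * n)) T) / 2

/-- the type of the assembly: `low : S_LS → S_LOW` -/
def S_LOWA : Prop := S_LS → S_LOW

/-! ## The number of zeros and prime polynomials -/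

/-- the facts from the starting files (`Pool.Agent.Y743.CL.comb 3`) -/
def CB (lam C T0 : ℝ) : Prop := 16 ≤ lam ∧ 0 < C ∧ 10 ≤ T0 ∧
  ∀ T : ℝ, T0 ≤ T → ∀ a : ℝ, lam ≤ a → a * Real.log a ≤ 3 * Real.log T →
  ∀ κ : ℝ, 0 < κ → κ ≤ 1 / 8 → 8 ≤ κ * Real.log T →
  IntervalIntegrable (fun t => er lam κ T a t ^ 2) volume (T + Real.log T) (2 * T - Real.log T - 7) ∧
  ∫ t in (T + Real.log T)..(2 * T - Real.log T - 7), er lam κ T a t ^ 2 ≤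
    C * (1 + Real.log (1 / κ)) * T ∧
  |VS (rc (Real.log T / lam) (2 * Real.pi * a / Real.log T)) (XK κ T) -
    2 / Real.pi ^ 2 * Real.log a| ≤ C * (1 + Real.log (1 / κ))

lemma CB_ex : ∃ lam C T0 : ℝ, CB lam C T0 := by
  obtain ⟨lam, C, T0, h1, h2, h3, h4⟩ := Pool.Agent.Y743.CL.comb 3 (by norm_num)
  exact ⟨lam, C, T0, h1, h2, h3, h4⟩

/-- package ERR.  `Dd_er` (`Pool/Agent/P8H60/LM/Lin.lean`) gives
`w Dd + Re GC (zE ..) X t = w er - w ∑_(p ≤ z0) rc p Re p^(-i (t + h / 2))`, by the definition of `zE`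
(see `GC_comb` there).  The mean square of `er` is in `CB` (over `[T + log T, 2T - log T - 7]`; the rest of
`[T, 2T]` has measure `2 log T + 7 ≤ C' T / log T`).  The mean square of the sum over `p ≤ z0` is
bounded: `mom_bd` with `k = l = 1`, `rc l h p ^ 2 ≤ (h log p) ^ 2 / p` (as `l ggo ≤ √(2π)`, `ggo_le`), and
`∑_(p ≤ z0) (log p) ^ 2 / p ≤ log z0 (log z0 + C)` (`mertens_log`), `h log z0 ≤ 1`.  Chebyshev. -/
def S_ERR : Prop := ∀ lam C T0 : ℝ, CB lam C T0 → ∃ (C' : ℝ) (L₀ : ℕ), 0 < C' ∧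
  ∀ (L n z0 : ℕ) (T x e : ℝ), L₀ ≤ L → 1 ≤ T → ((2 * L : ℕ) : ℝ) * Real.log ((2 * L : ℕ) : ℝ) ≤ Real.log T →
  2 ≤ n → 32 * (n : ℝ) ≤ Real.log T → 3 ≤ z0 → z0 ≤ XK (1 / (4 * n)) T → (z0 : ℝ) ^ 2 ≤ Real.sqrt T →
  hs (2 * L) T * Real.log z0 ≤ 1 → (L : ℝ) ≤ 4 * x → x ≤ 2 * L → 0 < e → e ≤ 1 →
  volume {t ∈ Set.Icc T (2 * T) | e < |wL L * Dd T t x +
    (GC (zE (wL L) (Real.log T / lam) (hs x T) z0) (XK (1 / (4 * n)) T) t).re|} ≤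
    ENNReal.ofReal (C' * (1 + Real.log (4 * n)) / (e ^ 2 * Real.log ((2 * L : ℕ) : ℝ)) * T)

/-- package CF (uses CFQ).  Parameters `n = A K ^ 2`, `z0 = ⌈exp (A K ^ 2)⌉`, `X = T ^ (1 / (4 n))`, so
`X ^ (2 n) ≤ √T`.  With `V = VC (zU ..) X`: `V ≤ (∑ |u i|) ^ 2 max VC (zE ..) ≤ K ^ 2 Ξ ^ 2 C_v`, since
`VC (zE ..) X ≤ w ^ 2 VS (rc ..) X ≤ (2 π ^ 2 / log (2 L)) (2 / π ^ 2 log (2 L) + C (1 + log (4 n))) ≤ C_v` by `CB`
(`log (4 n) ≤ log (4 A) + 4 c log L`); `‖zU p‖ ^ 2 ≤ K ^ 2 Ξ ^ 2 w ^ 2 / z0 =: M` (`rc_sq`, `kap_bd` in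
`Pool/Agent/Y743/CL/Cf.lean`: `rc l h p ^ 2 ≤ 1 / p`).  For `A` large in terms of `C_v, Ξ, B` the three
terms of `S_CFQ` are at most `exp (-B K) / 3` (`(V / n) ^ n ≤ e ^ (-2 n)`, `M e ^ V ≤ exp (-(B + 1) K ^ 2)`,
`V ≤ A L ^ (4 c) ≤ (log T) / 10`). -/
def S_CF : Prop := ∀ lam C T0 : ℝ, CB lam C T0 → ∀ Ξ B θ A₀ : ℝ, 0 ≤ Ξ → 0 ≤ B → 0 < θ →
  ∃ (A : ℕ) (c₂ : ℝ), 2 ≤ A ∧ A₀ ≤ A ∧ 0 < c₂ ∧ ∀ c : ℝ, 0 < c → c ≤ c₂ → ∃ L₀ : ℕ,
  ∀ (L K : ℕ) (T : ℝ) (x : Fin K → ℝ), L₀ ≤ L → 1 ≤ T → (L : ℝ) ^ (1 + θ) ≤ Real.log T → 1 ≤ K →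
  (K : ℝ) ≤ (L : ℝ) ^ (2 * c) → (∀ i, (L : ℝ) ≤ 4 * x i ∧ x i ≤ 2 * L) →
  ∀ u : Fin K → ℝ, (∀ i, |u i| ≤ Ξ) →
  ‖((1 / T : ℝ) : ℂ) * (∫ t in T..(2 * T), cexp (I * (((GC (zU (wL L) (Real.log T / lam)
      (fun i => hs (x i) T) u ⌈Real.exp (A * K ^ 2)⌉₊) (XK (1 / (4 * (A * K ^ 2 : ℕ))) T) t).re : ℝ) : ℂ))) -
    cexp ((-(VC (zU (wL L) (Real.log T / lam) (fun i => hs (x i) T) u ⌈Real.exp (A * K ^ 2)⌉₊)
      (XK (1 / (4 * (A * K ^ 2 : ℕ))) T)) / 4 : ℝ) : ℂ)‖ ≤ Real.exp (-(B * K))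

/-- the type of the assembly: `cf : S_CFQ → S_CF` -/
def S_CFA : Prop := S_CFQ → S_CF

end Pool.Agent.P8H60.EN
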