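import Pool.Agent.P8H60.EN.Stm
import Pool.Agent.P8H60.BW.Blk

/-!
# Statements of the packages of project EN, second part (assembly, and the passage to all places)
-/

set_option autoImplicit false

namespace Pool.Agent.P8H60.EN

open Finset MeasureTheory Filter Topology
open Pool.Agent.P8H60.BC (pG)
open Pool.Agent.P8H60.BW (W hitW)
open Pool.Agent.R846.UL (cn)
open SG (NZ ord)

/-- package RUN (helper60): the theorem for the run following a height. `W u = u log u / (2 π)`. -/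
def S_RUN : Prop := ∀ δ ε θ η : ℝ, 0 < δ → 0 < ε → 0 < θ → 0 < η → ∃ c : ℝ, 0 < c ∧ c < 1 / 10 ∧
  ∃ L₀ : ℕ, ∀ (L K : ℕ) (T : ℝ), L₀ ≤ L → 1 ≤ T → (L : ℝ) ^ (1 + θ) ≤ Real.log T →
  (L : ℝ) ^ c ≤ K → (K : ℝ) ≤ (L : ℝ) ^ (2 * c) → ∀ x : Fin K → ℕ, (∀ i, L ≤ 4 * x i ∧ x i ≤ 2 * L) →
  (∀ i j, i ≠ j → (L : ℝ) ^ (1 - 3 * c) ≤ |(x i : ℝ) - x j|) →
  ∀ 𝒲 : Finset (Fin K → ℝ), (𝒲.card : ℝ) ≤ Real.exp ((L : ℝ) ^ (c / 2)) →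
  volume {t ∈ Set.Icc T (2 * T) | ∃ v ∈ 𝒲, ∃ b : ℝ, (pG δ + ε) * K ≤
    (({i | |W (ord (NZ t + 1 + x i)) - (v i + b)| ≤ δ * Real.sqrt (2 * Real.log L) / (2 * Real.pi)} :
      Set (Fin K)).ncard : ℝ)} ≤ ENNReal.ofReal (η * T)

/-- package PL: the theorem for given places (`S_RUN → S_PL`).  Model: `Pool/Agent/P8H60/BW/Blk.lean`
(`blk_bw`, `ord_bw`; use `palm_unif`, and the assembly `Pool.Agent.R320.CL.asm`), with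
`V = {v + b : v ∈ 𝒲, b ∈ ℝ}`, `x i = L - s + k i` (`s ≤ S'`), and `θ / 2` in the place of `θ` in `S_RUN`
(`L ^ (1 + θ / 2) ≤ log T` for the dyadic blocks which matter). -/
def S_PL : Prop := ∀ δ ε θ η : ℝ, 0 < δ → 0 < ε → 0 < θ → 0 < η → ∃ c : ℝ, 0 < c ∧ c < 1 / 10 ∧
  ∃ L₀ : ℕ, ∀ L K N : ℕ, L₀ ≤ L → (L : ℝ) ^ (1 + θ) ≤ Real.log N →
  (L : ℝ) ^ c ≤ K → (K : ℝ) ≤ (L : ℝ) ^ (2 * c) → ∀ k : Fin K → ℕ, (∀ i, k i ≤ L) →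
  (∀ i j, i ≠ j → (L : ℝ) ^ (1 - 3 * c) ≤ |(k i : ℝ) - k j|) →
  ∀ 𝒲 : Finset (Fin K → ℝ), (𝒲.card : ℝ) ≤ Real.exp ((L : ℝ) ^ (c / 2)) →
  cn N {n | ∃ v ∈ 𝒲, ∃ b : ℝ, (pG δ + ε) * K ≤ (hitW δ L n k (fun i => v i + b) : ℝ)} ≤ η * N

/-- the type of package PL: `pl : S_RUN → S_PL` -/
def S_PLA : Prop := S_RUN → S_PL

/-- the number of the places `0 ≤ j ≤ L` where the distance of `W (γ (n + j))` and `f j` is at most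
`δ √(2 log L) / (2 π)` -/
noncomputable def hitL (δ : ℝ) (L n : ℕ) (f : ℕ → ℝ) : ℕ :=
  {j : ℕ | j ≤ L ∧ |W (ord (n + j)) - f j| ≤ δ * Real.sqrt (2 * Real.log L) / (2 * Real.pi)}.ncard

/-- package FIN: all places (`S_PL → S_FIN`).  Take `c'` from `S_PL` for `ε / 4` and a small `η'`, `c = c' / 4`,
`K = ⌈L ^ c'⌉`, `s = L / K`.  For `x < s` let `𝒲_x` be the set of the `(f (x + i s))_(i < K)`, `f ∈ 𝒲`, and
`k i = i s`.  If `f + b` has more than `(pG δ + ε) L` places of agreement `j ≤ L`, then (as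
`s K ≥ L - K`) at least `ε s / 4` of the `x < s` are such that at least `(pG δ + ε / 4) K` of the places
`x + i s` are places of agreement, that is, `n + x` is exceptional in `S_PL` for `𝒲_x`.  Sum over `n ≤ N`
and `x < s`. -/
def S_FIN : Prop := ∀ δ ε η θ : ℝ, 0 < δ → 0 < ε → 0 < η → 0 < θ → ∃ c : ℝ, 0 < c ∧ ∃ L₀ : ℕ,
  ∀ L N : ℕ, L₀ ≤ L → (L : ℝ) ^ (1 + θ) ≤ Real.log N →
  ∀ 𝒲 : Finset (ℕ → ℝ), (𝒲.card : ℝ) ≤ Real.exp ((L : ℝ) ^ c) →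
  ({n : ℕ | 1 ≤ n ∧ n ≤ N ∧ ∃ f ∈ 𝒲, ∃ b : ℝ,
    (pG δ + ε) * L < (hitL δ L n (fun j => f j + b) : ℝ)}.ncard : ℝ) ≤ η * N

/-- the type of package FIN: `fin : S_PL → S_FIN` -/
def S_FINA : Prop := S_PL → S_FIN

end Pool.Agent.P8H60.EN
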