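import Pool.Agent.P8H60.EN.Stm2
import Pool.Agent.P8H60.BW.Avg

/-!
# Statements of the packages of project EN, third part: families of low complexity

Final theorem (gap form, row MP_21f43f_nt, replaces NoSimpleGapPattern): for all large `L`, `L ^ (1 + θ) <= log N`,
for almost all `n <= N`: no solution `f` of a linear recurrence of order at most `L ^ c` and no curve
`f(j) = P_j(x)`, `P_j` given polynomials of degree at most `exp (L ^ c)` in at most `L ^ c` real parameters `x`,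
agrees with the sums of consecutive gaps up to `δ √(log L / (2 π ^ 2))` at more than `(p(δ) + ε) L` of the
`j <= L`.
-/

set_option autoImplicit false

namespace Pool.Agent.P8H60.EN

open Finset MeasureTheory Filter Topology
open Pool.Agent.P8H60.BC (pG pv pb pat Fd)
open Pool.Agent.P8H60.BW (W hitW hwW)
open Pool.Agent.R846.UL (cn)
open SG (NZ ord)

/-- package RUNV (helper60): as `S_RUN`, for a family of vectors with few sign patterns -/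
def S_RUNV : Prop := ∀ δ ε θ η : ℝ, 0 < δ → 0 < ε → 0 < θ → 0 < η → ∃ c κ : ℝ, 0 < c ∧ c < 1 / 10 ∧
  0 < κ ∧ ∃ L₀ : ℕ, ∀ (L K : ℕ) (T : ℝ), L₀ ≤ L → 1 ≤ T → (L : ℝ) ^ (1 + θ) ≤ Real.log T →
  (L : ℝ) ^ c ≤ K → (K : ℝ) ≤ (L : ℝ) ^ (2 * c) → ∀ x : Fin K → ℕ, (∀ i, L ≤ 4 * x i ∧ x i ≤ 2 * L) →
  (∀ i j, i ≠ j → (L : ℝ) ^ (1 - 3 * c) ≤ |(x i : ℝ) - x j|) →
  ∀ V : Set (Fin K → ℝ), (∀ v ∈ V, ∀ b : ℝ, (fun i => v i + b) ∈ V) →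
  (∀ y : Fin K → ℝ, ((pv V y).ncard : ℝ) ≤ Real.exp (κ * K)) →
  volume {t ∈ Set.Icc T (2 * T) | ∃ v ∈ V, (pG δ + ε) * K ≤
    (({i | |W (ord (NZ t + 1 + x i)) - v i| ≤ δ * Real.sqrt (2 * Real.log L) / (2 * Real.pi)} :
      Set (Fin K)).ncard : ℝ)} ≤ ENNReal.ofReal (η * T)

/-- package PLV: as `S_PL` for `V`.  The proof is that of `Pool/Agent/P8H71/EN/Pl.lean` with
`∃ v ∈ V, ..v i` instead of `∃ v ∈ 𝒲, ∃ b, ..v i + b` (adapt the file). -/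
def S_PLV : Prop := ∀ δ ε θ η : ℝ, 0 < δ → 0 < ε → 0 < θ → 0 < η → ∃ c κ : ℝ, 0 < c ∧ c < 1 / 10 ∧
  0 < κ ∧ ∃ L₀ : ℕ, ∀ L K N : ℕ, L₀ ≤ L → (L : ℝ) ^ (1 + θ) ≤ Real.log N →
  (L : ℝ) ^ c ≤ K → (K : ℝ) ≤ (L : ℝ) ^ (2 * c) → ∀ k : Fin K → ℕ, (∀ i, k i ≤ L) →
  (∀ i j, i ≠ j → (L : ℝ) ^ (1 - 3 * c) ≤ |(k i : ℝ) - k j|) →
  ∀ V : Set (Fin K → ℝ), (∀ v ∈ V, ∀ b : ℝ, (fun i => v i + b) ∈ V) →
  (∀ y : Fin K → ℝ, ((pv V y).ncard : ℝ) ≤ Real.exp (κ * K)) →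
  cn N {n | ∃ v ∈ V, (pG δ + ε) * K ≤ (hitW δ L n k v : ℝ)} ≤ η * N

/-- the type of package PLV: `plv : S_RUNV → S_PLV` -/
def S_PLVA : Prop := S_RUNV → S_PLV

/-- package FINV: all places of a run (`S_PLV → S_FINV`).  Take `c, κ, L₀` from `S_PLV` for
`δ, ε / 4, θ, η ε / 8`, `K = ⌈L ^ c⌉`, `s = L / K`, for `b < s` the places `b + i s` and
`V_b = {(f (b + i s))_i : f ∈ F}` (`pv V_b y = pb F b s K y`), and average over `b < s` as in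
`Pool/Agent/P8H75/EN/FinCore.lean` (`fin_core`) or `fix_bw` in `Pool/Agent/P8H60/BW/Avg.lean`. -/
def S_FINV : Prop := ∀ δ ε η θ : ℝ, 0 < δ → 0 < ε → 0 < η → 0 < θ → ∃ c κ : ℝ, 0 < c ∧ c < 1 / 10 ∧
  0 < κ ∧ ∃ L₀ : ℕ, ∀ L N : ℕ, L₀ ≤ L → (L : ℝ) ^ (1 + θ) ≤ Real.log N →
  ∀ F : Set (ℕ → ℝ), (∀ f ∈ F, ∀ b : ℝ, (fun j => f j + b) ∈ F) →
  (∀ (b s : ℕ) (y : Fin ⌈(L : ℝ) ^ c⌉₊ → ℝ), 1 ≤ s → b < s → s * ⌈(L : ℝ) ^ c⌉₊ ≤ L →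
    ((pb F b s ⌈(L : ℝ) ^ c⌉₊ y).ncard : ℝ) ≤ Real.exp (κ * ⌈(L : ℝ) ^ c⌉₊)) →
  cn N {n | ∃ f ∈ F, (pG δ + ε) * L ≤ (hwW δ L L n f : ℝ)} ≤ η * N

/-- the type of package FINV -/
def S_FINVA : Prop := S_PLV → S_FINV

/-- package MAXV: all longer runs at once, for families closed under the shift (`S_FINV → S_MAXV`).
The proof is that of `gen_bw` in `Pool/Agent/P8H60/BW/Max.lean`, with `S_FINV` for `δ₁, ε' / 8, η / (4 C), θ / 2`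
in the place of `fix_bw`: if it gives `c₁, κ`, take `c = c₁ / 2` and `L` so large that
`L ^ c ≤ (L / C) ^ c₁` (`L₁ = L / C`, natural numbers): then `k = ⌈L₁ ^ c₁⌉` is allowed in the hypothesis on
`pat F s k y` (and `pb F b s k y ⊆ pat F s k y` as `F` is closed under the shift), and
`L₁ ^ (1 + θ / 2) ≤ log (2 N)`. -/
def S_MAXV : Prop := ∀ δ ε η θ : ℝ, 0 < δ → 0 < ε → 0 < η → 0 < θ → ∃ c κ : ℝ, 0 < c ∧ 0 < κ ∧
  ∃ L₀ : ℕ, ∀ L N : ℕ, L₀ ≤ L → (L : ℝ) ^ (1 + θ) ≤ Real.log N →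
  ∀ F : Set (ℕ → ℝ), (∀ f ∈ F, ∀ b : ℝ, (fun j => f j + b) ∈ F) →
  (∀ f ∈ F, (fun j => f (j + 1)) ∈ F) →
  (∀ (s k : ℕ) (y : Fin k → ℝ), 1 ≤ s → s ≤ L → (L : ℝ) ^ c ≤ k → k ≤ L →
    ((pat F s k y).ncard : ℝ) ≤ Real.exp (κ * k)) →
  cn N {n | ∃ L' : ℕ, L ≤ L' ∧ L' ≤ N ∧ ∃ f ∈ F, (pG δ + ε) * L' < (hwW δ L L' n f : ℝ)} ≤ η * N

/-- the type of package MAXV -/
def S_MAXVA : Prop := S_FINV → S_MAXV

/-- package WAR: `Pool.Agent.Helper448.Warren.ncard_sign_patterns_le` for the polynomials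
`P i + X - y i` in `D + 1` variables (`Option (Fin D)`, `rename some`); `A = {i | sign ≠ 1}` is an image of
the sign pattern. -/
def S_WAR : Prop := ∀ (K D m : ℕ) (P : Fin K → MvPolynomial (Fin D) ℝ) (y : Fin K → ℝ),
  (∀ i, (P i).totalDegree ≤ m) →
  ({A : Set (Fin K) | ∃ (x : Fin D → ℝ) (b : ℝ), A = {i | MvPolynomial.eval x (P i) + b ≤ y i}}.ncard : ℝ) ≤
    (4 * K * (m + 1) + 2 : ℝ) ^ (D + 1)

/-- package REC.  If `t` is the last index with `b t ≠ 0`, shift the recurrence by `d - t`: then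
`f (j + d) = ∑_(l < d) a l f (j + l)` for all `j`.  Parameters: `a l` and `f l`, `l < d`; `P j` is a variable for
`j < d`, and `P (j + d) = ∑_l X_l P (j + l)` (strong recursion), of degree at most `j + d + 1`. -/
def S_REC : Prop := ∀ d : ℕ, ∃ P : ℕ → MvPolynomial (Fin (2 * d)) ℝ, (∀ j, (P j).totalDegree ≤ j + 1) ∧
  ∀ f ∈ Fd d, ∃ x : Fin (2 * d) → ℝ, ∀ j, f j = MvPolynomial.eval x (P j)

/-- package POL: curves with few parameters (`S_FINV → S_WAR → S_POL`).  If `S_FINV` gives `c₁, κ`, take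
`c = c₁ / 4`, `F` the family of the `j ↦ P_j(x) + b`, `m = ⌊exp (L ^ c)⌋`;
`(D + 1) log (4 K (m + 1) + 2) ≤ κ K` for large `L`, as `K ≥ L ^ (4 c)`, `D ≤ L ^ c`. -/
def S_POL : Prop := ∀ δ ε η θ : ℝ, 0 < δ → 0 < ε → 0 < η → 0 < θ → ∃ c : ℝ, 0 < c ∧ ∃ L₀ : ℕ,
  ∀ L N : ℕ, L₀ ≤ L → (L : ℝ) ^ (1 + θ) ≤ Real.log N →
  ∀ (D : ℕ) (P : ℕ → MvPolynomial (Fin D) ℝ), (D : ℝ) ≤ (L : ℝ) ^ c →
  (∀ j ≤ L, ((P j).totalDegree : ℝ) ≤ Real.exp ((L : ℝ) ^ c)) →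
  cn N {n | ∃ (x : Fin D → ℝ) (b : ℝ),
    (pG δ + ε) * L ≤ (hwW δ L L n (fun j => MvPolynomial.eval x (P j) + b) : ℝ)} ≤ η * N

/-- the type of package POL -/
def S_POLA : Prop := S_FINV → S_WAR → S_POL

/-- package RCV: linear recurrences of order at most `L ^ c`, all longer runs (`S_MAXV → S_WAR → S_REC →
S_RCV`).  `F = {g + a : g ∈ Fd d, a ∈ ℝ}` (as in `rec_bw`, `Pool/Agent/P8H60/BW/Rec.lean`); by `S_REC`,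
`pat F s k y` is contained in the set of `S_WAR` for `i ↦ P (i s)`, of degree at most `L ^ 2 + 1`; and
`(2 d + 1) log (4 k (L ^ 2 + 2) + 2) ≤ κ k` for `L ^ (2 c) ≤ k ≤ L` (with `2 c` the exponent of `S_MAXV`). -/
def S_RCV : Prop := ∀ δ ε η θ : ℝ, 0 < δ → 0 < ε → 0 < η → 0 < θ → ∃ c : ℝ, 0 < c ∧ ∃ L₀ : ℕ,
  ∀ L N : ℕ, L₀ ≤ L → (L : ℝ) ^ (1 + θ) ≤ Real.log N → ∀ d : ℕ, (d : ℝ) ≤ (L : ℝ) ^ c →
  cn N {n | ∃ L' : ℕ, L ≤ L' ∧ L' ≤ N ∧ ∃ f ∈ Fd d, (pG δ + ε) * L' < (hwW δ L L' n f : ℝ)} ≤ η * N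

/-- the type of package RCV -/
def S_RCVA : Prop := S_MAXV → S_WAR → S_REC → S_RCV

end Pool.Agent.P8H60.EN
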