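import Pool.Agent.P8H60.EN.Num
import Pool.Agent.P8H60.BW.Gap
import Pool.Agent.P8H60.NR.Gap

/-! # Project EN: passage to the gaps `(γ_(n+1) - γ_n) / (2 π) log (γ_n / (2 π))` -/

set_option autoImplicit false

namespace Pool.Agent.P8H60.EN

open Finset Filter Topology
open SG (ord NZ)
open Pool.Agent.P8H60.BC (pG)
open Pool.Agent.P8H60.BW (W)

/-- the unfolded gap -/
noncomputable def dl7 (n : ℕ) : ℝ :=
  (ord (n + 1) - ord n) / (2 * Real.pi) * Real.log (ord n / (2 * Real.pi))

/-- the sum of `j` consecutive gaps -/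
noncomputable def S7 (n j : ℕ) : ℝ := ∑ i ∈ range j, dl7 (n + i)

/-- `ord N log N ≤ C N` -/
lemma ord_log : ∃ C : ℝ, 0 < C ∧ ∃ N₀ : ℕ, ∀ N : ℕ, N₀ ≤ N → ord N * Real.log N ≤ C * N := by
  have hpi := Real.pi_pos
  have hpi3 := Real.pi_gt_three
  obtain ⟨T2, hT2, hlo⟩ := Pool.Agent.W54.TCF.NT_asymp' (1 / 2) (by norm_num)
  -- `2 √N ≤ ord N`
  have hsq : Tendsto (fun N : ℕ => 2 * Real.sqrt (N : ℝ)) atTop atTop :=
    ((Real.tendsto_sqrt_atTop).comp tendsto_natCast_atTop_atTop).const_mul_atTop (by norm_num)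
  have hlo1 : ∀ᶠ x : ℝ in atTop, Real.log (2 * x) ≤ x / 4 := by
    have h1 := (Real.isLittleO_log_id_atTop.bound (show (0 : ℝ) < 1 / 8 by norm_num))
    have h2 : Tendsto (fun x : ℝ => 2 * x) atTop atTop := tendsto_id.const_mul_atTop (by norm_num)
    filter_upwards [h2.eventually h1, eventually_ge_atTop 1] with x hx hx1
    have h3 : 0 ≤ Real.log (2 * x) := Real.log_nonneg (by linarith)
    rw [Real.norm_of_nonneg h3, id, Real.norm_of_nonneg (by linarith)] at hx
    linarith
  have hsq1 : Tendsto (fun N : ℕ => Real.sqrt (N : ℝ)) atTop atTop :=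
    (Real.tendsto_sqrt_atTop).comp tendsto_natCast_atTop_atTop
  have hev : ∀ᶠ N : ℕ in atTop, ord N * Real.log N ≤ (16 * Real.pi) * N := by
    filter_upwards [hsq.eventually_ge_atTop T2, hsq1.eventually hlo1,
      SG.ord_tendsto.eventually_ge_atTop (2 * T2), eventually_ge_atTop 4] with N g1 g2 g3 g4
    have hN4 : (4 : ℝ) ≤ N := by exact_mod_cast g4
    have hN0 : (0 : ℝ) < N := by linarith
    obtain ⟨s, hs⟩ : ∃ s : ℝ, s = Real.sqrt N := ⟨_, rfl⟩
    have hs2 : s ^ 2 = N := by rw [hs]; exact Real.sq_sqrt hN0.le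
    have hs1 : 2 ≤ s := by
      rw [hs]
      apply Real.le_sqrt_of_sq_le
      linarith
    rw [← hs] at g1 g2
    have hord : 2 * s ≤ ord N := by
      by_contra hcon
      push Not at hcon
      have h1 := (SG.ord_le_iff (by omega : 1 ≤ N) (2 * s)).mp hcon.le
      have h2 := (hlo (2 * s) g1).2
      rw [← Pool.Agent.R320.CL.NZ_NN] at h2
      have h3 : (N : ℝ) ≤ NZ (2 * s) := by exact_mod_cast h1
      have h5 : (1 + 1 / 2) * (2 * s / (2 * Real.pi) * Real.log (2 * s)) ≤
          (1 + 1 / 2) * (2 * s / (2 * Real.pi) * (s / 4)) := by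
        apply mul_le_mul_of_nonneg_left _ (by norm_num)
        apply mul_le_mul_of_nonneg_left g2
        positivity
      have h6 : (1 + 1 / 2) * (2 * s / (2 * Real.pi) * (s / 4)) = 3 / 8 * s ^ 2 / Real.pi := by
        field_simp
        ring
      have h7 : 3 / 8 * s ^ 2 / Real.pi ≤ 3 / 8 * s ^ 2 := by
        apply div_le_self (by positivity)
        linarith
      nlinarith
    obtain ⟨T, hT⟩ : ∃ T : ℝ, T = ord N := ⟨_, rfl⟩
    rw [← hT] at hord g3 ⊢
    have hT0 : 0 < T := by linarith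
    have a1 : NZ (T / 2) < N := by
      by_contra hcon
      push Not at hcon
      have := (SG.ord_le_iff (by omega : 1 ≤ N) _).mpr hcon
      rw [← hT] at this
      linarith
    have a3 := (hlo (T / 2) (by linarith)).1
    rw [← Pool.Agent.R320.CL.NZ_NN] at a3
    have a5 : (NZ (T / 2) : ℝ) ≤ N := by exact_mod_cast a1.le
    have a6 : Real.log N / 2 ≤ Real.log (T / 2) := by
      have h1 : Real.log s ≤ Real.log (T / 2) := Real.log_le_log (by linarith) (by linarith)
      have h2 : Real.log N = 2 * Real.log s := by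
        rw [← hs2, Real.log_pow]
        push_cast
        ring
      linarith
    have a7 : (1 - 1 / 2) * (T / 2 / (2 * Real.pi) * (Real.log N / 2)) ≤ N := by
      refine le_trans ?_ (a3.trans a5)
      apply mul_le_mul_of_nonneg_left _ (by norm_num)
      apply mul_le_mul_of_nonneg_left a6
      positivity
    have a8 : (1 - 1 / 2) * (T / 2 / (2 * Real.pi) * (Real.log N / 2)) = T * Real.log N / (16 * Real.pi) := by
      field_simp
      ring
    rw [a8, div_le_iff₀ (by positivity)] at a7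
    linarith
  obtain ⟨N₀, h⟩ := eventually_atTop.1 hev
  exact ⟨16 * Real.pi, by positivity, N₀, h⟩

/-- runs of `L` ordinates are mostly short -/
lemma few_far_unif {θ η : ℝ} (hθ : 0 < θ) (hη : 0 < η) : ∃ L₀ : ℕ, ∀ L N : ℕ, L₀ ≤ L →
    (L : ℝ) ^ (1 + θ) ≤ Real.log N →
    (((Icc 1 N).filter (fun n => 1 < ord (n + L) - ord n)).card : ℝ) ≤ η * N := by
  obtain ⟨C, hC, N₀, hord⟩ := ord_log
  obtain ⟨L₁, hL₁⟩ := eventually_atTop.1 (ev_log 0 (4 * C / η) hθ)
  refine ⟨L₁ + N₀ + 1, fun L N hL hLN => ?_⟩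
  have hL1 : (1 : ℝ) ≤ L := by exact_mod_cast (by omega : 1 ≤ L)
  have hLθ : (L : ℝ) ^ (1 + θ) = L * (L : ℝ) ^ θ := by
    rw [Real.rpow_add (by linarith), Real.rpow_one]
  have h1 := hL₁ L (by omega)
  have hLθ1 : 1 ≤ (L : ℝ) ^ θ := Real.one_le_rpow hL1 hθ.le
  have hLl : (L : ℝ) ≤ Real.log N := by
    refine le_trans ?_ hLN
    rw [hLθ]
    exact le_mul_of_one_le_right (by linarith) hLθ1
  have hlog0 : 0 < Real.log N := by linarith
  have hN0 : (0 : ℝ) < N := by
    rcases Nat.eq_zero_or_pos N with h | h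
    · rw [h] at hlog0
      simp at hlog0
    · exact_mod_cast h
  have hLN' : (L : ℝ) ≤ N := by
    have := Real.log_le_sub_one_of_pos hN0
    linarith
  have hLNn : L ≤ N := by exact_mod_cast hLN'
  have key : ∀ M : ℕ, ∑ n ∈ Icc 1 M, (ord (n + L) - ord n) =
      ∑ m ∈ range L, ord (M + 1 + m) - ∑ m ∈ range L, ord (1 + m) := by
    intro M
    induction M with
    | zero => simp
    | succ M ih =>
      rw [Finset.sum_Icc_succ_top (by omega), ih]
      have h1 : ∑ m ∈ range L, ord (M + 1 + 1 + m) =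
          ∑ m ∈ range (L + 1), ord (M + 1 + m) - ord (M + 1) := by
        rw [Finset.sum_range_succ' (fun m => ord (M + 1 + m))]
        simp only [Nat.add_zero, add_sub_cancel_right]
        exact sum_congr rfl fun m _ => by congr 1; omega
      rw [h1, Finset.sum_range_succ]
      ring
  have h2 : (((Icc 1 N).filter (fun n => 1 < ord (n + L) - ord n)).card : ℝ) ≤
      ∑ n ∈ Icc 1 N, (ord (n + L) - ord n) := by
    have h2 : (((Icc 1 N).filter (fun n => 1 < ord (n + L) - ord n)).card : ℝ) ≤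
        ∑ n ∈ (Icc 1 N).filter (fun n => 1 < ord (n + L) - ord n), (ord (n + L) - ord n) := by
      calc (((Icc 1 N).filter (fun n => 1 < ord (n + L) - ord n)).card : ℝ) =
          ∑ n ∈ (Icc 1 N).filter (fun n => 1 < ord (n + L) - ord n), (1 : ℝ) := by simp
        _ ≤ _ := sum_le_sum fun n hn => (mem_filter.1 hn).2.le
    refine h2.trans (sum_le_sum_of_subset_of_nonneg (filter_subset _ _) fun n hn _ => ?_)
    have := SG.ord_mono (mem_Icc.1 hn).1 (Nat.le_add_right n L)
    linarith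
  rw [key] at h2
  have h3 : ∀ m ∈ range L, ord (N + 1 + m) ≤ C * (2 * N + 1) / Real.log N := by
    intro m hm
    rw [mem_range] at hm
    rw [le_div_iff₀ hlog0]
    have g1 := hord (N + 1 + m) (by omega)
    have g2 : Real.log N ≤ Real.log ((N + 1 + m : ℕ) : ℝ) := by
      apply Real.log_le_log hN0
      push_cast
      have : (0 : ℝ) ≤ m := Nat.cast_nonneg m
      linarith
    have g3 : 0 < ord (N + 1 + m) := SG.ord_pos (by omega)
    have g4 : ord (N + 1 + m) * Real.log N ≤ ord (N + 1 + m) * Real.log ((N + 1 + m : ℕ) : ℝ) :=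
      mul_le_mul_of_nonneg_left g2 g3.le
    have g5 : ((N + 1 + m : ℕ) : ℝ) ≤ 2 * N + 1 := by exact_mod_cast (by omega : N + 1 + m ≤ 2 * N + 1)
    have g6 : C * ((N + 1 + m : ℕ) : ℝ) ≤ C * (2 * N + 1) := mul_le_mul_of_nonneg_left g5 hC.le
    linarith
  have h4 : 0 ≤ ∑ m ∈ range L, ord (1 + m) := sum_nonneg fun m _ => (SG.ord_pos (by omega)).le
  have h5 := sum_le_sum h3
  rw [sum_const, card_range, nsmul_eq_mul] at h5
  have h6 : (L : ℝ) * (C * (2 * N + 1) / Real.log N) ≤ η * N := by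
    rw [mul_div_assoc', div_le_iff₀ hlog0]
    have g1 : 4 * C / η ≤ (L : ℝ) ^ θ := by linarith
    rw [div_le_iff₀ hη] at g1
    have g2 : L * (4 * C) ≤ L * ((L : ℝ) ^ θ * η) := mul_le_mul_of_nonneg_left g1 (by linarith)
    have g3 : η * (L * (L : ℝ) ^ θ) ≤ η * Real.log N := by
      apply mul_le_mul_of_nonneg_left _ hη.le
      rw [← hLθ]
      exact hLN
    have g4 : L * (4 * C) ≤ η * Real.log N := by
      have : L * ((L : ℝ) ^ θ * η) = η * (L * (L : ℝ) ^ θ) := by ring
      linarith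
    have hN1 : (1 : ℝ) ≤ N := by linarith
    have g5 : (L : ℝ) * (C * (2 * N + 1)) ≤ L * (4 * C) * N := by
      have : (2 * (N : ℝ) + 1) ≤ 4 * N := by linarith
      calc (L : ℝ) * (C * (2 * N + 1)) ≤ L * (C * (4 * N)) := by
            apply mul_le_mul_of_nonneg_left _ (by linarith)
            exact mul_le_mul_of_nonneg_left this hC.le
        _ = L * (4 * C) * N := by ring
    have g6 : L * (4 * C) * N ≤ η * Real.log N * N := mul_le_mul_of_nonneg_right g4 hN0.le
    linarith
  linarith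

/-- the two normalisations -/
lemma dl7_close {n : ℕ} (hn : 1 ≤ n) (h1 : 1 ≤ ord n) (h2 : ord (n + 1) ≤ ord n + 1) :
    |W (ord (n + 1)) - W (ord n) - dl7 n| ≤ ord (n + 1) - ord n := by
  have hpi := Real.pi_gt_three
  have hpi4 := Real.pi_lt_d2
  obtain ⟨u, hu⟩ : ∃ u : ℝ, u = ord n := ⟨_, rfl⟩
  obtain ⟨v, hv⟩ : ∃ v : ℝ, v = ord (n + 1) := ⟨_, rfl⟩
  have huv : u ≤ v := by rw [hu, hv]; exact SG.ord_mono hn (Nat.le_succ n)
  unfold dl7 W
  rw [← hu] at h1 h2 ⊢
  rw [← hv] at h2 ⊢
  have hu0 : 0 < u := by linarith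
  have hv0 : 0 < v := by linarith
  have hl2 : Real.log (2 * Real.pi) ≤ 2 := by
    rw [Real.log_le_iff_le_exp (by positivity)]
    have h3 : (2.7 : ℝ) ≤ Real.exp 1 := by linarith [Real.exp_one_gt_d9]
    have h4 : Real.exp 2 = Real.exp 1 * Real.exp 1 := by rw [← Real.exp_add]; norm_num
    nlinarith
  have hl0 : 0 ≤ Real.log (2 * Real.pi) := Real.log_nonneg (by linarith)
  rw [Real.log_div hu0.ne' (by positivity)]
  have e1 : v * Real.log v / (2 * Real.pi) - u * Real.log u / (2 * Real.pi) -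
      (v - u) / (2 * Real.pi) * (Real.log u - Real.log (2 * Real.pi)) =
      (v * (Real.log v - Real.log u) + (v - u) * Real.log (2 * Real.pi)) / (2 * Real.pi) := by
    field_simp
    ring
  have h3 : 0 ≤ Real.log v - Real.log u := sub_nonneg.2 (Real.log_le_log hu0 huv)
  have h4 : v * (Real.log v - Real.log u) ≤ 2 * (v - u) := by
    have h5 : Real.log v - Real.log u ≤ (v - u) / u := by
      rw [← Real.log_div hv0.ne' hu0.ne']
      have := Real.log_le_sub_one_of_pos (div_pos hv0 hu0)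
      have h6 : v / u - 1 = (v - u) / u := by field_simp
      linarith
    have h6 : v * (Real.log v - Real.log u) ≤ v * ((v - u) / u) := mul_le_mul_of_nonneg_left h5 hv0.le
    refine h6.trans ?_
    rw [mul_div_assoc', div_le_iff₀ hu0]
    nlinarith
  have h5 : (v - u) * Real.log (2 * Real.pi) ≤ (v - u) * 2 := mul_le_mul_of_nonneg_left hl2 (by linarith)
  have h6 : 0 ≤ (v - u) * Real.log (2 * Real.pi) := mul_nonneg (by linarith) hl0
  have h7 : 0 ≤ v * (Real.log v - Real.log u) := mul_nonneg hv0.le h3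
  rw [e1, abs_of_nonneg (by positivity), div_le_iff₀ (by positivity)]
  nlinarith

lemma S7_close {n L : ℕ} (hn : 1 ≤ n) (h1 : 1 ≤ ord n) (h2 : ord (n + L) ≤ ord n + 1) {j : ℕ} (hj : j ≤ L) :
    |W (ord (n + j)) - W (ord n) - S7 n j| ≤ 1 := by
  have key : ∀ j, j ≤ L → |W (ord (n + j)) - W (ord n) - S7 n j| ≤ ord (n + j) - ord n := by
    intro j
    induction j with
    | zero => intro _; simp [S7]
    | succ j ih =>
      intro hj
      have g1 := ih (by omega)
      have m1 : ord n ≤ ord (n + j) := SG.ord_mono hn (by omega)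
      have m2 : ord (n + j + 1) ≤ ord (n + L) := SG.ord_mono (by omega) (by omega)
      have g2 := dl7_close (n := n + j) (by omega) (by linarith) (by linarith)
      have e1 : W (ord (n + (j + 1))) - W (ord n) - S7 n (j + 1) =
          (W (ord (n + j)) - W (ord n) - S7 n j) +
          (W (ord (n + j + 1)) - W (ord (n + j)) - dl7 (n + j)) := by
        unfold S7
        rw [sum_range_succ]
        have : n + (j + 1) = n + j + 1 := by omega
        rw [this]
        ring
      rw [e1]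
      refine (abs_add_le _ _).trans ?_
      have : n + (j + 1) = n + j + 1 := by omega
      rw [this]
      linarith
  have m2 : ord (n + j) ≤ ord (n + L) := SG.ord_mono (by omega) (by omega)
  linarith [key j hj]

end Pool.Agent.P8H60.EN
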